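import Mathlib

open MeasureTheory Filter Topology Finset

namespace Pool.Agent.Q215.Cone

/-- Euclidean space. -/
abbrev E (n : ℕ) := EuclideanSpace ℝ (Fin n)

/-- The properties of the uniform distribution on the unit sphere that are used. -/
structure Unif (n : ℕ) (τ : Measure (E n)) : Prop where
  prob : IsProbabilityMeasure τ
  sph : ∀ᵐ x ∂τ, ‖x‖ = 1
  inv : ∀ O : E n ≃ₗᵢ[ℝ] E n, MeasurePreserving O τ τ
  null : ∀ w : E n, w ≠ 0 → τ {x | inner ℝ w x = 0} = 0

section General

variable {ι α : Type*} [Fintype ι] [DecidableEq ι] [MeasurableSpace α]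

/-- Resampling one coordinate preserves a product measure. -/
lemma mp_update (τ : Measure α) [IsProbabilityMeasure τ] (i : ι) :
    MeasurePreserving (fun z : (ι → α) × α => Function.update z.1 i z.2)
      ((Measure.pi fun _ : ι => τ).prod τ) (Measure.pi fun _ : ι => τ) := by
  have hm : Measurable (fun z : (ι → α) × α => Function.update z.1 i z.2) := by
    rw [measurable_pi_iff]
    intro j
    by_cases h : j = i
    · subst h
      simp only [Function.update_self]
      exact measurable_snd
    · simp only [Function.update_of_ne h]
      exact (measurable_pi_apply j).comp measurable_fst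
  refine ⟨hm, ?_⟩
  symm
  refine Measure.pi_eq fun s hs => ?_
  rw [Measure.map_apply hm (MeasurableSet.univ_pi hs)]
  have hpre : (fun z : (ι → α) × α => Function.update z.1 i z.2) ⁻¹' (Set.univ.pi s) =
      (Set.univ.pi (Function.update s i Set.univ)) ×ˢ (s i) := by
    ext z
    simp only [Set.mem_preimage, Set.mem_pi, Set.mem_univ, true_implies, Set.mem_prod]
    constructor
    · intro h
      refine ⟨fun j => ?_, ?_⟩
      · by_cases hj : j = i
        · subst hj; simp
        · rw [Function.update_of_ne hj]
          have := h j
          rwa [Function.update_of_ne hj] at this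
      · have := h i
        rwa [Function.update_self] at this
    · rintro ⟨h1, h2⟩ j
      by_cases hj : j = i
      · subst hj; simpa using h2
      · rw [Function.update_of_ne hj]
        have := h1 j
        rwa [Function.update_of_ne hj] at this
  rw [hpre, Measure.prod_prod, Measure.pi_pi]
  rw [← Finset.prod_erase_mul _ _ (Finset.mem_univ i), ← Finset.prod_erase_mul (a := i)
    (f := fun j => τ (s j)) _ (Finset.mem_univ i)]
  rw [Function.update_self, measure_univ, mul_one]
  congr 1
  refine Finset.prod_congr rfl fun j hj => ?_
  rw [Function.update_of_ne (Finset.ne_of_mem_erase hj)]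

end General

variable {n : ℕ} {τ : Measure (E n)}

/-- Proper subspaces are null. -/
lemma Unif.null_sub (h : Unif n τ) (K : Submodule ℝ (E n)) (hK : K ≠ ⊤) :
    τ (K : Set (E n)) = 0 := by
  have h1 : Kᗮ ≠ ⊥ := fun hh => hK ((Submodule.orthogonal_eq_bot_iff).1 hh)
  obtain ⟨w, hw, hw0⟩ := Submodule.exists_mem_ne_zero_of_ne_bot h1
  refine measure_mono_null ?_ (h.null w hw0)
  intro x hx
  exact (Submodule.mem_orthogonal' K w).1 hw x hx

/-- Almost surely at most `n` independent vectors are linearly independent. -/
lemma Unif.ae_li (h : Unif n τ) : ∀ k : ℕ, k ≤ n →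
    ∀ᵐ U ∂(Measure.pi fun _ : Fin k => τ), LinearIndependent ℝ U := by
  have := h.prob
  intro k
  induction k with
  | zero =>
    intro _
    exact Filter.Eventually.of_forall fun U => linearIndependent_empty_type
  | succ k ih =>
    intro hk
    have ih' := ih (by omega)
    have hmp := (measurePreserving_piFinSuccAbove (fun _ : Fin (k + 1) => τ) 0).symm
    have hmeas : MeasurableSet {U : Fin (k + 1) → E n | LinearIndependent ℝ U} :=
      isOpen_setOf_linearIndependent.measurableSet
    rw [← hmp.map_eq, ae_map_iff hmp.measurable.aemeasurable hmeas]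
    have hmeas2 : MeasurableSet {z : E n × (Fin k → E n) | LinearIndependent ℝ
        ((MeasurableEquiv.piFinSuccAbove (fun _ : Fin (k + 1) => E n) 0).symm z)} :=
      hmp.measurable hmeas
    rw [Measure.ae_prod_iff_ae_ae hmeas2, Measure.ae_ae_comm hmeas2]
    filter_upwards [ih'] with U hU
    have hK : Submodule.span ℝ (Set.range U) ≠ ⊤ := by
      intro htop
      have h1 : Module.finrank ℝ (Submodule.span ℝ (Set.range U)) ≤ k := by
        have := finrank_range_le_card (R := ℝ) U
        rwa [Fintype.card_fin] at this
      rw [htop, finrank_top, finrank_euclideanSpace, Fintype.card_fin] at h1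
      omega
    have h2 := h.null_sub _ hK
    rw [ae_iff]
    refine measure_mono_null ?_ h2
    intro x hx
    by_contra hcon
    refine hx ?_
    have : ((MeasurableEquiv.piFinSuccAbove (fun _ : Fin (k + 1) => E n) 0).symm (x, U)) =
        Fin.cons x U := by
      funext j
      refine Fin.cases ?_ (fun j => ?_) j <;> simp [MeasurableEquiv.piFinSuccAbove]
    rw [this, linearIndependent_finCons]
    exact ⟨hU, hcon⟩

end Pool.Agent.Q215.Cone
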