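import Pool.Agent.Q215.Cone.Moment

open MeasureTheory Filter Topology Finset

namespace Pool.Agent.Q215.Cone

variable {n : ℕ} {τ : Measure (E n)}

/-- The determinant. -/
noncomputable def D (n : ℕ) : (E n) [⋀^Fin n]→ₗ[ℝ] ℝ :=
  (EuclideanSpace.basisFun (Fin n) ℝ).toBasis.det

lemma D_ne_iff (U : Fin n → E n) : D n U ≠ 0 ↔ LinearIndependent ℝ U := by
  rw [← isUnit_iff_ne_zero]
  unfold D
  rw [← Module.Basis.is_basis_iff_det]
  exact ⟨fun h => h.1, fun h => ⟨h, h.span_eq_top_of_card_eq_finrank' (by simp)⟩⟩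

lemma continuous_D : Continuous (fun U : Fin n → E n => D n U) := by
  unfold D
  simp only [Module.Basis.det_apply]
  refine Continuous.matrix_det ?_
  refine continuous_matrix fun i j => ?_
  have : (fun U : Fin n → E n =>
      (EuclideanSpace.basisFun (Fin n) ℝ).toBasis.toMatrix U i j) = fun U => U j i := by
    funext U
    simp [Module.Basis.toMatrix_apply]
  rw [this]
  fun_prop

/-- The coordinate of `ξ` with respect to `U i`, times the square of the determinant. -/
noncomputable def co (U : Fin n → E n) (ξ : E n) (i : Fin n) : ℝ :=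
  D n (Function.update U i ξ) * D n U

/-- The positive hull. -/
def posHull (x : Fin n → E n) : Set (E n) :=
  {y | ∃ c : Fin n → ℝ, (∀ i, 0 ≤ c i) ∧ y = ∑ i, c i • x i}

lemma D_update_sum (U : Fin n → E n) (c : Fin n → ℝ) (i : Fin n) :
    D n (Function.update U i (∑ j, c j • U j)) = c i * D n U := by
  rw [← AlternatingMap.coe_multilinearMap, MultilinearMap.map_update_sum]
  simp only [MultilinearMap.map_update_smul]
  rw [Finset.sum_eq_single i]
  · rw [Function.update_eq_self, smul_eq_mul]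
  · intro j _ hj
    rw [AlternatingMap.coe_multilinearMap, AlternatingMap.map_update_self _ _ hj.symm, smul_zero]
  · intro h; exact absurd (Finset.mem_univ i) h

lemma co_sum (U : Fin n → E n) (c : Fin n → ℝ) (i : Fin n) :
    co U (∑ j, c j • U j) i = c i * (D n U) ^ 2 := by
  unfold co
  rw [D_update_sum]; ring

lemma mem_posHull_iff {U : Fin n → E n} (hU : LinearIndependent ℝ U) (ξ : E n) :
    ξ ∈ posHull U ↔ ∀ i, 0 ≤ co U ξ i := by
  have hD : 0 < (D n U) ^ 2 := by
    have := (D_ne_iff U).2 hU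
    positivity
  constructor
  · rintro ⟨c, hc, rfl⟩ i
    rw [co_sum]
    exact mul_nonneg (hc i) hD.le
  · intro h
    have hspan : ξ ∈ Submodule.span ℝ (Set.range U) := by
      rw [hU.span_eq_top_of_card_eq_finrank' (by simp)]
      exact Submodule.mem_top
    obtain ⟨c, hc⟩ := (Submodule.mem_span_range_iff_exists_fun ℝ).1 hspan
    refine ⟨c, fun i => ?_, hc.symm⟩
    have := h i
    rw [← hc, co_sum] at this
    exact nonneg_of_mul_nonneg_left this hD

lemma co_smul (U : Fin n → E n) (ξ : E n) (c : Fin n → ℝ) (hc : ∀ i, c i * c i = 1) (i : Fin n) :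
    co (fun j => c j • U j) ξ i = c i * co U ξ i := by
  unfold co
  have h1 : Function.update (fun j => c j • U j) i ξ =
      fun j => (Function.update c i 1) j • (Function.update U i ξ) j := by
    funext j
    by_cases hj : j = i
    · subst hj; simp
    · simp [Function.update_of_ne hj]
  rw [h1, AlternatingMap.map_smul_univ, AlternatingMap.map_smul_univ]
  have h2 : (∏ j, Function.update c i 1 j) * ∏ j, c j = c i := by
    rw [← Finset.prod_mul_distrib, Finset.prod_eq_single i]
    · simp
    · intro j _ hj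
      rw [Function.update_of_ne hj, hc]
    · intro h; exact absurd (Finset.mem_univ i) h
  calc ((∏ j, Function.update c i 1 j) • D n (Function.update U i ξ)) * ((∏ j, c j) • D n U) =
      ((∏ j, Function.update c i 1 j) * ∏ j, c j) * (D n (Function.update U i ξ) * D n U) := by
        simp only [smul_eq_mul]; ring
    _ = _ := by rw [h2]

lemma continuous_co (i : Fin n) :
    Continuous (fun z : (Fin n → E n) × E n => co z.1 z.2 i) := by
  unfold co
  refine Continuous.mul (continuous_D.comp ?_) (continuous_D.comp continuous_fst)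
  exact continuous_fst.update i continuous_snd

/-- The set `{(U, ξ) : ξ` has nonnegative coordinates`}`. -/
def MM (n : ℕ) : Set ((Fin n → E n) × E n) := {z | ∀ i, 0 ≤ co z.1 z.2 i}

lemma measurableSet_MM : MeasurableSet (MM n) := by
  have : MM n = ⋂ i, {z : (Fin n → E n) × E n | 0 ≤ co z.1 z.2 i} := by
    ext z; simp [MM]
  rw [this]
  exact MeasurableSet.iInter fun i => (isClosed_Ici.preimage (continuous_co i)).measurableSet

/-- The solid angle. -/
noncomputable def al (τ : Measure (E n)) (U : Fin n → E n) : ℝ :=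
  (τ {ξ | (U, ξ) ∈ MM n}).toReal

lemma measurable_al [SFinite τ] : Measurable (al τ) := by
  unfold al
  exact (measurable_measure_prodMk_left measurableSet_MM).ennreal_toReal

lemma al_nonneg (U : Fin n → E n) : 0 ≤ al τ U := ENNReal.toReal_nonneg

lemma al_le_one [IsProbabilityMeasure τ] (U : Fin n → E n) : al τ U ≤ 1 := by
  unfold al
  exact ENNReal.toReal_le_of_le_ofReal zero_le_one (by rw [ENNReal.ofReal_one]; exact prob_le_one)

/-- Signs. -/
def sb (b : Bool) : ℝ := if b then 1 else -1

lemma sb_sq (b : Bool) : sb b * sb b = 1 := by cases b <;> simp [sb]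

lemma sb_decide (x : ℝ) : sb (decide (0 ≤ x)) = sg x := by
  unfold sb sg
  by_cases h : 0 ≤ x <;> simp [h]

lemma sum_signs {a : Fin n → ℝ} (ha : ∀ i, a i ≠ 0) (F : (Fin n → Bool) → ℝ) :
    ∑ e : Fin n → Bool, (if ∀ i, 0 ≤ sb (e i) * a i then F e else 0) =
      F (fun i => decide (0 ≤ a i)) := by
  rw [Finset.sum_eq_single (fun i => decide (0 ≤ a i))]
  · rw [if_pos]
    intro i
    rw [sb_decide, sg_mul_self]
    exact abs_nonneg _
  · intro e _ he
    rw [if_neg]
    intro hcon
    refine he ?_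
    funext i
    have h1 := hcon i
    have h2 := ha i
    cases hb : e i
    · rw [hb] at h1
      simp only [sb, Bool.false_eq_true, if_false] at h1
      have : ¬ 0 ≤ a i := fun h3 => h2 (le_antisymm (by linarith) h3)
      simp [this]
    · rw [hb] at h1
      simp only [sb, if_true] at h1
      have : 0 ≤ a i := by linarith
      simp [this]
  · intro h; exact absurd (Finset.mem_univ _) h

/-- Abbreviation for the product measure. -/
noncomputable abbrev Pn (k : ℕ) (τ : Measure (E n)) : Measure (Fin k → E n) :=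
  Measure.pi fun _ : Fin k => τ

lemma Unif.ae_sph (h : Unif n τ) (k : ℕ) : ∀ᵐ U ∂(Pn k τ), ∀ i, ‖U i‖ = 1 := by
  have := h.prob
  rw [ae_all_iff]
  intro i
  exact (measurePreserving_eval (fun _ : Fin k => τ) i).quasiMeasurePreserving.ae h.sph

lemma Unif.ae_D (h : Unif n τ) : ∀ᵐ U ∂(Pn n τ), D n U ≠ 0 := by
  filter_upwards [h.ae_li n le_rfl] with U hU using (D_ne_iff U).2 hU

lemma Unif.ae_D_update (h : Unif n τ) (i : Fin n) :
    ∀ᵐ z ∂((Pn n τ).prod τ), D n (Function.update z.1 i z.2) ≠ 0 := by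
  have := h.prob
  exact (mp_update τ i).quasiMeasurePreserving.ae h.ae_D

/-- Flipping signs preserves the product measure. -/
lemma Unif.mp_flip (h : Unif n τ) (e : Fin n → Bool) :
    MeasurePreserving (fun U : Fin n → E n => fun i => sb (e i) • U i) (Pn n τ) (Pn n τ) := by
  have := h.prob
  refine measurePreserving_pi (fun _ : Fin n => τ) (fun _ : Fin n => τ)
    (f := fun i (x : E n) => sb (e i) • x) fun i => ?_
  cases e i
  · have := h.inv (LinearIsometryEquiv.neg ℝ)
    convert this using 1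
    funext x
    simp [sb]
  · have := MeasurePreserving.id τ
    convert this using 1
    funext x
    simp [sb]

/-- The integrand. -/
noncomputable def Fz (z : (Fin n → E n) × E n) : ℝ :=
  (MM n).indicator (fun z => ‖∑ i, z.1 i‖ ^ 2) z

lemma measurable_Fz : Measurable (Fz (n := n)) :=
  Measurable.indicator (by fun_prop) measurableSet_MM

lemma norm_sum_le' {k : ℕ} {U : Fin k → E n} (hU : ∀ i, ‖U i‖ = 1) : ‖∑ i, U i‖ ≤ k := by
  refine (_root_.norm_sum_le _ _).trans ?_
  simp [hU]

lemma Unif.int_Fz (h : Unif n τ) : Integrable (Fz (n := n)) ((Pn n τ).prod τ) := by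
  have := h.prob
  refine Integrable.of_bound measurable_Fz.aestronglyMeasurable ((n : ℝ) ^ 2) ?_
  have h1 : ∀ᵐ z ∂((Pn n τ).prod τ), ∀ i, ‖z.1 i‖ = 1 :=
    Measure.quasiMeasurePreserving_fst.ae (h.ae_sph n)
  filter_upwards [h1] with z hz
  classical
  unfold Fz
  rw [Set.indicator_apply]
  split_ifs
  · rw [Real.norm_eq_abs, abs_of_nonneg (by positivity)]
    exact pow_le_pow_left₀ (norm_nonneg _) (norm_sum_le' hz) 2
  · simp

/-- Integral of the squared norm of the sum under the biased measure. -/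
theorem Unif.bias (h : Unif n τ) :
    ∫ U, (2 : ℝ) ^ n * al τ U * ‖∑ i, U i‖ ^ 2 ∂(Pn n τ) =
      ∫ ξ, ∫ U, ‖∑ i, sg (co U ξ i) • U i‖ ^ 2 ∂(Pn n τ) ∂τ := by
  classical
  have := h.prob
  have h1 : ∫ z, Fz z ∂((Pn n τ).prod τ) = ∫ U, al τ U * ‖∑ i, U i‖ ^ 2 ∂(Pn n τ) := by
    rw [integral_prod _ h.int_Fz]
    congr 1
    funext U
    have : ∀ ξ, Fz (U, ξ) = (Prod.mk U ⁻¹' MM n).indicator (fun _ => ‖∑ i, U i‖ ^ 2) ξ := by
      intro ξ
      rfl
    simp only [this]
    rw [integral_indicator (measurable_prodMk_left measurableSet_MM), setIntegral_const,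
      smul_eq_mul]
    rfl
  have h2 : ∀ e : Fin n → Bool, ∫ z, Fz z ∂((Pn n τ).prod τ) =
      ∫ z, Fz ((fun i => sb (e i) • z.1 i), z.2) ∂((Pn n τ).prod τ) := by
    intro e
    have hmp := (h.mp_flip e).prod (MeasurePreserving.id τ)
    have := integral_map (μ := (Pn n τ).prod τ) hmp.measurable.aemeasurable
      (f := Fz (n := n)) measurable_Fz.aestronglyMeasurable
    rw [hmp.map_eq] at this
    exact this
  have hi : ∀ e : Fin n → Bool, Integrable (fun z : (Fin n → E n) × E n =>
      Fz ((fun i => sb (e i) • z.1 i), z.2)) ((Pn n τ).prod τ) := by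
    intro e
    have hmp := (h.mp_flip e).prod (MeasurePreserving.id τ)
    exact hmp.integrable_comp_of_integrable h.int_Fz
  have h3 : (2 : ℝ) ^ n * ∫ z, Fz z ∂((Pn n τ).prod τ) =
      ∫ z, ∑ e : Fin n → Bool, Fz ((fun i => sb (e i) • z.1 i), z.2) ∂((Pn n τ).prod τ) := by
    rw [integral_finsetSum _ fun e _ => hi e, ← Finset.sum_congr rfl fun e _ => h2 e,
      Finset.sum_const]
    simp
  have hae : ∀ᵐ z ∂((Pn n τ).prod τ), ∑ e : Fin n → Bool, Fz ((fun i => sb (e i) • z.1 i), z.2) =
      ‖∑ i, sg (co z.1 z.2 i) • z.1 i‖ ^ 2 := by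
    have h4 : ∀ᵐ z ∂((Pn n τ).prod τ), ∀ i, D n (Function.update z.1 i z.2) ≠ 0 :=
      ae_all_iff.2 fun i => h.ae_D_update i
    have h5 : ∀ᵐ z ∂((Pn n τ).prod τ), D n z.1 ≠ 0 := Measure.quasiMeasurePreserving_fst.ae h.ae_D
    filter_upwards [h4, h5] with z hz4 hz5
    have h6 : ∀ e : Fin n → Bool, Fz ((fun i => sb (e i) • z.1 i), z.2) =
        if ∀ i, 0 ≤ sb (e i) * co z.1 z.2 i then ‖∑ i, sb (e i) • z.1 i‖ ^ 2 else 0 := by
      intro e
      unfold Fz
      rw [Set.indicator_apply]
      refine if_congr ?_ rfl rfl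
      change (∀ i, _) ↔ _
      refine forall_congr' fun i => ?_
      simp only []
      rw [co_smul z.1 z.2 (fun j => sb (e j)) (fun j => sb_sq _) i]
    simp only [h6]
    rw [sum_signs (a := fun i => co z.1 z.2 i) (fun i => mul_ne_zero (hz4 i) hz5)
      (fun e => ‖∑ i, sb (e i) • z.1 i‖ ^ 2)]
    simp only [sb_decide]
  have h7 : (fun U : Fin n → E n => (2 : ℝ) ^ n * al τ U * ‖∑ i, U i‖ ^ 2) =
      fun U => (2 : ℝ) ^ n * (al τ U * ‖∑ i, U i‖ ^ 2) := by funext U; ring
  rw [h7, integral_const_mul, ← h1, h3, integral_congr_ae hae]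
  rw [integral_prod_symm]
  have hi2 : Integrable (fun z : (Fin n → E n) × E n => ∑ e : Fin n → Bool,
      Fz ((fun i => sb (e i) • z.1 i), z.2)) ((Pn n τ).prod τ) :=
    integrable_finsetSum _ fun e _ => hi e
  exact hi2.congr hae

end Pool.Agent.Q215.Cone
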