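import Pool.Agent.Q215.Cone.Pair

open MeasureTheory Filter Topology Finset

namespace Pool.Agent.Q215.Cone

variable {n : ℕ} {τ : Measure (E n)}

lemma Unif.int_inner_zero (h : Unif n τ) (b : E n) : ∫ x, inner ℝ b x ∂τ = 0 := by
  have h1 := h.integral_isom (LinearIsometryEquiv.neg ℝ) (fun x => inner ℝ b x)
  simp only [LinearIsometryEquiv.coe_neg, inner_neg_right] at h1
  rw [integral_neg] at h1
  linarith

lemma Unif.int_inner_sq (h : Unif n τ) (hn : 0 < n) (b : E n) :
    ∫ x, (inner ℝ b x) ^ 2 ∂τ = ‖b‖ ^ 2 / n := by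
  by_cases hb : b = 0
  · simp [hb]
  have hbn : 0 < ‖b‖ := norm_pos_iff.2 hb
  set v : E n := ‖b‖⁻¹ • b with hv
  have hv1 : ‖v‖ = 1 := by rw [hv, norm_smul, norm_inv, norm_norm, inv_mul_cancel₀ hbn.ne']
  have h1 : ∀ x : E n, (inner ℝ b x) ^ 2 = ‖b‖ ^ 2 * (inner ℝ v x) ^ 2 := by
    intro x
    rw [hv, real_inner_smul_left]
    field_simp
  simp only [h1]
  rw [integral_const_mul, h.mom2 hn hv1]
  ring

/-- Adding a vector preserves the measures. -/
lemma mp_cons [IsProbabilityMeasure τ] (k : ℕ) :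
    MeasurePreserving (fun z : E n × (Fin k → E n) => (Fin.cons z.1 z.2 : Fin (k + 1) → E n))
      (τ.prod (Pn k τ)) (Pn (k + 1) τ) := by
  have hmp := (measurePreserving_piFinSuccAbove (fun _ : Fin (k + 1) => τ) 0).symm
  have : (fun z : E n × (Fin k → E n) => (Fin.cons z.1 z.2 : Fin (k + 1) → E n)) =
      (MeasurableEquiv.piFinSuccAbove (fun _ : Fin (k + 1) => E n) 0).symm := by
    funext z
    funext j
    refine Fin.cases ?_ (fun j => ?_) j <;> simp [MeasurableEquiv.piFinSuccAbove]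
  rw [this]
  exact hmp

lemma int_cons [IsProbabilityMeasure τ] (k : ℕ) {g : (Fin (k + 1) → E n) → ℝ}
    (hgm : Measurable g) (hg : Integrable g (Pn (k + 1) τ)) :
    ∫ U, g U ∂(Pn (k + 1) τ) = ∫ U, ∫ x, g (Fin.cons x U) ∂τ ∂(Pn k τ) := by
  have hmp := mp_cons (τ := τ) k
  have h1 := integral_map (μ := τ.prod (Pn k τ)) hmp.measurable.aemeasurable (f := g)
    (by rw [hmp.map_eq]; exact hgm.aestronglyMeasurable)
  rw [hmp.map_eq] at h1
  rw [h1, integral_prod_symm]
  exact hmp.integrable_comp_of_integrable hg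

lemma Unif.int_sum_sq (h : Unif n τ) (k : ℕ) (a : ℝ) (m : ℕ) :
    Integrable (fun U : Fin k → E n => (‖∑ i, U i‖ ^ 2 - a) ^ m) (Pn k τ) := by
  have := h.prob
  refine Integrable.of_bound (by fun_prop) (((k : ℝ) ^ 2 + |a|) ^ m) ?_
  filter_upwards [h.ae_sph k] with U hU
  rw [Real.norm_eq_abs, abs_pow]
  refine pow_le_pow_left₀ (abs_nonneg _) ((abs_sub _ _).trans ?_) m
  rw [abs_of_nonneg (by positivity)]
  have := pow_le_pow_left₀ (norm_nonneg _) (norm_sum_le' hU) 2
  linarith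

lemma Unif.mean (h : Unif n τ) (k : ℕ) : ∫ U, ‖∑ i, U i‖ ^ 2 ∂(Pn k τ) = k := by
  have := h.prob
  induction k with
  | zero => simp
  | succ k ih =>
    have hi := h.int_sum_sq (k + 1) 0 1
    simp only [sub_zero, pow_one] at hi
    rw [int_cons k (by fun_prop) hi]
    have h1 : ∀ U : Fin k → E n, ∫ x, ‖∑ i, (Fin.cons x U : Fin (k + 1) → E n) i‖ ^ 2 ∂τ =
        1 + ‖∑ i, U i‖ ^ 2 := by
      intro U
      have h2 : ∀ᵐ x ∂τ, ‖∑ i, (Fin.cons x U : Fin (k + 1) → E n) i‖ ^ 2 =
          (1 + ‖∑ i, U i‖ ^ 2) + 2 * inner ℝ (∑ i, U i) x := by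
        filter_upwards [h.sph] with x hx
        rw [Fin.sum_univ_succ]
        simp only [Fin.cons_zero, Fin.cons_succ]
        rw [norm_add_sq_real, hx, real_inner_comm]; ring
      rw [integral_congr_ae h2, integral_add (integrable_const _) ((h.int_coord _).const_mul _),
        integral_const_mul, h.int_inner_zero]
      simp
    simp only [h1]
    have hi' := h.int_sum_sq k 0 1
    simp only [sub_zero, pow_one] at hi'
    rw [integral_add (integrable_const _) hi', ih]
    simp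
    ring

lemma Unif.variance (h : Unif n τ) (hn : 0 < n) (k : ℕ) :
    ∫ U, (‖∑ i, U i‖ ^ 2 - k) ^ 2 ∂(Pn k τ) = 2 * k * (k - 1) / n := by
  have := h.prob
  induction k with
  | zero => simp
  | succ k ih =>
    rw [int_cons k (by fun_prop) (h.int_sum_sq (k + 1) _ 2)]
    have h1 : ∀ U : Fin k → E n,
        ∫ x, (‖∑ i, (Fin.cons x U : Fin (k + 1) → E n) i‖ ^ 2 - ((k + 1 : ℕ) : ℝ)) ^ 2 ∂τ =
        4 / n * ‖∑ i, U i‖ ^ 2 + (‖∑ i, U i‖ ^ 2 - k) ^ 2 := by
      intro U
      set b := ∑ i, U i with hb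
      have h2 : ∀ᵐ x ∂τ,
          (‖∑ i, (Fin.cons x U : Fin (k + 1) → E n) i‖ ^ 2 - ((k + 1 : ℕ) : ℝ)) ^ 2 =
          4 * (inner ℝ b x) ^ 2 + ((4 * (‖b‖ ^ 2 - k)) * inner ℝ b x + (‖b‖ ^ 2 - k) ^ 2) := by
        filter_upwards [h.sph] with x hx
        rw [Fin.sum_univ_succ]
        simp only [Fin.cons_zero, Fin.cons_succ]
        rw [← hb, norm_add_sq_real, hx, real_inner_comm]
        push_cast
        ring
      have i1 : Integrable (fun x : E n => 4 * (inner ℝ b x) ^ 2) τ := by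
        refine (h.int_of_bound (by fun_prop) (‖b‖ ^ 2) fun x hx => ?_).const_mul _
        rw [Real.norm_eq_abs, abs_pow]
        refine pow_le_pow_left₀ (abs_nonneg _) ?_ 2
        have := abs_real_inner_le_norm b x
        rwa [hx, mul_one] at this
      have i2 : Integrable (fun x : E n => (4 * (‖b‖ ^ 2 - k)) * inner ℝ b x) τ :=
        (h.int_coord b).const_mul _
      have i3 : Integrable (fun _ : E n => (‖b‖ ^ 2 - (k : ℝ)) ^ 2) τ := integrable_const _
      have i23 : Integrable (fun x : E n => (4 * (‖b‖ ^ 2 - k)) * inner ℝ b x +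
        (‖b‖ ^ 2 - (k : ℝ)) ^ 2) τ := i2.add i3
      rw [integral_congr_ae h2, integral_add i1 i23, integral_add i2 i3, integral_const_mul,
        integral_const_mul, h.int_inner_zero, h.int_inner_sq hn]
      simp
      ring
    simp only [h1]
    have j1 := h.int_sum_sq k 0 1
    simp only [sub_zero, pow_one] at j1
    rw [integral_add (j1.const_mul _) (h.int_sum_sq k _ 2), integral_const_mul, h.mean, ih]
    have hn' : (0 : ℝ) < n := by exact_mod_cast hn
    field_simp
    push_cast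
    ring

/-- The truncation `x ↦ min (max x 0) K` as a bounded continuous function. -/
noncomputable def trunc (K : ℝ) (hK : 0 ≤ K) : BoundedContinuousFunction ℝ ℝ :=
  BoundedContinuousFunction.ofNormedAddCommGroup (fun x => min (max x 0) K) (by fun_prop) K
    (fun x => by
      rw [Real.norm_eq_abs, abs_of_nonneg (le_min (le_max_right _ _) hK)]
      exact min_le_right _ _)

lemma trunc_apply (K : ℝ) (hK : 0 ≤ K) (x : ℝ) : trunc K hK x = min (max x 0) K := rfl

/-- The bound on truncated means of `2^n α`. -/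
theorem Unif.trunc_le (h : Unif n τ) (hn : 0 < n) (K : ℝ) (hK : 0 ≤ K) :
    ∫ U, trunc K hK ((2 : ℝ) ^ n * al τ U) ∂(Pn n τ) ≤
      100 / 99 * (1 - (1 - 1 / (n : ℝ)) * (25 / 81)) + 20000 * K / n := by
  have := h.prob
  have hn' : (0 : ℝ) < n := by exact_mod_cast hn
  have hpt : ∀ U : Fin n → E n, trunc K hK ((2 : ℝ) ^ n * al τ U) ≤
      100 / (99 * n) * ((2 : ℝ) ^ n * al τ U * ‖∑ i, U i‖ ^ 2) +
        10000 * K / n ^ 2 * (‖∑ i, U i‖ ^ 2 - n) ^ 2 := by
    intro U
    rw [trunc_apply]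
    have hY : 0 ≤ (2 : ℝ) ^ n * al τ U := mul_nonneg (by positivity) (al_nonneg U)
    rw [max_eq_left hY]
    set T := ‖∑ i, U i‖ ^ 2 with hT
    have hT0 : 0 ≤ T := by positivity
    by_cases hc : 99 / 100 * (n : ℝ) ≤ T
    · have h1 : (2 : ℝ) ^ n * al τ U ≤ 100 / (99 * n) * ((2 : ℝ) ^ n * al τ U * T) := by
        have h2 : 1 ≤ 100 / (99 * n) * T := by
          rw [div_mul_eq_mul_div, le_div_iff₀ (by positivity)]; linarith
        nlinarith [mul_le_mul_of_nonneg_left h2 hY]
      have h3 : 0 ≤ 10000 * K / n ^ 2 * (T - n) ^ 2 := by positivity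
      exact (min_le_left _ _).trans (by linarith)
    · push Not at hc
      have h1 : K ≤ 10000 * K / n ^ 2 * (T - n) ^ 2 := by
        have h2 : (n : ℝ) / 100 ≤ n - T := by linarith
        have h3 : ((n : ℝ) / 100) ^ 2 ≤ (n - T) ^ 2 := pow_le_pow_left₀ (by positivity) h2 2
        rw [div_mul_eq_mul_div, le_div_iff₀ (by positivity)]
        have h4 : (T - n) ^ 2 = (n - T) ^ 2 := by ring
        rw [h4]
        nlinarith [mul_le_mul_of_nonneg_left h3 hK]
      have h3 : 0 ≤ 100 / (99 * n) * ((2 : ℝ) ^ n * al τ U * T) := by positivity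
      exact (min_le_right _ _).trans (by linarith)
  have i0 : Integrable (fun U : Fin n → E n => (2 : ℝ) ^ n * al τ U * ‖∑ i, U i‖ ^ 2)
      (Pn n τ) := by
    refine Integrable.of_bound (((measurable_al (τ := τ)).const_mul _).mul
      (by fun_prop)).aestronglyMeasurable ((2 : ℝ) ^ n * (n : ℝ) ^ 2) ?_
    filter_upwards [h.ae_sph n] with U hU
    have h1 := al_nonneg (τ := τ) U
    have h2 := al_le_one (τ := τ) U
    rw [Real.norm_eq_abs, abs_of_nonneg (by positivity)]
    have h3 := pow_le_pow_left₀ (norm_nonneg _) (norm_sum_le' hU) 2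
    calc (2 : ℝ) ^ n * al τ U * ‖∑ i, U i‖ ^ 2 ≤ (2 : ℝ) ^ n * 1 * (n : ℝ) ^ 2 := by gcongr
      _ = _ := by ring
  have i1 := i0.const_mul (100 / (99 * n))
  have i2 := (h.int_sum_sq n n 2).const_mul (10000 * K / n ^ 2)
  have it : Integrable (fun U : Fin n → E n => trunc K hK ((2 : ℝ) ^ n * al τ U)) (Pn n τ) := by
    refine Integrable.of_bound (((trunc K hK).continuous.measurable.comp
      ((measurable_al (τ := τ)).const_mul _))).aestronglyMeasurable ‖trunc K hK‖ ?_
    exact Filter.Eventually.of_forall fun U => (trunc K hK).norm_coe_le_norm _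
  have hmain := integral_mono it (i1.add i2) hpt
  simp only [Pi.add_apply] at hmain
  rw [integral_add i1 i2, integral_const_mul, integral_const_mul, h.variance hn] at hmain
  refine hmain.trans ?_
  have hb := mul_le_mul_of_nonneg_left (h.bias_le hn)
    (by positivity : (0 : ℝ) ≤ 100 / (99 * n))
  have e1 : 100 / (99 * (n : ℝ)) * (n - (n - 1) * (25 / 81)) =
      100 / 99 * (1 - (1 - 1 / (n : ℝ)) * (25 / 81)) := by
    field_simp
  have e2 : 10000 * K / (n : ℝ) ^ 2 * (2 * n * (n - 1) / n) ≤ 20000 * K / n := by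
    have : 10000 * K / (n : ℝ) ^ 2 * (2 * n * (n - 1) / n) = 20000 * K / n * (1 - 1 / n) := by
      field_simp; ring
    rw [this]
    have h1 : (1 - 1 / (n : ℝ)) ≤ 1 := by
      have : 0 ≤ 1 / (n : ℝ) := by positivity
      linarith
    have h2 : 0 ≤ 20000 * K / (n : ℝ) := by positivity
    nlinarith
  rw [e1] at hb
  linarith

end Pool.Agent.Q215.Cone
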