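import Pool.Agent.Q215.Cone.GSym
import Pool.Agent.Q215.Cone.Basic

open MeasureTheory Filter Topology Finset
open scoped ENNReal

namespace Pool.Agent.Q215.Cone

/-- Adding a coordinate preserves the product measures. -/
lemma mp_cons_gen {α : Type*} [MeasurableSpace α] (τ : Measure α) [SigmaFinite τ] (k : ℕ) :
    MeasurePreserving (fun z : α × (Fin k → α) => (Fin.cons z.1 z.2 : Fin (k + 1) → α))
      (τ.prod (Measure.pi fun _ => τ)) (Measure.pi fun _ => τ) := by
  have hmp := (measurePreserving_piFinSuccAbove (fun _ : Fin (k + 1) => τ) 0).symm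
  have : (fun z : α × (Fin k → α) => (Fin.cons z.1 z.2 : Fin (k + 1) → α)) =
      (MeasurableEquiv.piFinSuccAbove (fun _ : Fin (k + 1) => α) 0).symm := by
    funext z
    funext j
    refine Fin.cases ?_ (fun j => ?_) j <;> simp [MeasurableEquiv.piFinSuccAbove]
  rw [this]
  exact hmp

/-- The standard Gaussian density on `ℝ^n`. -/
noncomputable def dn (n : ℕ) (x : Fin n → ℝ) : ℝ≥0∞ :=
  ENNReal.ofReal ((√(2 * Real.pi))⁻¹ ^ n * Real.exp (-(∑ i, x i ^ 2) / 2))

lemma measurable_dn (n : ℕ) : Measurable (dn n) := by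
  unfold dn
  fun_prop

lemma ga_dn (n : ℕ) : ga n = (volume : Measure (Fin n → ℝ)).withDensity (dn n) := by
  rw [ga_eq]
  congr 1
  funext x
  have h := den_eq (k := 1) (d := n) (fun _ => x)
  unfold den sq at h
  simp only [Fin.prod_univ_one, Fin.sum_univ_one, one_mul] at h
  rw [h]
  rfl

lemma vol_orth {n : ℕ} (O : Matrix (Fin n) (Fin n) ℝ) (hO : O.transpose * O = 1) :
    MeasurePreserving (fun x : Fin n → ℝ => Matrix.vecMul x O) volume volume := by
  have hdet : O.det * O.det = 1 := by
    have := congrArg Matrix.det hO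
    rwa [Matrix.det_mul, Matrix.det_transpose, Matrix.det_one] at this
  have habs : |O.det| = 1 := by
    have h1 : |O.det| * |O.det| = 1 := by rw [← abs_mul, hdet, abs_one]
    have h2 : 0 ≤ |O.det| := abs_nonneg _
    nlinarith
  have hG' : (O.transpose).det ≠ 0 := by
    rw [Matrix.det_transpose]
    intro h
    rw [h, abs_zero] at habs
    exact zero_ne_one habs
  have h1 := Real.map_matrix_volume_pi_eq_smul_volume_pi hG'
  have h2 : ⇑(Matrix.toLin' O.transpose) = fun x : Fin n → ℝ => Matrix.vecMul x O := by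
    funext x
    rw [Matrix.toLin'_apply, Matrix.mulVec_transpose]
  rw [h2, Matrix.det_transpose, abs_inv, habs, inv_one, ENNReal.ofReal_one, one_smul] at h1
  have hm1 : Measurable (fun x : Fin n → ℝ => Matrix.vecMul x O) := by
    have : Continuous (fun x : Fin n → ℝ => Matrix.vecMul x O) := by fun_prop
    exact this.measurable
  exact ⟨hm1, h1⟩

lemma sumsq_orth {n : ℕ} (O : Matrix (Fin n) (Fin n) ℝ) (hO : O.transpose * O = 1)
    (x : Fin n → ℝ) : ∑ i, (Matrix.vecMul x O) i ^ 2 = ∑ i, x i ^ 2 := by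
  have hO' : O * O.transpose = 1 := mul_eq_one_comm.1 hO
  have e1 : ∀ v : Fin n → ℝ, ∑ i, v i ^ 2 = v ⬝ᵥ v := by
    intro v
    unfold dotProduct
    refine Finset.sum_congr rfl fun i _ => ?_
    ring
  rw [e1, e1]
  have : (Matrix.vecMul x O) ⬝ᵥ (Matrix.vecMul x O) =
      (Matrix.vecMul x O) ⬝ᵥ (Matrix.mulVec O.transpose x) := by
    rw [Matrix.mulVec_transpose]
  rw [this, Matrix.dotProduct_mulVec, Matrix.vecMul_vecMul, hO', Matrix.vecMul_one]

/-- Orthogonal invariance of the standard Gaussian measure. -/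
theorem ga_orth {n : ℕ} (O : Matrix (Fin n) (Fin n) ℝ) (hO : O.transpose * O = 1) :
    MeasurePreserving (fun x : Fin n → ℝ => Matrix.vecMul x O) (ga n) (ga n) := by
  have h1 := vol_orth O hO
  refine ⟨h1.measurable, ?_⟩
  ext S hS
  rw [Measure.map_apply h1.measurable hS, ga_dn, withDensity_apply _ (h1.measurable hS),
    withDensity_apply _ hS]
  rw [← h1.setLIntegral_comp_preimage hS (measurable_dn n)]
  refine lintegral_congr fun x => ?_
  unfold dn
  rw [sumsq_orth O hO]

/-- Existence of an orthogonal matrix with a given first column orthogonal to given rows. -/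
lemma exists_orth {m : ℕ} (H : Mt m (m + 1)) : ∃ O : Matrix (Fin (m + 1)) (Fin (m + 1)) ℝ,
    O.transpose * O = 1 ∧ ∀ i, Matrix.vecMul (H i) O 0 = 0 := by
  let h : Fin m → E (m + 1) := fun i => (WithLp.toLp 2 (H i) : E (m + 1))
  have hK : Submodule.span ℝ (Set.range h) ≠ ⊤ := by
    intro htop
    have h1 : Module.finrank ℝ (Submodule.span ℝ (Set.range h)) ≤ m := by
      have := finrank_range_le_card (R := ℝ) h
      rwa [Fintype.card_fin] at this
    rw [htop, finrank_top, finrank_euclideanSpace, Fintype.card_fin] at h1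
    omega
  have hK2 : (Submodule.span ℝ (Set.range h))ᗮ ≠ ⊥ :=
    fun hh => hK ((Submodule.orthogonal_eq_bot_iff).1 hh)
  obtain ⟨w, hw, hw0⟩ := Submodule.exists_mem_ne_zero_of_ne_bot hK2
  let v : E (m + 1) := (‖w‖⁻¹ : ℝ) • w
  have hv1 : ‖v‖ = 1 := by
    change ‖(‖w‖⁻¹ : ℝ) • w‖ = 1
    rw [norm_smul, norm_inv, norm_norm, inv_mul_cancel₀ (norm_ne_zero_iff.2 hw0)]
  have hvo : ∀ i, inner ℝ (h i) v = 0 := by
    intro i
    change inner ℝ (h i) ((‖w‖⁻¹ : ℝ) • w) = 0
    rw [inner_smul_right, (Submodule.mem_orthogonal _ w).1 hw (h i)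
      (Submodule.subset_span ⟨i, rfl⟩), mul_zero]
  have hon : Orthonormal ℝ (({0} : Set (Fin (m + 1))).restrict fun _ => v) := by
    constructor
    · intro i
      exact hv1
    · intro i j hij
      exact absurd (Subsingleton.elim i j) hij
  obtain ⟨b, hb⟩ := hon.exists_orthonormalBasis_extension_of_card_eq (by simp)
  have hb0 : b 0 = v := hb 0 rfl
  refine ⟨Matrix.of fun i j => (b j) i, ?_, ?_⟩
  · ext i j
    have h2 := (orthonormal_iff_ite.1 b.orthonormal) i j
    rw [Matrix.mul_apply, Matrix.one_apply]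
    simp only [Matrix.transpose_apply, Matrix.of_apply]
    rw [← h2, EuclideanSpace.inner_eq_star_dotProduct]
    simp only [star_trivial]
    unfold dotProduct
    refine Finset.sum_congr rfl fun l _ => ?_
    ring
  · intro i
    have h3 := hvo i
    rw [EuclideanSpace.inner_eq_star_dotProduct] at h3
    simp only [star_trivial] at h3
    unfold Matrix.vecMul dotProduct
    unfold dotProduct at h3
    rw [← h3]
    refine Finset.sum_congr rfl fun l _ => ?_
    change H i l * (b 0) l = v l * H i l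
    rw [hb0]
    ring

/-- The solid angle of the cone spanned by the rows of `G` (for the Gaussian measure). -/
noncomputable def ang {n : ℕ} (G : Mt n n) : ℝ≥0∞ :=
  ga n {x | ∀ i, 0 ≤ Matrix.vecMul x (mat G)⁻¹ i}

lemma measurable_ang {n : ℕ} : Measurable (ang : Mt n n → ℝ≥0∞) := by
  have h1 : MeasurableSet {z : Mt n n × (Fin n → ℝ) | ∀ i, 0 ≤ Matrix.vecMul z.2 (mat z.1)⁻¹ i} := by
    have h2 : Measurable (fun z : Mt n n × (Fin n → ℝ) => Matrix.vecMul z.2 (mat z.1)⁻¹) := by
      have h3 : Measurable (fun z : Mt n n × (Fin n → ℝ) =>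
          (z.1, (fun _ => z.2 : Mt 1 n))) :=
        measurable_fst.prodMk (measurable_pi_iff.2 fun _ => measurable_snd)
      have h4 := (measurable_sol (k := 1) (d := n)).comp h3
      exact (measurable_pi_apply 0).comp h4
    have : {z : Mt n n × (Fin n → ℝ) | ∀ i, 0 ≤ Matrix.vecMul z.2 (mat z.1)⁻¹ i} =
        ⋂ i, {z | 0 ≤ Matrix.vecMul z.2 (mat z.1)⁻¹ i} := by
      ext z; simp
    rw [this]
    exact MeasurableSet.iInter fun i =>
      measurableSet_le measurable_const ((measurable_pi_apply i).comp h2)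
  exact measurable_measure_prodMk_left h1

lemma PP_ang (d k : ℕ) : PP d k = ∫⁻ G, ang G ^ k ∂(gm d d) := by
  unfold PP
  refine lintegral_congr fun G => ?_
  have h1 : {X : Mt k d | ∀ j i, 0 ≤ sol G X j i} =
      Set.univ.pi fun _ => {x | ∀ i, 0 ≤ Matrix.vecMul x (mat G)⁻¹ i} := by
    ext X
    simp only [Set.mem_pi, Set.mem_univ, true_implies, Set.mem_setOf_eq]
    rfl
  rw [h1]
  unfold gm
  rw [Measure.pi_pi]
  simp only [Finset.prod_const, Finset.card_univ, Fintype.card_fin]
  rfl

lemma ang_orth {n : ℕ} (O : Matrix (Fin n) (Fin n) ℝ) (hO : O.transpose * O = 1) (G : Mt n n) :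
    ang (fun j => Matrix.vecMul (G j) O) = ang G := by
  have hO' : O * O.transpose = 1 := mul_eq_one_comm.1 hO
  have hOt : (O.transpose).transpose * O.transpose = 1 := by
    rw [Matrix.transpose_transpose]; exact hO'
  have hinv : O⁻¹ = O.transpose := Matrix.inv_eq_left_inv hO
  have h1 : mat (fun j => Matrix.vecMul (G j) O) = mat G * O := by
    funext i j
    rfl
  unfold ang
  rw [h1, Matrix.mul_inv_rev, hinv]
  have hmp := ga_orth O.transpose hOt
  have hset : MeasurableSet {x | ∀ i, 0 ≤ Matrix.vecMul x (mat G)⁻¹ i} := by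
    have : {x | ∀ i, 0 ≤ Matrix.vecMul x (mat G)⁻¹ i} =
        ⋂ i, {x : Fin n → ℝ | 0 ≤ Matrix.vecMul x (mat G)⁻¹ i} := by
      ext z; simp
    rw [this]
    refine MeasurableSet.iInter fun i => measurableSet_le measurable_const ?_
    have : Continuous (fun x : Fin n → ℝ => Matrix.vecMul x (mat G)⁻¹ i) := by
      unfold Matrix.vecMul dotProduct
      fun_prop
    exact this.measurable
  rw [← hmp.measure_preimage hset.nullMeasurableSet]
  congr 1
  ext x
  simp only [Set.mem_preimage, Set.mem_setOf_eq, Matrix.vecMul_vecMul]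

end Pool.Agent.Q215.Cone
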