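import Pool.Agent.Q215.Cone.GFou

open MeasureTheory Filter Topology Finset
open scoped ENNReal

namespace Pool.Agent.Q215.Cone

lemma measurable_cons_left {m : ℕ} (H : Mt m (m + 1)) :
    Measurable (fun g : Fin (m + 1) → ℝ => (Fin.cons g H : Mt (m + 1) (m + 1))) := by
  refine measurable_pi_iff.2 fun j => ?_
  refine Fin.cases ?_ (fun j => ?_) j
  · exact measurable_id
  · exact measurable_const

lemma ang_le_one {n : ℕ} (G : Mt n n) : (ang G).toReal ≤ 1 :=
  ENNReal.toReal_le_of_le_ofReal zero_le_one (by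
    rw [ENNReal.ofReal_one]
    exact prob_le_one)

/-- Reduction to reduced coordinates. -/
theorem perH {m : ℕ} (H : Mt m (m + 1)) (hH : LinearIndependent ℝ H) :
    ∃ B : Matrix (Fin m) (Fin m) ℝ, B.det ≠ 0 ∧ ∀ n : ℕ,
      ∫ g, (2 * (ang (Fin.cons g H : Mt (m + 1) (m + 1))).toReal) ^ n ∂(ga (m + 1)) =
        ∫ z, (2 * (AA B z.1 z.2).toReal) ^ n ∂(g1.prod (ga m)) := by
  obtain ⟨O, hO, hO0⟩ := exists_orth H
  have hO' : O * O.transpose = 1 := mul_eq_one_comm.1 hO
  set H' : Mt m (m + 1) := fun i => Matrix.vecMul (H i) O with hH'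
  set B : Matrix (Fin m) (Fin m) ℝ := mat (fun i j => H' i j.succ : Mt m m) with hB
  have hdet : B.det ≠ 0 := by
    have hli : LinearIndependent ℝ B.row := by
      rw [Fintype.linearIndependent_iff]
      intro c hc
      have h1 : Matrix.vecMul (∑ i, c i • H i) O = 0 := by
        have h2 : Matrix.vecMul (∑ i, c i • H i) O = ∑ i, c i • H' i := by
          rw [Matrix.sum_vecMul]
          refine Finset.sum_congr rfl fun i _ => ?_
          rw [Matrix.smul_vecMul]
        rw [h2]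
        funext j
        rw [Finset.sum_apply]
        refine Fin.cases ?_ (fun j => ?_) j
        · refine Finset.sum_eq_zero fun i _ => ?_
          rw [Pi.smul_apply, show H' i 0 = 0 from hO0 i, smul_zero]
        · have h3 := congrFun hc j
          rw [Finset.sum_apply] at h3
          exact h3
      have h2 : ∑ i, c i • H i = 0 := by
        have h3 := congrArg (fun v => Matrix.vecMul v O.transpose) h1
        simp only [Matrix.vecMul_vecMul, hO', Matrix.vecMul_one, Matrix.zero_vecMul] at h3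
        exact h3
      exact (Fintype.linearIndependent_iff.1 hH) c h2
    have := (Matrix.linearIndependent_rows_iff_isUnit (A := B)).1 hli
    rw [Matrix.isUnit_iff_isUnit_det] at this
    exact this.ne_zero
  refine ⟨B, hdet, fun n => ?_⟩
  have hmF : Measurable (fun g : Fin (m + 1) → ℝ =>
      (2 * (ang (Fin.cons g H' : Mt (m + 1) (m + 1))).toReal) ^ n) :=
    (((measurable_ang.comp (measurable_cons_left H')).ennreal_toReal).const_mul 2).pow_const n
  have e1 : ∀ g : Fin (m + 1) → ℝ, (2 * (ang (Fin.cons g H : Mt (m + 1) (m + 1))).toReal) ^ n =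
      (2 * (ang (Fin.cons (Matrix.vecMul g O) H' : Mt (m + 1) (m + 1))).toReal) ^ n := by
    intro g
    have h1 := ang_orth O hO (Fin.cons g H : Mt (m + 1) (m + 1))
    have h2 : (fun j => Matrix.vecMul ((Fin.cons g H : Mt (m + 1) (m + 1)) j) O) =
        (Fin.cons (Matrix.vecMul g O) H' : Mt (m + 1) (m + 1)) := by
      funext j
      refine Fin.cases ?_ (fun j => ?_) j
      · rfl
      · rfl
    rw [h2] at h1
    rw [h1]
  simp_rw [e1]
  have hmp := ga_orth O hO
  have h2 := integral_map (μ := ga (m + 1)) hmp.measurable.aemeasurable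
    (f := fun g : Fin (m + 1) → ℝ => (2 * (ang (Fin.cons g H' : Mt (m + 1) (m + 1))).toReal) ^ n)
    hmF.aestronglyMeasurable
  rw [hmp.map_eq] at h2
  rw [← h2]
  have hmc := ga_cons m
  have h3 := integral_map (μ := g1.prod (ga m)) hmc.measurable.aemeasurable
    (f := fun g : Fin (m + 1) → ℝ => (2 * (ang (Fin.cons g H' : Mt (m + 1) (m + 1))).toReal) ^ n)
    hmF.aestronglyMeasurable
  rw [hmc.map_eq] at h3
  rw [h3]
  have hne : ∀ᵐ z ∂(g1.prod (ga m)), z.1 ≠ 0 := by
    have h4 : ∀ᵐ s ∂g1, s ≠ 0 := by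
      have := g1_atoms
      rw [ae_iff]
      simp
    exact (Measure.quasiMeasurePreserving_fst (μ := g1) (ν := ga m)).ae h4
  refine integral_congr_ae ?_
  filter_upwards [hne] with z hz
  rw [ang_cons H' hO0 hdet z.1 hz z.2]

lemma ga_sub (n : ℕ) (K : Submodule ℝ (Fin n → ℝ)) (hK : K ≠ ⊤) : ga n (K : Set (Fin n → ℝ)) = 0 := by
  have h1 : ga n ≪ (volume : Measure (Fin n → ℝ)) := by
    rw [ga_dn]
    exact withDensity_absolutelyContinuous _ _
  exact h1 (Measure.addHaar_submodule volume K hK)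

/-- The law of all rows, splitting off the first one. -/
lemma gm_cons (m : ℕ) (f : Mt (m + 1) (m + 1) → ℝ) (hf : Measurable f)
    (hi : Integrable f (gm (m + 1) (m + 1))) :
    ∫ G, f G ∂(gm (m + 1) (m + 1)) =
      ∫ H : Mt m (m + 1), ∫ g, f (Fin.cons g H) ∂(ga (m + 1)) ∂(gm m (m + 1)) := by
  have hmp : MeasurePreserving
      (fun z : (Fin (m + 1) → ℝ) × Mt m (m + 1) => (Fin.cons z.1 z.2 : Mt (m + 1) (m + 1)))
      ((ga (m + 1)).prod (gm m (m + 1))) (gm (m + 1) (m + 1)) := mp_cons_gen (ga (m + 1)) m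
  have h1 := integral_map (μ := (ga (m + 1)).prod (gm m (m + 1))) hmp.measurable.aemeasurable
    (f := f) hf.aestronglyMeasurable
  rw [hmp.map_eq] at h1
  rw [h1]
  have h2 : Integrable (fun z : (Fin (m + 1) → ℝ) × Mt m (m + 1) =>
      f (Fin.cons z.1 z.2 : Mt (m + 1) (m + 1))) ((ga (m + 1)).prod (gm m (m + 1))) :=
    hmp.integrable_comp_of_integrable hi
  rw [integral_prod_symm _ h2]

/-- The rescaled moment. -/
noncomputable def Tn (k n : ℕ) : ℝ := n * ∫ G, (2 * (ang G).toReal) ^ n ∂(gm k k)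

/-- **Asymptotics of the high moments of the angle in fixed dimension.** -/
theorem tendsto_Tn (m : ℕ) (i0 : Fin m) :
    ∃ c : ℝ, 0 < c ∧ Tendsto (fun n : ℕ => Tn (m + 1) n) atTop (𝓝 c) := by
  have hex : ∀ H : Mt m (m + 1), ∃ L : ℝ, LinearIndependent ℝ H →
      0 < L ∧ Tendsto (fun n : ℕ => (n : ℝ) *
        ∫ g, (2 * (ang (Fin.cons g H : Mt (m + 1) (m + 1))).toReal) ^ n ∂(ga (m + 1))) atTop
        (𝓝 L) ∧ ∀ n : ℕ, 0 < n → (n : ℝ) *
        ∫ g, (2 * (ang (Fin.cons g H : Mt (m + 1) (m + 1))).toReal) ^ n ∂(ga (m + 1)) ≤ KK m := by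
    intro H
    by_cases hH : LinearIndependent ℝ H
    · obtain ⟨B, hB, hint⟩ := perH H hH
      refine ⟨LB B, fun _ => ⟨LB_pos hB i0, ?_, ?_⟩⟩
      · refine (tendsto_LB hB i0).congr' ?_
        filter_upwards [eventually_gt_atTop 0] with n hn
        rw [int_Gn hB i0 hn, hint n]
      · intro n hn
        rw [hint n, ← int_Gn hB i0 hn]
        exact int_Gn_le hB i0 hn
    · exact ⟨0, fun h => absurd h hH⟩
  choose L hL using hex
  have hLI : ∀ᵐ H ∂(gm m (m + 1)), LinearIndependent ℝ H :=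
    ae_li_gen (ga (m + 1)) (fun K hK => ga_sub (m + 1) K hK) m (by simp)
  have hmf : ∀ n : ℕ, Measurable (fun G : Mt (m + 1) (m + 1) => (2 * (ang G).toReal) ^ n) :=
    fun n => (measurable_ang.ennreal_toReal.const_mul 2).pow_const n
  have hif : ∀ n : ℕ, Integrable (fun G : Mt (m + 1) (m + 1) => (2 * (ang G).toReal) ^ n)
      (gm (m + 1) (m + 1)) := by
    intro n
    refine Integrable.of_bound (hmf n).aestronglyMeasurable (2 ^ n)
      (Filter.Eventually.of_forall fun G => ?_)
    rw [Real.norm_eq_abs, abs_of_nonneg (by positivity)]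
    refine pow_le_pow_left₀ (by positivity) ?_ n
    have := ang_le_one G
    linarith
  have hTn : ∀ n : ℕ, Tn (m + 1) n = ∫ H : Mt m (m + 1), (n : ℝ) *
      ∫ g, (2 * (ang (Fin.cons g H : Mt (m + 1) (m + 1))).toReal) ^ n ∂(ga (m + 1))
      ∂(gm m (m + 1)) := by
    intro n
    unfold Tn
    rw [gm_cons m _ (hmf n) (hif n), integral_const_mul]
  have hmeasH : ∀ n : ℕ, AEStronglyMeasurable (fun H : Mt m (m + 1) => (n : ℝ) *
      ∫ g, (2 * (ang (Fin.cons g H : Mt (m + 1) (m + 1))).toReal) ^ n ∂(ga (m + 1)))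
      (gm m (m + 1)) := by
    intro n
    have hmp : MeasurePreserving
      (fun z : (Fin (m + 1) → ℝ) × Mt m (m + 1) => (Fin.cons z.1 z.2 : Mt (m + 1) (m + 1)))
      ((ga (m + 1)).prod (gm m (m + 1))) (gm (m + 1) (m + 1)) := mp_cons_gen (ga (m + 1)) m
    have h1 : Measurable (fun z : Mt m (m + 1) × (Fin (m + 1) → ℝ) =>
        (2 * (ang (Fin.cons z.2 z.1 : Mt (m + 1) (m + 1))).toReal) ^ n) :=
      (hmf n).comp (hmp.measurable.comp measurable_swap)
    exact (h1.stronglyMeasurable.integral_prod_right'.aestronglyMeasurable).const_mul _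
  have hbound : ∀ᶠ n : ℕ in atTop, ∀ᵐ H ∂(gm m (m + 1)), ‖(n : ℝ) *
      ∫ g, (2 * (ang (Fin.cons g H : Mt (m + 1) (m + 1))).toReal) ^ n ∂(ga (m + 1))‖ ≤ KK m := by
    filter_upwards [eventually_gt_atTop 0] with n hn
    filter_upwards [hLI] with H hH
    have hnn : 0 ≤ (n : ℝ) *
        ∫ g, (2 * (ang (Fin.cons g H : Mt (m + 1) (m + 1))).toReal) ^ n ∂(ga (m + 1)) :=
      mul_nonneg (Nat.cast_nonneg n) (integral_nonneg fun g => by positivity)
    rw [Real.norm_eq_abs, abs_of_nonneg hnn]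
    exact (hL H hH).2.2 n hn
  have hlim : ∀ᵐ H ∂(gm m (m + 1)), Tendsto (fun n : ℕ => (n : ℝ) *
      ∫ g, (2 * (ang (Fin.cons g H : Mt (m + 1) (m + 1))).toReal) ^ n ∂(ga (m + 1))) atTop
      (𝓝 (L H)) := by
    filter_upwards [hLI] with H hH using (hL H hH).2.1
  have hconv : Tendsto (fun n : ℕ => Tn (m + 1) n) atTop (𝓝 (∫ H, L H ∂(gm m (m + 1)))) := by
    simp_rw [hTn]
    exact tendsto_integral_filter_of_dominated_convergence (fun _ => KK m)
      (Filter.Eventually.of_forall hmeasH) hbound (integrable_const _) hlim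
  refine ⟨∫ H, L H ∂(gm m (m + 1)), ?_, hconv⟩
  have hLmeas : AEStronglyMeasurable L (gm m (m + 1)) :=
    aestronglyMeasurable_of_tendsto_ae atTop hmeasH hlim
  have hLnn : 0 ≤ᵐ[gm m (m + 1)] L := by
    filter_upwards [hLI] with H hH using (hL H hH).1.le
  have hLint : Integrable L (gm m (m + 1)) := by
    refine Integrable.of_bound hLmeas (KK m) ?_
    filter_upwards [hLI, hLnn] with H hH hnn
    rw [Real.norm_eq_abs, abs_of_nonneg hnn]
    refine le_of_tendsto (hL H hH).2.1 ?_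
    filter_upwards [eventually_gt_atTop 0] with n hn
    exact (hL H hH).2.2 n hn
  rw [integral_pos_iff_support_of_nonneg_ae hLnn hLint]
  have h1 : ∀ᵐ H ∂(gm m (m + 1)), H ∈ Function.support L := by
    filter_upwards [hLI] with H hH using ne_of_gt (hL H hH).1
  have h2 : gm m (m + 1) (Function.support L) = 1 := by
    have h3 : (Function.support L : Set (Mt m (m + 1))) =ᵐ[gm m (m + 1)] Set.univ :=
      Filter.eventuallyEq_univ.2 h1
    rw [measure_congr h3, measure_univ]
  rw [h2]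
  exact zero_lt_one

end Pool.Agent.Q215.Cone
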