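import Pool.Agent.Q215.Cone.GThr

open MeasureTheory Filter Topology Finset
open scoped ENNReal

namespace Pool.Agent.Q215.Cone

variable {m : ℕ} {B : Matrix (Fin m) (Fin m) ℝ}

/-- The rescaled integrand. -/
noncomputable def Gn (B : Matrix (Fin m) (Fin m) ℝ) (n : ℕ) (z : (Fin m → ℝ) × ℝ) : ℝ :=
  (2 * (AA B (z.2 / n) z.1).toReal) ^ n * gd (z.2 / n)

lemma measurable_AAr (B : Matrix (Fin m) (Fin m) ℝ) :
    Measurable (fun z : ℝ × (Fin m → ℝ) => (AA B z.1 z.2).toReal) :=
  (measurable_AA B).ennreal_toReal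

lemma measurable_Gn (n : ℕ) : Measurable (Gn B n) := by
  unfold Gn
  have h1 : Measurable (fun z : (Fin m → ℝ) × ℝ => (AA B (z.2 / n) z.1).toReal) := by
    have h2 : Measurable (fun z : (Fin m → ℝ) × ℝ => (z.2 / (n : ℝ), z.1)) := by fun_prop
    exact (measurable_AAr B).comp h2
  have h3 : Measurable (fun z : (Fin m → ℝ) × ℝ => gd (z.2 / n)) := by
    have := continuous_gd.measurable
    fun_prop
  exact ((h1.const_mul 2).pow_const n).mul h3

lemma ga_ne_zero (i0 : Fin m) : ∀ᵐ y ∂(ga m), y ≠ 0 := by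
  have h1 : ga m ≪ (volume : Measure (Fin m → ℝ)) := by
    rw [ga_dn]
    exact withDensity_absolutelyContinuous _ _
  have h2 : (volume : Measure (Fin m → ℝ)) {0} = 0 := by
    have : Nonempty (Fin m) := ⟨i0⟩
    exact measure_singleton 0
  have h3 : ga m {0} = 0 := h1 h2
  rw [ae_iff]
  simpa using h3

/-- The dominating function. -/
noncomputable def Dm (z : (Fin m → ℝ) × ℝ) : ℝ :=
  gd 0 * (K0 * ((1 + nrm z.1 ^ 2) * (1 + z.2 ^ 2)⁻¹))

lemma integrable_Dm : Integrable (Dm : (Fin m → ℝ) × ℝ → ℝ) ((ga m).prod volume) := by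
  unfold Dm
  refine Integrable.const_mul (Integrable.const_mul ?_ _) _
  have h1 : Integrable (fun x : Fin m → ℝ => 1 + nrm x ^ 2) (ga m) :=
    (integrable_const 1).add integrable_nrm_sq
  exact h1.mul_prod integrable_inv_one_add_sq

lemma ae_ne (i0 : Fin m) : ∀ᵐ z ∂((ga m).prod (volume : Measure ℝ)), z.1 ≠ 0 ∧ z.2 ≠ 0 := by
  have h1 : ∀ᵐ z ∂((ga m).prod (volume : Measure ℝ)), z.1 ≠ 0 :=
    (Measure.quasiMeasurePreserving_fst (μ := ga m) (ν := (volume : Measure ℝ))).ae
      (ga_ne_zero i0)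
  have h2 : ∀ᵐ z ∂((ga m).prod (volume : Measure ℝ)), z.2 ≠ 0 := by
    have h3 : ∀ᵐ r ∂(volume : Measure ℝ), r ≠ 0 := by
      rw [ae_iff]
      simp
    exact (Measure.quasiMeasurePreserving_snd (μ := ga m) (ν := (volume : Measure ℝ))).ae h3
  filter_upwards [h1, h2] with z a b using ⟨a, b⟩

lemma Gn_nonneg (n : ℕ) (z : (Fin m → ℝ) × ℝ) : 0 ≤ Gn B n z := by
  unfold Gn
  have := gd_pos (z.2 / n)
  positivity

lemma Gn_dom (hB : B.det ≠ 0) (i0 : Fin m) {n : ℕ} (hn : 0 < n) :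
    ∀ᵐ z ∂((ga m).prod (volume : Measure ℝ)), ‖Gn B n z‖ ≤ Dm z := by
  filter_upwards [ae_ne i0] with z hz
  rw [Real.norm_eq_abs, abs_of_nonneg (Gn_nonneg n z)]
  exact dom hB i0 hz.2 hz.1 hn

lemma integrable_Gn (hB : B.det ≠ 0) (i0 : Fin m) {n : ℕ} (hn : 0 < n) :
    Integrable (Gn B n) ((ga m).prod (volume : Measure ℝ)) :=
  integrable_Dm.mono' (measurable_Gn n).aestronglyMeasurable (Gn_dom hB i0 hn)

/-- The limit of the rescaled integral. -/
noncomputable def LB (B : Matrix (Fin m) (Fin m) ℝ) : ℝ :=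
  ∫ z : (Fin m → ℝ) × ℝ, lim0 B z.1 z.2 * gd 0 ∂((ga m).prod (volume : Measure ℝ))

lemma Gn_lim (hB : B.det ≠ 0) (i0 : Fin m) :
    ∀ᵐ z ∂((ga m).prod (volume : Measure ℝ)),
      Tendsto (fun n : ℕ => Gn B n z) atTop (𝓝 (lim0 B z.1 z.2 * gd 0)) := by
  filter_upwards [ae_ne i0] with z hz
  have h1 := tendsto_pow hB hz.2 z.1
  have h2 : Tendsto (fun n : ℕ => gd (z.2 / n)) atTop (𝓝 (gd 0)) := by
    have h3 : Tendsto (fun n : ℕ => z.2 / (n : ℝ)) atTop (𝓝 0) :=
      tendsto_const_nhds.div_atTop tendsto_natCast_atTop_atTop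
    exact (continuous_gd.tendsto 0).comp h3
  exact h1.mul h2

theorem tendsto_LB (hB : B.det ≠ 0) (i0 : Fin m) :
    Tendsto (fun n : ℕ => ∫ z, Gn B n z ∂((ga m).prod (volume : Measure ℝ))) atTop
      (𝓝 (LB B)) := by
  unfold LB
  refine (tendsto_integral_filter_of_dominated_convergence (fun z => Dm z) ?_ ?_ integrable_Dm
    (Gn_lim hB i0))
  · exact Filter.Eventually.of_forall fun n => (measurable_Gn n).aestronglyMeasurable
  · filter_upwards [eventually_gt_atTop 0] with n hn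
    exact Gn_dom hB i0 hn

lemma kap_nonneg (y : Fin m → ℝ) : 0 ≤ kap B y := by
  unfold kap
  have h1 := gd_pos 0
  have h2 : 0 ≤ ∫ x, phi B y x ∂(ga m) := integral_nonneg fun x => phi_nonneg y x
  positivity

lemma lim0_nonneg (y : Fin m → ℝ) (r : ℝ) : 0 ≤ lim0 B y r := by
  unfold lim0
  split_ifs
  · exact (Real.exp_pos _).le
  · exact le_rfl

lemma integrable_lim0 (hB : B.det ≠ 0) (i0 : Fin m) :
    Integrable (fun z : (Fin m → ℝ) × ℝ => lim0 B z.1 z.2 * gd 0)
      ((ga m).prod (volume : Measure ℝ)) := by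
  refine integrable_Dm.mono' ?_ ?_
  · exact aestronglyMeasurable_of_tendsto_ae atTop
      (fun n => (measurable_Gn n).aestronglyMeasurable) (Gn_lim hB i0)
  · have h1 : ∀ᵐ z ∂((ga m).prod (volume : Measure ℝ)), ∀ n : ℕ, ‖Gn B (n + 1) z‖ ≤ Dm z :=
      ae_all_iff.2 fun n => Gn_dom hB i0 n.succ_pos
    filter_upwards [h1, Gn_lim hB i0] with z hz hl
    have h2 : Tendsto (fun n : ℕ => ‖Gn B (n + 1) z‖) atTop (𝓝 ‖lim0 B z.1 z.2 * gd 0‖) :=
      (hl.comp (tendsto_add_atTop_nat 1)).norm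
    exact le_of_tendsto h2 (Filter.Eventually.of_forall hz)

lemma ga_open_pos {U : Set (Fin m → ℝ)} (hU : IsOpen U) (hne : U.Nonempty) : ga m U ≠ 0 := by
  have h1 : (volume : Measure ℝ) ≪ g1 :=
    ProbabilityTheory.gaussianReal_absolutelyContinuous' 0 one_ne_zero
  have h2 : (g1).IsOpenPosMeasure := h1.isOpenPosMeasure
  have h3 : (ga m).IsOpenPosMeasure := by
    unfold ga
    infer_instance
  exact hU.measure_ne_zero _ hne

theorem LB_pos (hB : B.det ≠ 0) (i0 : Fin m) : 0 < LB B := by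
  unfold LB
  rw [integral_pos_iff_support_of_nonneg
    (fun z => mul_nonneg (lim0_nonneg _ _) (gd_pos 0).le) (integrable_lim0 hB i0)]
  have h1 : Function.support (fun z : (Fin m → ℝ) × ℝ => lim0 B z.1 z.2 * gd 0) =
      {y | ∀ i, cc B y i < 0} ×ˢ (Set.univ : Set ℝ) := by
    ext z
    simp only [Function.mem_support, Set.mem_prod, Set.mem_setOf_eq, Set.mem_univ, and_true]
    unfold lim0
    split_ifs with h
    · have := Real.exp_pos (-(|z.2| * kap B z.1))
      have := gd_pos 0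
      constructor
      · intro _; exact h
      · intro _; positivity
    · constructor
      · intro hh; simp at hh
      · intro hh; exact absurd hh h
  rw [h1, Measure.prod_prod]
  have hopen : IsOpen {y : Fin m → ℝ | ∀ i, cc B y i < 0} := by
    have : {y : Fin m → ℝ | ∀ i, cc B y i < 0} = ⋂ i, {y | cc B y i < 0} := by
      ext y; simp
    rw [this]
    exact isOpen_iInter_of_finite fun i => isOpen_lt (continuous_cc i) continuous_const
  have hne : {y : Fin m → ℝ | ∀ i, cc B y i < 0}.Nonempty := by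
    refine ⟨Matrix.vecMul (fun _ => (-1 : ℝ)) B, fun i => ?_⟩
    have : cc B (Matrix.vecMul (fun _ => (-1 : ℝ)) B) i = -1 := by
      rw [← vecMul_eq_cc, Matrix.vecMul_vecMul,
        Matrix.mul_nonsing_inv _ (isUnit_iff_ne_zero.2 hB), Matrix.vecMul_one]
    rw [this]
    norm_num
  have h2 := ga_open_pos hopen hne
  rw [Real.volume_univ, ENNReal.mul_top h2]
  exact ENNReal.zero_lt_top

/-- The rescaled integral in terms of the original one. -/
theorem int_Gn (hB : B.det ≠ 0) (i0 : Fin m) {n : ℕ} (hn : 0 < n) :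
    ∫ z, Gn B n z ∂((ga m).prod (volume : Measure ℝ)) =
      n * ∫ z, (2 * (AA B z.1 z.2).toReal) ^ n ∂(g1.prod (ga m)) := by
  have hn' : (0 : ℝ) < n := by exact_mod_cast hn
  rw [integral_prod _ (integrable_Gn hB i0 hn)]
  have hbd : Integrable (fun z : ℝ × (Fin m → ℝ) => (2 * (AA B z.1 z.2).toReal) ^ n)
      (g1.prod (ga m)) := by
    refine Integrable.of_bound (((measurable_AAr B).const_mul 2).pow_const n).aestronglyMeasurable
      (2 ^ n) (Filter.Eventually.of_forall fun z => ?_)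
    rw [Real.norm_eq_abs, abs_of_nonneg (by positivity)]
    refine pow_le_pow_left₀ (by positivity) ?_ n
    have : (AA B z.1 z.2).toReal ≤ 1 :=
      ENNReal.toReal_le_of_le_ofReal zero_le_one (by simpa using AA_le_one z.1 z.2)
    linarith
  rw [integral_prod_symm _ hbd, ← integral_const_mul]
  refine integral_congr_ae (Filter.Eventually.of_forall fun y => ?_)
  simp only
  rw [ProbabilityTheory.integral_gaussianReal_eq_integral_smul one_ne_zero]
  have h1 := Measure.integral_comp_div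
    (fun s : ℝ => ProbabilityTheory.gaussianPDFReal 0 1 s • (2 * (AA B s y).toReal) ^ n) (n : ℝ)
  rw [smul_eq_mul, Nat.abs_cast] at h1
  rw [← h1]
  refine integral_congr_ae (Filter.Eventually.of_forall fun r => ?_)
  simp only [smul_eq_mul, gd_eq]
  unfold Gn
  simp only
  ring

/-- The uniform bound. -/
noncomputable def KK (m : ℕ) : ℝ := ∫ z : (Fin m → ℝ) × ℝ, Dm z ∂((ga m).prod (volume : Measure ℝ))

theorem int_Gn_le (hB : B.det ≠ 0) (i0 : Fin m) {n : ℕ} (hn : 0 < n) :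
    ∫ z, Gn B n z ∂((ga m).prod (volume : Measure ℝ)) ≤ KK m := by
  unfold KK
  refine integral_mono_ae (integrable_Gn hB i0 hn) integrable_Dm ?_
  filter_upwards [Gn_dom hB i0 hn] with z hz
  exact (le_abs_self _).trans hz

end Pool.Agent.Q215.Cone
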