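import Pool.Agent.Q215.Cone.GAng

open MeasureTheory Filter Topology Finset
open scoped ENNReal

namespace Pool.Agent.Q215.Cone

/-- The one dimensional standard Gaussian measure. -/
noncomputable abbrev g1 : Measure ℝ := ProbabilityTheory.gaussianReal 0 1

/-- The solid angle in reduced coordinates. -/
noncomputable def AA {m : ℕ} (B : Matrix (Fin m) (Fin m) ℝ) (s : ℝ) (y : Fin m → ℝ) : ℝ≥0∞ :=
  (g1.prod (ga m)) {z | 0 ≤ z.1 / s ∧ ∀ i, 0 ≤ Matrix.vecMul (z.2 - (z.1 / s) • y) B⁻¹ i}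

lemma ga_cons (m : ℕ) : MeasurePreserving
    (fun z : ℝ × (Fin m → ℝ) => (Fin.cons z.1 z.2 : Fin (m + 1) → ℝ)) (g1.prod (ga m))
    (ga (m + 1)) := mp_cons_gen g1 m

lemma det_cons {m : ℕ} (H : Mt m (m + 1)) (hH : ∀ i, H i 0 = 0) (g : Fin (m + 1) → ℝ) :
    (mat (Fin.cons g H : Mt (m + 1) (m + 1))).det =
      g 0 * (mat (fun i j => H i j.succ : Mt m m)).det := by
  rw [Matrix.det_succ_column_zero, Fin.sum_univ_succ]
  have h1 : ∀ i : Fin m, (-1) ^ ((i.succ : Fin (m + 1)) : ℕ) *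
      mat (Fin.cons g H : Mt (m + 1) (m + 1)) i.succ 0 *
      ((mat (Fin.cons g H : Mt (m + 1) (m + 1))).submatrix i.succ.succAbove Fin.succ).det = 0 := by
    intro i
    have : mat (Fin.cons g H : Mt (m + 1) (m + 1)) i.succ 0 = H i 0 := rfl
    rw [this, hH i]
    ring
  rw [Finset.sum_eq_zero fun i _ => h1 i]
  have h2 : mat (Fin.cons g H : Mt (m + 1) (m + 1)) 0 0 = g 0 := rfl
  have h3 : (mat (Fin.cons g H : Mt (m + 1) (m + 1))).submatrix (Fin.succAbove 0) Fin.succ =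
      mat (fun i j => H i j.succ : Mt m m) := by
    ext i j
    rfl
  rw [h2, h3]
  simp

lemma vecMul_cons_inv {m : ℕ} (H : Mt m (m + 1)) (hH : ∀ i, H i 0 = 0) (s : ℝ) (y : Fin m → ℝ)
    (hs : s ≠ 0) (hB : (mat (fun i j => H i j.succ : Mt m m)).det ≠ 0) (t : ℝ) (x : Fin m → ℝ) :
    Matrix.vecMul (Fin.cons t x : Fin (m + 1) → ℝ)
      (mat (Fin.cons (Fin.cons s y : Fin (m + 1) → ℝ) H : Mt (m + 1) (m + 1)))⁻¹ =
      Fin.cons (t / s) (Matrix.vecMul (x - (t / s) • y)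
        (mat (fun i j => H i j.succ : Mt m m))⁻¹) := by
  set M := mat (Fin.cons (Fin.cons s y : Fin (m + 1) → ℝ) H : Mt (m + 1) (m + 1)) with hM
  set B := mat (fun i j => H i j.succ : Mt m m) with hBdef
  have hdet : M.det ≠ 0 := by
    rw [hM, det_cons H hH]
    exact mul_ne_zero hs hB
  have key : Matrix.vecMul (Fin.cons (t / s) (Matrix.vecMul (x - (t / s) • y) B⁻¹) :
      Fin (m + 1) → ℝ) M = (Fin.cons t x : Fin (m + 1) → ℝ) := by
    set v := Matrix.vecMul (x - (t / s) • y) B⁻¹ with hv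
    have hvB : Matrix.vecMul v B = x - (t / s) • y := by
      rw [hv, Matrix.vecMul_vecMul, Matrix.nonsing_inv_mul _ (isUnit_iff_ne_zero.2 hB),
        Matrix.vecMul_one]
    funext j
    unfold Matrix.vecMul dotProduct
    rw [Fin.sum_univ_succ]
    refine Fin.cases ?_ (fun j => ?_) j
    · have h0 : ∀ i : Fin m, M i.succ 0 = 0 := fun i => hH i
      have h1 : M 0 0 = s := rfl
      simp only [Fin.cons_zero, Fin.cons_succ, h0, h1, mul_zero, Finset.sum_const_zero, add_zero]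
      field_simp
    · have h0 : ∀ i : Fin m, M i.succ j.succ = B i j := fun i => rfl
      have h1 : M 0 j.succ = y j := rfl
      simp only [Fin.cons_zero, Fin.cons_succ, h0, h1]
      have h2 := congrFun hvB j
      unfold Matrix.vecMul dotProduct at h2
      rw [h2]
      simp only [Pi.sub_apply, Pi.smul_apply, smul_eq_mul]
      ring
  rw [← key, Matrix.vecMul_vecMul, Matrix.mul_nonsing_inv _ (isUnit_iff_ne_zero.2 hdet),
    Matrix.vecMul_one]

lemma ang_cons {m : ℕ} (H : Mt m (m + 1)) (hH : ∀ i, H i 0 = 0)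
    (hB : (mat (fun i j => H i j.succ : Mt m m)).det ≠ 0) (s : ℝ) (hs : s ≠ 0)
    (y : Fin m → ℝ) :
    ang (Fin.cons (Fin.cons s y : Fin (m + 1) → ℝ) H : Mt (m + 1) (m + 1)) =
      AA (mat (fun i j => H i j.succ : Mt m m)) s y := by
  unfold ang AA
  have hset : MeasurableSet {x : Fin (m + 1) → ℝ | ∀ i, 0 ≤ Matrix.vecMul x
      (mat (Fin.cons (Fin.cons s y : Fin (m + 1) → ℝ) H : Mt (m + 1) (m + 1)))⁻¹ i} := by
    have : {x : Fin (m + 1) → ℝ | ∀ i, 0 ≤ Matrix.vecMul x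
        (mat (Fin.cons (Fin.cons s y : Fin (m + 1) → ℝ) H : Mt (m + 1) (m + 1)))⁻¹ i} =
        ⋂ i, {x : Fin (m + 1) → ℝ | 0 ≤ Matrix.vecMul x
        (mat (Fin.cons (Fin.cons s y : Fin (m + 1) → ℝ) H : Mt (m + 1) (m + 1)))⁻¹ i} := by
      ext z; simp
    rw [this]
    refine MeasurableSet.iInter fun i => measurableSet_le measurable_const ?_
    have : Continuous (fun x : Fin (m + 1) → ℝ => Matrix.vecMul x
        (mat (Fin.cons (Fin.cons s y : Fin (m + 1) → ℝ) H : Mt (m + 1) (m + 1)))⁻¹ i) := by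
      unfold Matrix.vecMul dotProduct
      fun_prop
    exact this.measurable
  rw [← (ga_cons m).measure_preimage hset.nullMeasurableSet]
  congr 1
  ext z
  simp only [Set.mem_preimage, Set.mem_setOf_eq]
  rw [vecMul_cons_inv H hH s y hs hB z.1 z.2]
  rw [Fin.forall_fin_succ]
  simp only [Fin.cons_zero, Fin.cons_succ]

/-- The set in the definition of the reduced angle is measurable. -/
lemma measurableSet_AA {m : ℕ} (B : Matrix (Fin m) (Fin m) ℝ) :
    MeasurableSet {w : (ℝ × (Fin m → ℝ)) × (ℝ × (Fin m → ℝ)) | 0 ≤ w.2.1 / w.1.1 ∧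
      ∀ i, 0 ≤ Matrix.vecMul (w.2.2 - (w.2.1 / w.1.1) • w.1.2) B⁻¹ i} := by
  have h0 : Measurable (fun w : (ℝ × (Fin m → ℝ)) × (ℝ × (Fin m → ℝ)) => w.2.1 / w.1.1) := by
    fun_prop
  have h1 : Measurable (fun w : (ℝ × (Fin m → ℝ)) × (ℝ × (Fin m → ℝ)) =>
      w.2.2 - (w.2.1 / w.1.1) • w.1.2) := by
    refine measurable_pi_iff.2 fun j => ?_
    simp only [Pi.sub_apply, Pi.smul_apply, smul_eq_mul]
    fun_prop
  have h2 : ∀ i, Measurable (fun w : (ℝ × (Fin m → ℝ)) × (ℝ × (Fin m → ℝ)) =>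
      Matrix.vecMul (w.2.2 - (w.2.1 / w.1.1) • w.1.2) B⁻¹ i) := by
    intro i
    have : Continuous (fun x : Fin m → ℝ => Matrix.vecMul x B⁻¹ i) := by
      unfold Matrix.vecMul dotProduct
      fun_prop
    exact this.measurable.comp h1
  have : {w : (ℝ × (Fin m → ℝ)) × (ℝ × (Fin m → ℝ)) | 0 ≤ w.2.1 / w.1.1 ∧
      ∀ i, 0 ≤ Matrix.vecMul (w.2.2 - (w.2.1 / w.1.1) • w.1.2) B⁻¹ i} =
      {w | 0 ≤ w.2.1 / w.1.1} ∩ ⋂ i, {w : (ℝ × (Fin m → ℝ)) × (ℝ × (Fin m → ℝ)) |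
        0 ≤ Matrix.vecMul (w.2.2 - (w.2.1 / w.1.1) • w.1.2) B⁻¹ i} := by
    ext w; simp
  rw [this]
  exact (measurableSet_le measurable_const h0).inter
    (MeasurableSet.iInter fun i => measurableSet_le measurable_const (h2 i))

lemma measurable_AA {m : ℕ} (B : Matrix (Fin m) (Fin m) ℝ) :
    Measurable (fun z : ℝ × (Fin m → ℝ) => AA B z.1 z.2) :=
  measurable_measure_prodMk_left (measurableSet_AA B)

end Pool.Agent.Q215.Cone
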