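import Pool.Agent.Q215.Cone.GLoc

open MeasureTheory Filter Topology Finset
open scoped ENNReal

namespace Pool.Agent.Q215.Cone

/-- The one dimensional Gaussian density. -/
noncomputable def gd (t : ℝ) : ℝ := (√(2 * Real.pi))⁻¹ * Real.exp (-(t ^ 2) / 2)

lemma gd_eq (t : ℝ) : ProbabilityTheory.gaussianPDFReal 0 1 t = gd t := by
  unfold ProbabilityTheory.gaussianPDFReal gd
  simp

lemma gd_pos (t : ℝ) : 0 < gd t := by
  unfold gd
  have : 0 < √(2 * Real.pi) := Real.sqrt_pos.2 (by positivity)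
  positivity

lemma gd_anti {s t : ℝ} (h : |s| ≤ |t|) : gd t ≤ gd s := by
  unfold gd
  have h1 : s ^ 2 ≤ t ^ 2 := sq_le_sq.2 h
  have h2 : Real.exp (-(t ^ 2) / 2) ≤ Real.exp (-(s ^ 2) / 2) := by
    apply Real.exp_le_exp.2
    linarith
  exact mul_le_mul_of_nonneg_left h2 (by positivity)

lemma gd_le (t : ℝ) : gd t ≤ gd 0 := gd_anti (by simp)

lemma continuous_gd : Continuous gd := by
  unfold gd
  fun_prop

lemma g1_neg : MeasurePreserving (fun x : ℝ => -x) g1 g1 := by
  refine ⟨measurable_neg, ?_⟩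
  rw [ProbabilityTheory.gaussianReal_map_neg, neg_zero]

lemma g1_atoms : NullSingletonClass g1 :=
  ProbabilityTheory.nullSingletonClass_gaussianReal one_ne_zero

lemma g1_half : g1 (Set.Ici 0) = 1 / 2 := by
  have := g1_atoms
  have h1 : g1 (Set.Iic 0) = g1 (Set.Ici 0) := by
    rw [← g1_neg.measure_preimage measurableSet_Iic.nullMeasurableSet]
    congr 1
    ext x
    simp
  have h2 : g1 (Set.Iic 0) + g1 (Set.Ici 0) = 1 := by
    have h3 : g1 (Set.Ici 0) = g1 (Set.Ioi 0) := measure_congr Ioi_ae_eq_Ici.symm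
    rw [h3, ← measure_union (Set.Iic_disjoint_Ioi le_rfl) measurableSet_Ioi, Set.Iic_union_Ioi,
      measure_univ]
  rw [h1, ← two_mul] at h2
  rw [ENNReal.eq_div_iff (by norm_num) (by norm_num)]
  exact h2

/-- The mass of `[0, u)`. -/
noncomputable def Ph (u : ℝ) : ℝ := g1.real (Set.Ico 0 u)

lemma Ph_nonneg (u : ℝ) : 0 ≤ Ph u := measureReal_nonneg

lemma Ph_mono : Monotone Ph := by
  intro a b hab
  unfold Ph
  exact measureReal_mono (Set.Ico_subset_Ico_right hab)

lemma Ph_eq (u : ℝ) : Ph u = ∫ t in Set.Ico 0 u, gd t := by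
  unfold Ph Measure.real
  rw [ProbabilityTheory.gaussianReal_apply_eq_integral 0 one_ne_zero]
  simp_rw [gd_eq]
  rw [ENNReal.toReal_ofReal]
  exact integral_nonneg fun t => (gd_pos t).le

lemma Ph_le {u : ℝ} (hu : 0 ≤ u) : Ph u ≤ u * gd 0 := by
  rw [Ph_eq]
  have h1 : ∫ t in Set.Ico 0 u, gd t ≤ ∫ t in Set.Ico 0 u, gd 0 := by
    refine setIntegral_mono_on ?_ ?_ measurableSet_Ico fun t _ => gd_le t
    · exact (continuous_gd.continuousOn.integrableOn_Icc).mono_set Set.Ico_subset_Icc_self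
    · exact (continuous_const.continuousOn.integrableOn_Icc (a := 0) (b := u)).mono_set
        Set.Ico_subset_Icc_self
  refine h1.trans (le_of_eq ?_)
  rw [setIntegral_const]
  simp [Measure.real, hu]

lemma le_Ph {u : ℝ} (hu : 0 ≤ u) : u * gd u ≤ Ph u := by
  rw [Ph_eq]
  have h1 : ∫ t in Set.Ico 0 u, gd u ≤ ∫ t in Set.Ico 0 u, gd t := by
    refine setIntegral_mono_on ?_ ?_ measurableSet_Ico fun t ht => ?_
    · exact (continuous_const.continuousOn.integrableOn_Icc (a := 0) (b := u)).mono_set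
        Set.Ico_subset_Icc_self
    · exact (continuous_gd.continuousOn.integrableOn_Icc).mono_set Set.Ico_subset_Icc_self
    · refine gd_anti ?_
      rw [abs_of_nonneg ht.1, abs_of_nonneg hu]
      exact ht.2.le
  refine (le_of_eq ?_).trans h1
  rw [setIntegral_const]
  simp [Measure.real, hu]

lemma g1_Ici {u : ℝ} (hu : 0 ≤ u) : g1.real (Set.Ici u) = 1 / 2 - Ph u := by
  have h1 : g1.real (Set.Ico 0 u) + g1.real (Set.Ici u) = g1.real (Set.Ici 0) := by
    rw [← measureReal_union (by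
      rw [Set.disjoint_left]
      intro x hx hx2
      exact absurd hx2 (not_le.2 hx.2)) measurableSet_Ici, Set.Ico_union_Ici_eq_Ici hu]
  have h2 : g1.real (Set.Ici 0) = 1 / 2 := by
    unfold Measure.real
    rw [g1_half]
    simp
  unfold Ph
  linarith

lemma Ph_lower {u : ℝ} (hu : 0 ≤ u) : gd 1 * min u 1 ≤ Ph u := by
  rcases le_total u 1 with h | h
  · rw [min_eq_left h]
    refine le_trans ?_ (le_Ph hu)
    rw [mul_comm]
    refine mul_le_mul_of_nonneg_left (gd_anti ?_) hu
    rw [abs_of_nonneg hu, abs_one]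
    exact h
  · rw [min_eq_right h]
    refine le_trans ?_ (Ph_mono h)
    have := le_Ph (u := 1) zero_le_one
    linarith

/-- `n Φ(x / n) → x g(0)`. -/
lemma tendsto_Ph {x : ℝ} (hx : 0 ≤ x) :
    Tendsto (fun n : ℕ => (n : ℝ) * Ph (x / n)) atTop (𝓝 (x * gd 0)) := by
  have hlow : Tendsto (fun n : ℕ => x * gd (x / n)) atTop (𝓝 (x * gd 0)) := by
    have h1 : Tendsto (fun n : ℕ => x / (n : ℝ)) atTop (𝓝 0) :=
      tendsto_const_nhds.div_atTop tendsto_natCast_atTop_atTop
    exact ((continuous_gd.tendsto 0).comp h1).const_mul x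
  refine tendsto_of_tendsto_of_tendsto_of_le_of_le' hlow tendsto_const_nhds ?_ ?_
  · filter_upwards [eventually_gt_atTop 0] with n hn
    have hn' : (0 : ℝ) < n := by exact_mod_cast hn
    have h1 := le_Ph (u := x / n) (by positivity)
    have h2 := mul_le_mul_of_nonneg_left h1 hn'.le
    refine le_trans (le_of_eq ?_) h2
    field_simp
  · filter_upwards [eventually_gt_atTop 0] with n hn
    have hn' : (0 : ℝ) < n := by exact_mod_cast hn
    have h1 := Ph_le (u := x / n) (by positivity)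
    have h2 := mul_le_mul_of_nonneg_left h1 hn'.le
    refine h2.trans (le_of_eq ?_)
    field_simp

lemma Ph_scale_le {x : ℝ} (hx : 0 ≤ x) (n : ℕ) : (n : ℝ) * Ph (x / n) ≤ x * gd 0 := by
  rcases Nat.eq_zero_or_pos n with h | hn
  · subst h
    simp only [Nat.cast_zero, zero_mul]
    exact mul_nonneg hx (gd_pos 0).le
  · have hn' : (0 : ℝ) < n := by exact_mod_cast hn
    have h1 := Ph_le (u := x / n) (by positivity)
    have h2 := mul_le_mul_of_nonneg_left h1 hn'.le
    refine h2.trans (le_of_eq ?_)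
    field_simp

/-- The constant `P(N ≤ -1)`. -/
noncomputable def p1 : ℝ := g1.real (Set.Iic (-1))

lemma p1_pos : 0 < p1 := by
  unfold p1
  have h1 : (volume : Measure ℝ) ≪ g1 :=
    ProbabilityTheory.gaussianReal_absolutelyContinuous' 0 one_ne_zero
  have h2 : g1 (Set.Iic (-1)) ≠ 0 := by
    intro h
    have := h1 h
    simp at this
  exact ENNReal.toReal_pos h2 (measure_ne_top _ _)

lemma p1_le : p1 ≤ 1 := by
  unfold p1
  exact measureReal_le_one

end Pool.Agent.Q215.Cone
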