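import Mathlib

open MeasureTheory Filter Topology Finset
open scoped ENNReal

namespace Pool.Agent.Q215.Cone

section Pi

variable {α : Type*} [MeasurableSpace α]

/-- the integral of a product function -/
theorem lint_prod (n : ℕ) (μ : Fin n → Measure α) [∀ i, SigmaFinite (μ i)]
    (f : Fin n → α → ℝ≥0∞) (hf : ∀ i, Measurable (f i)) :
    ∫⁻ x, ∏ i, f i (x i) ∂(Measure.pi μ) = ∏ i, ∫⁻ y, f i y ∂(μ i) := by
  induction n with
  | zero =>
    have hv : (Measure.pi μ) Set.univ = 1 := by
      rw [Measure.pi_of_empty]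
      simp
    simp [hv]
  | succ n ih =>
    have hcons : ∀ p : α × (Fin n → α),
        (MeasurableEquiv.piFinSuccAbove (fun _ : Fin (n + 1) => α) 0).symm p =
          (Fin.cons p.1 p.2 : Fin (n + 1) → α) := by
      intro p
      ext i
      refine Fin.cases ?_ (fun j => ?_) i
      · simp [MeasurableEquiv.piFinSuccAbove_symm_apply, Fin.insertNthEquiv]
      · simp [MeasurableEquiv.piFinSuccAbove_symm_apply, Fin.insertNthEquiv]
    have hmp := (measurePreserving_piFinSuccAbove μ 0).symm
    have hF : Measurable (fun x : Fin (n + 1) → α => ∏ i, f i (x i)) :=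
      Finset.measurable_prod _ fun i _ => (hf i).comp (measurable_pi_apply i)
    rw [← hmp.lintegral_comp hF]
    simp_rw [hcons, Fin.prod_univ_succ, Fin.cons_zero, Fin.cons_succ]
    have hG : Measurable (fun z : Fin n → α => ∏ i : Fin n, f i.succ (z i)) :=
      Finset.measurable_prod _ fun i _ => (hf i.succ).comp (measurable_pi_apply i)
    have h := lintegral_prod_mul (μ := μ 0) (ν := Measure.pi fun j : Fin n => μ j.succ)
      (f := f 0) (g := fun z : Fin n → α => ∏ i : Fin n, f i.succ (z i))
      (hf 0).aemeasurable hG.aemeasurable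
    have e : (Measure.pi fun j : Fin n => μ ((0 : Fin (n + 1)).succAbove j)) =
        Measure.pi fun j : Fin n => μ j.succ := by
      congr 1
    rw [e, h, ih (fun j => μ j.succ) (fun j => f j.succ) fun j => hf _]

theorem pi_wd {n : ℕ} (ν : Measure α) [SigmaFinite ν] {h : α → ℝ≥0∞}
    (hm : Measurable h) [SigmaFinite (ν.withDensity h)] :
    Measure.pi (fun _ : Fin n => ν.withDensity h) =
      (Measure.pi fun _ : Fin n => ν).withDensity (fun x => ∏ j, h (x j)) := by
  refine Measure.pi_eq fun s hs => ?_
  rw [withDensity_apply _ (MeasurableSet.univ_pi hs), Measure.restrict_pi_pi,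
    lint_prod n (fun i => ν.restrict (s i)) (fun _ => h) fun _ => hm]
  refine Finset.prod_congr rfl fun i _ => ?_
  rw [withDensity_apply _ (hs i)]

end Pi

/-- `k × d` matrices, as families of rows. -/
abbrev Mt (k d : ℕ) := Fin k → Fin d → ℝ

/-- The standard Gaussian measure. -/
noncomputable def ga (d : ℕ) : Measure (Fin d → ℝ) :=
  Measure.pi fun _ => ProbabilityTheory.gaussianReal 0 1

/-- The law of a matrix with independent standard Gaussian entries. -/
noncomputable def gm (k d : ℕ) : Measure (Mt k d) := Measure.pi fun _ => ga d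

instance (d : ℕ) : IsProbabilityMeasure (ga d) := by unfold ga; infer_instance
instance (k d : ℕ) : IsProbabilityMeasure (gm k d) := by unfold gm; infer_instance

/-- The Gaussian density. -/
noncomputable def den (k d : ℕ) (X : Mt k d) : ℝ≥0∞ :=
  ∏ j, ∏ i, ProbabilityTheory.gaussianPDF 0 1 (X j i)

lemma measurable_den {k d : ℕ} : Measurable (den k d) := by
  unfold den
  refine Finset.measurable_prod _ fun j _ => Finset.measurable_prod _ fun i _ => ?_
  exact (ProbabilityTheory.measurable_gaussianPDF 0 1).comp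
    ((measurable_pi_apply i).comp (measurable_pi_apply j))

lemma ga_eq (d : ℕ) : ga d = (volume : Measure (Fin d → ℝ)).withDensity
    (fun x => ∏ i, ProbabilityTheory.gaussianPDF 0 1 (x i)) := by
  have h1 : ProbabilityTheory.gaussianReal 0 1 =
      (volume : Measure ℝ).withDensity (ProbabilityTheory.gaussianPDF 0 1) :=
    ProbabilityTheory.gaussianReal_of_var_ne_zero 0 one_ne_zero
  have : SigmaFinite ((volume : Measure ℝ).withDensity (ProbabilityTheory.gaussianPDF 0 1)) := by
    rw [← h1]; infer_instance
  unfold ga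
  rw [h1, pi_wd volume (ProbabilityTheory.measurable_gaussianPDF 0 1)]
  rfl

lemma gm_eq (k d : ℕ) : gm k d = (volume : Measure (Mt k d)).withDensity (den k d) := by
  have hm : Measurable (fun x : Fin d → ℝ => ∏ i, ProbabilityTheory.gaussianPDF 0 1 (x i)) :=
    Finset.measurable_prod _ fun i _ =>
      (ProbabilityTheory.measurable_gaussianPDF 0 1).comp (measurable_pi_apply i)
  have : SigmaFinite ((volume : Measure (Fin d → ℝ)).withDensity
      (fun x => ∏ i, ProbabilityTheory.gaussianPDF 0 1 (x i))) := by
    rw [← ga_eq]; infer_instance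
  unfold gm
  rw [ga_eq, pi_wd volume hm]
  rfl

/-- Squared norm of a matrix. -/
def sq {k d : ℕ} (X : Mt k d) : ℝ := ∑ j, ∑ i, X j i ^ 2

/-- The Gaussian density as a function of the squared norm. -/
lemma den_eq {k d : ℕ} (X : Mt k d) :
    den k d X = ENNReal.ofReal ((√(2 * Real.pi))⁻¹ ^ (k * d) * Real.exp (-(sq X) / 2)) := by
  unfold den ProbabilityTheory.gaussianPDF ProbabilityTheory.gaussianPDFReal sq
  have h0 : ∀ j i, 0 ≤ (√(2 * Real.pi * (1 : NNReal)))⁻¹ *
      Real.exp (-(X j i - 0) ^ 2 / (2 * (1 : NNReal))) := fun j i => by positivity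
  rw [← Finset.prod_congr rfl fun j _ => ENNReal.ofReal_prod_of_nonneg fun i _ => h0 j i]
  rw [← ENNReal.ofReal_prod_of_nonneg fun j _ => Finset.prod_nonneg fun i _ => h0 j i]
  congr 1
  simp only [NNReal.coe_one, mul_one, sub_zero]
  simp_rw [Finset.prod_mul_distrib]
  simp only [Finset.prod_const, Finset.card_univ, Fintype.card_fin]
  rw [← pow_mul, mul_comm d k]
  congr 1
  simp_rw [← Real.exp_sum]
  congr 1
  rw [neg_div, Finset.sum_div, ← Finset.sum_neg_distrib]
  refine Finset.sum_congr rfl fun j _ => ?_
  rw [Finset.sum_div, ← Finset.sum_neg_distrib]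
  refine Finset.sum_congr rfl fun i _ => ?_
  ring

instance instHaarMt (k d : ℕ) : (volume : Measure (Mt k d)).IsAddHaarMeasure where

/-- Transposition preserves Lebesgue measure. -/
theorem vol_transpose (k d : ℕ) :
    MeasurePreserving (fun (A : Mt k d) => (fun i j => A j i : Mt d k)) volume volume := by
  have hm : Measurable (fun (A : Mt k d) => (fun i j => A j i : Mt d k)) := by
    rw [measurable_pi_iff]; intro i
    rw [measurable_pi_iff]; intro j
    exact (measurable_pi_apply i).comp (measurable_pi_apply j)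
  refine ⟨hm, ?_⟩
  let e : Mt k d ≃L[ℝ] Mt d k := LinearEquiv.toContinuousLinearEquiv
    { toFun := fun A i j => A j i
      invFun := fun A i j => A j i
      map_add' := fun _ _ => rfl
      map_smul' := fun _ _ => rfl
      left_inv := fun _ => rfl
      right_inv := fun _ => rfl }
  have he : ⇑e = (fun (A : Mt k d) => (fun i j => A j i : Mt d k)) := rfl
  have h1 : (Measure.map e (volume : Measure (Mt k d))).IsAddHaarMeasure :=
    e.isAddHaarMeasure_map volume
  obtain ⟨c, hc⟩ : ∃ c : NNReal, Measure.map e (volume : Measure (Mt k d)) = c • volume :=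
    ⟨_, Measure.isAddLeftInvariant_eq_smul (Measure.map e (volume : Measure (Mt k d))) volume⟩
  rw [he] at hc
  rw [hc]
  have h3 : (Measure.map (fun (A : Mt k d) => (fun i j => A j i : Mt d k)) volume)
      (Set.univ.pi fun _ => Set.univ.pi fun _ => Set.Icc (0 : ℝ) 1) = 1 := by
    rw [Measure.map_apply hm (MeasurableSet.univ_pi fun _ => MeasurableSet.univ_pi fun _ =>
      measurableSet_Icc)]
    have : (fun (A : Mt k d) => (fun i j => A j i : Mt d k)) ⁻¹'
        (Set.univ.pi fun _ => Set.univ.pi fun _ => Set.Icc (0 : ℝ) 1) =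
        (Set.univ.pi fun _ => Set.univ.pi fun _ => Set.Icc (0 : ℝ) 1) := by
      ext A
      simp only [Set.mem_preimage, Set.mem_pi, Set.mem_univ, true_implies]
      exact ⟨fun h i j => h j i, fun h i j => h j i⟩
    rw [this, volume_pi, Measure.pi_pi]
    simp only [volume_pi, Measure.pi_pi, Real.volume_Icc, sub_zero, ENNReal.ofReal_one,
      Finset.prod_const_one]
  rw [hc, Measure.smul_apply, volume_pi, Measure.pi_pi] at h3
  simp only [volume_pi, Measure.pi_pi, Real.volume_Icc, sub_zero, ENNReal.ofReal_one,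
    Finset.prod_const_one] at h3
  have h4 : (c : ℝ≥0∞) = 1 := by
    have : c • (1 : ℝ≥0∞) = (c : ℝ≥0∞) * 1 := rfl
    rw [this, mul_one] at h3
    exact h3
  have h5 : c = 1 := by exact_mod_cast h4
  rw [h5, one_smul]

/-- Change of variables `Ξ = Λ G`. -/
theorem lint_rows {k d : ℕ} (G : Matrix (Fin d) (Fin d) ℝ) (hG : G.det ≠ 0)
    (f : Mt k d → ℝ≥0∞) (hf : Measurable f) :
    ∫⁻ X, f X = ENNReal.ofReal (|G.det| ^ k) *
      ∫⁻ L : Mt k d, f (fun j => Matrix.vecMul (L j) G) := by
  have hG' : (G.transpose).det ≠ 0 := by rwa [Matrix.det_transpose]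
  have h1 := Real.map_matrix_volume_pi_eq_smul_volume_pi hG'
  have h2 : ⇑(Matrix.toLin' G.transpose) = fun x : Fin d → ℝ => Matrix.vecMul x G := by
    funext x
    rw [Matrix.toLin'_apply, Matrix.mulVec_transpose]
  rw [h2] at h1
  have hm1 : Measurable (fun x : Fin d → ℝ => Matrix.vecMul x G) := by
    have : Continuous (fun x : Fin d → ℝ => Matrix.vecMul x G) := by fun_prop
    exact this.measurable
  have hm2 : Measurable (fun L : Mt k d => (fun j => Matrix.vecMul (L j) G : Mt k d)) := by
    rw [measurable_pi_iff]; intro j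
    exact hm1.comp (measurable_pi_apply j)
  have hsf : SigmaFinite (Measure.map (fun x : Fin d → ℝ => Matrix.vecMul x G)
      (volume : Measure (Fin d → ℝ))) := by
    rw [h1]
    have : SigmaFinite (Real.toNNReal |G.transpose.det⁻¹| • (volume : Measure (Fin d → ℝ))) :=
      inferInstance
    exact this
  have h3 : Measure.map (fun L : Mt k d => (fun j => Matrix.vecMul (L j) G : Mt k d)) volume =
      ENNReal.ofReal (|G.det|⁻¹ ^ k) • (volume : Measure (Mt k d)) := by
    rw [volume_pi]
    rw [Measure.pi_map_pi (f := fun _ : Fin k => fun x : Fin d → ℝ => Matrix.vecMul x G)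
      (fun j => hm1.aemeasurable)]
    refine Measure.pi_eq fun s hs => ?_
    rw [Measure.smul_apply, Measure.pi_pi, h1]
    simp only [Measure.smul_apply, smul_eq_mul]
    rw [Finset.prod_mul_distrib]
    simp only [Finset.prod_const, Finset.card_univ, Fintype.card_fin]
    congr 1
    rw [Matrix.det_transpose, abs_inv, ENNReal.ofReal_pow (by positivity)]
  rw [← lintegral_map hf hm2, h3, lintegral_smul_measure, smul_eq_mul, ← mul_assoc,
    ← ENNReal.ofReal_mul (by positivity), ← mul_pow, mul_inv_cancel₀ (abs_ne_zero.2 hG), one_pow,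
    ENNReal.ofReal_one, one_mul]

/-- Multiplication by a square matrix on the left. -/
def mulL {k d : ℕ} (T : Matrix (Fin d) (Fin d) ℝ) (L : Mt d k) : Mt d k :=
  fun i j => ∑ l, T i l * L l j

/-- Change of variables `X' = T X`. -/
theorem lint_cols {k d : ℕ} (T : Matrix (Fin d) (Fin d) ℝ) (hT : T.det ≠ 0)
    (f : Mt d k → ℝ≥0∞) (hf : Measurable f) :
    ∫⁻ X, f X = ENNReal.ofReal (|T.det| ^ k) * ∫⁻ L : Mt d k, f (mulL T L) := by
  rw [← (vol_transpose k d).lintegral_comp hf]
  have hf2 : Measurable (fun A : Mt k d => f (fun i j => A j i)) :=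
    hf.comp (vol_transpose k d).measurable
  rw [lint_rows T.transpose (by rwa [Matrix.det_transpose]) _ hf2, Matrix.det_transpose]
  congr 1
  have hf3 : Measurable (fun L : Mt d k => f (mulL T L)) := by
    refine hf.comp ?_
    have : Continuous (fun L : Mt d k => mulL T L) := by
      refine continuous_pi fun i => continuous_pi fun j => ?_
      unfold mulL
      fun_prop
    exact this.measurable
  rw [← (vol_transpose k d).lintegral_comp hf3]
  refine lintegral_congr fun L => ?_
  congr 1
  funext i j
  change Matrix.vecMul (L j) T.transpose i = _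
  rw [Matrix.vecMul_transpose]
  rfl

end Pool.Agent.Q215.Cone
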