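import Pool.Agent.Q215.Cone.GPi

open MeasureTheory Filter Topology Finset
open scoped ENNReal

namespace Pool.Agent.Q215.Cone

/-- Independent vectors whose law does not charge proper subspaces are linearly independent. -/
lemma ae_li_gen {V : Type*} [NormedAddCommGroup V] [NormedSpace ℝ V] [FiniteDimensional ℝ V]
    [MeasurableSpace V] [BorelSpace V] (μ : Measure V) [SigmaFinite μ]
    (h : ∀ K : Submodule ℝ V, K ≠ ⊤ → μ (K : Set V) = 0) : ∀ k : ℕ, k ≤ Module.finrank ℝ V →
    ∀ᵐ U ∂(Measure.pi fun _ : Fin k => μ), LinearIndependent ℝ U := by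
  have : SecondCountableTopology V := inferInstance
  intro k
  induction k with
  | zero =>
    intro _
    exact Filter.Eventually.of_forall fun U => linearIndependent_empty_type
  | succ k ih =>
    intro hk
    have ih' := ih (by omega)
    have hmp := (measurePreserving_piFinSuccAbove (fun _ : Fin (k + 1) => μ) 0).symm
    have hmeas : MeasurableSet {U : Fin (k + 1) → V | LinearIndependent ℝ U} :=
      isOpen_setOf_linearIndependent.measurableSet
    rw [← hmp.map_eq, ae_map_iff hmp.measurable.aemeasurable hmeas]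
    have hmeas2 : MeasurableSet {z : V × (Fin k → V) | LinearIndependent ℝ
        ((MeasurableEquiv.piFinSuccAbove (fun _ : Fin (k + 1) => V) 0).symm z)} :=
      hmp.measurable hmeas
    rw [Measure.ae_prod_iff_ae_ae hmeas2, Measure.ae_ae_comm hmeas2]
    filter_upwards [ih'] with U hU
    have hK : Submodule.span ℝ (Set.range U) ≠ ⊤ := by
      intro htop
      have h1 : Module.finrank ℝ (Submodule.span ℝ (Set.range U)) ≤ k := by
        have := finrank_range_le_card (R := ℝ) U
        rwa [Fintype.card_fin] at this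
      rw [htop, finrank_top] at h1
      omega
    have h2 := h _ hK
    rw [ae_iff]
    refine measure_mono_null ?_ h2
    intro x hx
    by_contra hcon
    refine hx ?_
    have : ((MeasurableEquiv.piFinSuccAbove (fun _ : Fin (k + 1) => V) 0).symm (x, U)) =
        Fin.cons x U := by
      funext j
      refine Fin.cases ?_ (fun j => ?_) j <;> simp [MeasurableEquiv.piFinSuccAbove]
    rw [this, linearIndependent_finCons]
    exact ⟨hU, hcon⟩

/-- The matrix with given rows. -/
def mat {k d : ℕ} (X : Mt k d) : Matrix (Fin k) (Fin d) ℝ := X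

lemma vol_det (d : ℕ) : ∀ᵐ G ∂(volume : Measure (Mt d d)), (mat G).det ≠ 0 := by
  have h := ae_li_gen (volume : Measure (Fin d → ℝ))
    (fun K hK => Measure.addHaar_submodule volume K hK) d (by simp)
  filter_upwards [h] with G hG
  have := (Matrix.linearIndependent_rows_iff_isUnit (A := mat G)).1 hG
  rw [Matrix.isUnit_iff_isUnit_det] at this
  exact this.ne_zero

/-- The coordinates of the rows of `X` with respect to the rows of `G`. -/
noncomputable def sol {k d : ℕ} (G : Mt d d) (X : Mt k d) : Mt k d :=
  fun j => Matrix.vecMul (X j) (mat G)⁻¹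

/-- The product. -/
def mulR {k d : ℕ} (L : Mt k d) (G : Mt d d) : Mt k d := fun j => Matrix.vecMul (L j) (mat G)

lemma sol_mulR {k d : ℕ} (L : Mt k d) (G : Mt d d) (hG : (mat G).det ≠ 0) :
    sol G (mulR L G) = L := by
  funext j
  unfold sol mulR
  rw [Matrix.vecMul_vecMul, Matrix.mul_nonsing_inv _ (isUnit_iff_ne_zero.2 hG), Matrix.vecMul_one]

/-- The Gram-type determinant. -/
noncomputable def gram {k d : ℕ} (L : Mt k d) : ℝ := (1 + (mat L).transpose * (mat L)).det

lemma gram_transpose {k d : ℕ} (L : Mt k d) :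
    gram (fun i j => L j i : Mt d k) = gram L := by
  unfold gram
  have : (mat (fun i j => L j i : Mt d k)) = (mat L).transpose := rfl
  rw [this, Matrix.transpose_transpose, Matrix.det_one_add_mul_comm]

open scoped ComplexOrder MatrixOrder Matrix.Norms.L2Operator in
lemma exists_root {k d : ℕ} (L : Mt k d) : ∃ T : Matrix (Fin d) (Fin d) ℝ,
    T.transpose * T = 1 + (mat L).transpose * (mat L) := by
  have h1 : (1 + (mat L).transpose * (mat L)).PosSemidef := by
    refine Matrix.PosSemidef.add Matrix.PosSemidef.one ?_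
    have := Matrix.posSemidef_conjTranspose_mul_self (mat L)
    rwa [Matrix.conjTranspose_eq_transpose_of_trivial] at this
  obtain ⟨B, hB⟩ := CStarAlgebra.nonneg_iff_eq_star_mul_self.mp h1.nonneg
  rw [Matrix.star_eq_conjTranspose, Matrix.conjTranspose_eq_transpose_of_trivial] at hB
  exact ⟨B, hB.symm⟩

lemma gram_pos {k d : ℕ} (L : Mt k d) : 0 < gram L := by
  unfold gram
  have h1 : (1 + (mat L).transpose * (mat L)).PosDef := by
    refine Matrix.PosDef.add_posSemidef Matrix.PosDef.one ?_
    have := Matrix.posSemidef_conjTranspose_mul_self (mat L)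
    rwa [Matrix.conjTranspose_eq_transpose_of_trivial] at this
  exact h1.det_pos

lemma sq_eq_trace {k d : ℕ} (X : Mt k d) : sq X = ((mat X).transpose * (mat X)).trace := by
  unfold sq Matrix.trace
  simp only [Matrix.diag_apply, Matrix.mul_apply, Matrix.transpose_apply]
  rw [Finset.sum_comm]
  refine Finset.sum_congr rfl fun i _ => Finset.sum_congr rfl fun j _ => ?_
  unfold mat
  ring

lemma sq_add {k d : ℕ} (L : Mt k d) (T : Matrix (Fin d) (Fin d) ℝ)
    (hT : T.transpose * T = 1 + (mat L).transpose * (mat L)) (G : Mt d d) :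
    sq G + sq (mulR L G) = sq (mulL T G) := by
  have h1 : mat (mulR L G) = mat L * mat G := by
    funext i j
    rfl
  have h2 : mat (mulL T G) = T * mat G := by
    funext i j
    rfl
  rw [sq_eq_trace, sq_eq_trace, sq_eq_trace, h1, h2, ← Matrix.trace_add]
  congr 1
  rw [Matrix.transpose_mul, Matrix.transpose_mul, Matrix.mul_assoc _ T.transpose,
    ← Matrix.mul_assoc T.transpose, hT, Matrix.add_mul, Matrix.mul_add, Matrix.one_mul]
  congr 1
  simp only [Matrix.mul_assoc]

lemma measurable_mulR {k d : ℕ} : Measurable (fun z : Mt k d × Mt d d => mulR z.1 z.2) := by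
  have : Continuous (fun z : Mt k d × Mt d d => mulR z.1 z.2) := by
    refine continuous_pi fun i => continuous_pi fun j => ?_
    unfold mulR Matrix.vecMul dotProduct mat
    fun_prop
  exact this.measurable

lemma continuous_mat_det {d : ℕ} : Continuous (fun G : Mt d d => (mat G).det) := by
  have h : Continuous (fun G : Mt d d => mat G) := continuous_id
  exact h.matrix_det

lemma measurable_sol {k d : ℕ} : Measurable (fun z : Mt d d × Mt k d => sol z.1 z.2) := by
  have hinv : ∀ l i : Fin d, Measurable (fun G : Mt d d => (mat G)⁻¹ l i) := by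
    intro l i
    have h1 : (fun G : Mt d d => (mat G)⁻¹ l i) =
        fun G : Mt d d => ((mat G).det)⁻¹ * (mat G).adjugate l i := by
      funext G
      rw [Matrix.inv_def, Ring.inverse_eq_inv', Matrix.smul_apply, smul_eq_mul]
    rw [h1]
    refine (continuous_mat_det.measurable.inv).mul ?_
    have h : Continuous (fun G : Mt d d => mat G) := continuous_id
    have h2 : Continuous (fun G : Mt d d => (mat G).adjugate) := h.matrix_adjugate
    have h3 : Continuous (fun G : Mt d d => (mat G).adjugate l i) :=
      (continuous_apply i).comp ((continuous_apply l).comp h2)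
    exact h3.measurable
  refine measurable_pi_iff.2 fun j => measurable_pi_iff.2 fun i => ?_
  unfold sol Matrix.vecMul dotProduct
  refine Finset.measurable_sum _ fun l _ => ?_
  refine Measurable.mul ?_ ?_
  · exact (measurable_pi_apply l).comp ((measurable_pi_apply j).comp measurable_snd)
  · exact (hinv l i).comp measurable_fst

lemma measurable_mulL {k d : ℕ} (T : Matrix (Fin d) (Fin d) ℝ) :
    Measurable (fun L : Mt d k => mulL T L) := by
  have : Continuous (fun L : Mt d k => mulL T L) := by
    refine continuous_pi fun i => continuous_pi fun j => ?_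
    unfold mulL
    fun_prop
  exact this.measurable

/-- The density of the coordinate matrix, up to a constant. -/
noncomputable def Wt {k d : ℕ} (L : Mt k d) : ℝ≥0∞ := ENNReal.ofReal ((√(gram L))⁻¹ ^ (k + d))

lemma measurable_gram {k d : ℕ} : Measurable (gram : Mt k d → ℝ) := by
  have h : Continuous (fun L : Mt k d => mat L) := continuous_id
  have h2 : Continuous (fun L : Mt k d => (mat L).transpose) := h.matrix_transpose
  have h3 : Continuous (fun L : Mt k d => (mat L).transpose * mat L) := h2.matrix_mul h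
  have h4 : Continuous (fun L : Mt k d => 1 + (mat L).transpose * mat L) := continuous_const.add h3
  exact (h4.matrix_det).measurable

lemma measurable_Wt {k d : ℕ} : Measurable (Wt : Mt k d → ℝ≥0∞) := by
  unfold Wt
  have := @measurable_gram k d
  fun_prop

/-- The integrand of the constant. -/
noncomputable def gK (k d : ℕ) (G : Mt d d) : ℝ≥0∞ :=
  ENNReal.ofReal ((√(2 * Real.pi))⁻¹ ^ (k * d)) * den d d G * ENNReal.ofReal (|(mat G).det| ^ k)

lemma measurable_gK (k d : ℕ) : Measurable (gK k d) := by
  unfold gK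
  have h1 := @measurable_den d d
  have h2 : Measurable (fun G : Mt d d => (mat G).det) := continuous_mat_det.measurable
  fun_prop

lemma inner_int {k d : ℕ} (L : Mt k d) :
    ∫⁻ G : Mt d d, den d d G * ENNReal.ofReal (|(mat G).det| ^ k) * den k d (mulR L G) =
      (∫⁻ G, gK k d G) * Wt L := by
  obtain ⟨T, hT⟩ := exists_root L
  have hdet : T.det * T.det = gram L := by
    unfold gram
    rw [← hT, Matrix.det_mul, Matrix.det_transpose]
  have hT0 : T.det ≠ 0 := by
    intro h
    have := gram_pos L
    rw [← hdet, h] at this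
    simp at this
  have habs : √(gram L) = |T.det| := by
    rw [← hdet, Real.sqrt_mul_self_eq_abs]
  rw [lint_cols T hT0 (gK k d) (measurable_gK k d)]
  have key : ∀ G : Mt d d, den d d G * ENNReal.ofReal (|(mat G).det| ^ k) * den k d (mulR L G) =
      ENNReal.ofReal (|T.det|⁻¹ ^ k) * gK k d (mulL T G) := by
    intro G
    unfold gK
    rw [den_eq, den_eq, den_eq, ← sq_add L T hT G]
    have h2 : mat (mulL T G) = T * mat G := by
      funext i j
      rfl
    rw [h2, Matrix.det_mul, abs_mul, mul_pow]
    have hTp : 0 < |T.det| := abs_pos.2 hT0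
    rw [← ENNReal.ofReal_mul (by positivity), ← ENNReal.ofReal_mul (by positivity),
      ← ENNReal.ofReal_mul (by positivity), ← ENNReal.ofReal_mul (by positivity),
      ← ENNReal.ofReal_mul (by positivity)]
    congr 1
    have h3 : Real.exp (-(sq G + sq (mulR L G)) / 2) =
        Real.exp (-sq G / 2) * Real.exp (-sq (mulR L G) / 2) := by
      rw [← Real.exp_add]
      congr 1
      ring
    have h4 : |T.det|⁻¹ ^ k * |T.det| ^ k = 1 := by
      rw [← mul_pow, inv_mul_cancel₀ hTp.ne', one_pow]
    rw [h3]
    linear_combination (-((√(2 * Real.pi))⁻¹ ^ (k * d) * (√(2 * Real.pi))⁻¹ ^ (d * d) *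
      Real.exp (-sq G / 2) * Real.exp (-sq (mulR L G) / 2) * |(mat G).det| ^ k)) * h4
  simp_rw [key]
  have hgm : Measurable (fun G : Mt d d => gK k d (mulL T G)) :=
    (measurable_gK k d).comp (measurable_mulL T)
  rw [lintegral_const_mul _ hgm]
  unfold Wt
  have hTp : 0 < |T.det| := abs_pos.2 hT0
  have h5 : ENNReal.ofReal (|T.det| ^ d) * ENNReal.ofReal (|T.det|⁻¹ ^ (k + d)) =
      ENNReal.ofReal (|T.det|⁻¹ ^ k) := by
    rw [← ENNReal.ofReal_mul (by positivity)]
    congr 1
    have h4 : |T.det|⁻¹ ^ d * |T.det| ^ d = 1 := by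
      rw [← mul_pow, inv_mul_cancel₀ hTp.ne', one_pow]
    rw [pow_add]
    linear_combination (|T.det|⁻¹ ^ k) * h4
  rw [habs, ← h5]
  ring

lemma lint_mulR {k d : ℕ} (G : Mt d d) (hG : (mat G).det ≠ 0)
    (f : Mt k d → ℝ≥0∞) (hf : Measurable f) :
    ∫⁻ X, f X = ENNReal.ofReal (|(mat G).det| ^ k) * ∫⁻ L : Mt k d, f (mulR L G) :=
  lint_rows (mat G) hG f hf

/-- One step of the change of variables. -/
lemma step_one {k d : ℕ} (S : Set (Mt k d)) (hS : MeasurableSet S) (G : Mt d d)
    (hG : (mat G).det ≠ 0) :
    den d d G * ∫⁻ X, den k d X * S.indicator (fun _ => (1 : ℝ≥0∞)) (sol G X) =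
      ∫⁻ L : Mt k d, den d d G * ENNReal.ofReal (|(mat G).det| ^ k) * den k d (mulR L G) *
        S.indicator (fun _ => (1 : ℝ≥0∞)) L := by
  have hmS : Measurable (S.indicator (fun _ : Mt k d => (1 : ℝ≥0∞))) :=
    measurable_const.indicator hS
  have hsolG : Measurable (fun X : Mt k d => sol G X) :=
    measurable_sol.comp (measurable_const.prodMk measurable_id)
  have hf : Measurable (fun X : Mt k d =>
      den k d X * S.indicator (fun _ => (1 : ℝ≥0∞)) (sol G X)) :=
    measurable_den.mul (hmS.comp hsolG)
  have hmR : Measurable (fun L : Mt k d => mulR L G) :=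
    measurable_mulR.comp (measurable_id.prodMk measurable_const)
  have hf2 : Measurable (fun L : Mt k d =>
      den k d (mulR L G) * S.indicator (fun _ => (1 : ℝ≥0∞)) L) :=
    (measurable_den.comp hmR).mul hmS
  have e0 := lint_mulR G hG _ hf
  have e3 : ∀ L : Mt k d, den k d (mulR L G) *
      S.indicator (fun _ => (1 : ℝ≥0∞)) (sol G (mulR L G)) =
      den k d (mulR L G) * S.indicator (fun _ => (1 : ℝ≥0∞)) L := by
    intro L
    rw [sol_mulR L G hG]
  calc den d d G * ∫⁻ X, den k d X * S.indicator (fun _ => (1 : ℝ≥0∞)) (sol G X) =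
      den d d G * (ENNReal.ofReal (|(mat G).det| ^ k) * ∫⁻ L : Mt k d, den k d (mulR L G) *
        S.indicator (fun _ => (1 : ℝ≥0∞)) (sol G (mulR L G))) := congrArg _ e0
    _ = den d d G * (ENNReal.ofReal (|(mat G).det| ^ k) * ∫⁻ L : Mt k d, den k d (mulR L G) *
        S.indicator (fun _ => (1 : ℝ≥0∞)) L) := by
        rw [lintegral_congr e3]
    _ = (den d d G * ENNReal.ofReal (|(mat G).det| ^ k)) * ∫⁻ L : Mt k d, den k d (mulR L G) *
        S.indicator (fun _ => (1 : ℝ≥0∞)) L := by rw [mul_assoc]
    _ = ∫⁻ L : Mt k d, (den d d G * ENNReal.ofReal (|(mat G).det| ^ k)) *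
        (den k d (mulR L G) * S.indicator (fun _ => (1 : ℝ≥0∞)) L) :=
        (lintegral_const_mul _ hf2).symm
    _ = _ := by
        refine lintegral_congr fun L => ?_
        rw [← mul_assoc]

/-- The law of the coordinates of `k` Gaussian vectors in a Gaussian basis. -/
theorem law_sol {k d : ℕ} (S : Set (Mt k d)) (hS : MeasurableSet S) :
    ∫⁻ G, gm k d {X | sol G X ∈ S} ∂(gm d d) = (∫⁻ G, gK k d G) * ∫⁻ L in S, Wt L := by
  have hmS : Measurable (S.indicator (fun _ : Mt k d => (1 : ℝ≥0∞))) :=
    measurable_const.indicator hS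
  have hsolG : ∀ G : Mt d d, Measurable (fun X : Mt k d => sol G X) := fun G =>
    measurable_sol.comp (measurable_const.prodMk measurable_id)
  have e1 : ∀ G : Mt d d, gm k d {X | sol G X ∈ S} =
      ∫⁻ X, den k d X * S.indicator (fun _ => (1 : ℝ≥0∞)) (sol G X) := by
    intro G
    have hs : MeasurableSet {X | sol G X ∈ S} := hsolG G hS
    rw [gm_eq, withDensity_apply _ hs, ← lintegral_indicator hs]
    refine lintegral_congr fun X => ?_
    by_cases h : sol G X ∈ S
    · rw [Set.indicator_of_mem (by exact h), Set.indicator_of_mem h, mul_one]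
    · rw [Set.indicator_of_notMem (by exact h), Set.indicator_of_notMem h, mul_zero]
  have hm0 : Measurable (fun z : Mt d d × Mt k d =>
      den k d z.2 * S.indicator (fun _ => (1 : ℝ≥0∞)) (sol z.1 z.2)) :=
    (measurable_den.comp measurable_snd).mul (hmS.comp measurable_sol)
  have hm1 : Measurable (fun G : Mt d d =>
      ∫⁻ X, den k d X * S.indicator (fun _ => (1 : ℝ≥0∞)) (sol G X)) :=
    hm0.lintegral_prod_right'
  simp_rw [e1]
  rw [gm_eq d d, lintegral_withDensity_eq_lintegral_mul _ measurable_den hm1]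
  have e2 : ∀ᵐ G ∂(volume : Measure (Mt d d)), (den d d * fun G : Mt d d =>
      ∫⁻ X, den k d X * S.indicator (fun _ => (1 : ℝ≥0∞)) (sol G X)) G =
      ∫⁻ L : Mt k d, den d d G * ENNReal.ofReal (|(mat G).det| ^ k) * den k d (mulR L G) *
        S.indicator (fun _ => (1 : ℝ≥0∞)) L := by
    filter_upwards [vol_det d] with G hG
    exact step_one S hS G hG
  rw [lintegral_congr_ae e2]
  have hmm : Measurable (fun z : Mt d d × Mt k d =>
      den d d z.1 * ENNReal.ofReal (|(mat z.1).det| ^ k) * den k d (mulR z.2 z.1) *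
        S.indicator (fun _ => (1 : ℝ≥0∞)) z.2) := by
    have a1 : Measurable (fun z : Mt d d × Mt k d => den d d z.1) :=
      measurable_den.comp measurable_fst
    have a2 : Measurable (fun z : Mt d d × Mt k d => (mat z.1).det) :=
      continuous_mat_det.measurable.comp measurable_fst
    have a3 : Measurable (fun z : Mt d d × Mt k d => den k d (mulR z.2 z.1)) :=
      measurable_den.comp (measurable_mulR.comp measurable_swap)
    have a4 : Measurable (fun z : Mt d d × Mt k d => S.indicator (fun _ => (1 : ℝ≥0∞)) z.2) :=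
      hmS.comp measurable_snd
    exact ((a1.mul (by fun_prop)).mul a3).mul a4
  rw [lintegral_lintegral_swap hmm.aemeasurable]
  have e4 : ∀ L : Mt k d, ∫⁻ G : Mt d d, den d d G * ENNReal.ofReal (|(mat G).det| ^ k) *
      den k d (mulR L G) * S.indicator (fun _ => (1 : ℝ≥0∞)) L =
      (∫⁻ G, gK k d G) * S.indicator (fun L => Wt L) L := by
    intro L
    by_cases h : L ∈ S
    · rw [Set.indicator_of_mem h, Set.indicator_of_mem h]
      simp_rw [mul_one]
      exact inner_int L
    · rw [Set.indicator_of_notMem h, Set.indicator_of_notMem h]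
      simp
  simp_rw [e4]
  rw [lintegral_const_mul _ (measurable_Wt.indicator hS), lintegral_indicator hS]

/-- The probability that `k` Gaussian vectors lie in the positive hull of `d` Gaussian vectors. -/
noncomputable def PP (d k : ℕ) : ℝ≥0∞ :=
  ∫⁻ G, gm k d {X | ∀ j i, 0 ≤ sol G X j i} ∂(gm d d)

lemma measurableSet_nn (k d : ℕ) : MeasurableSet {L : Mt k d | ∀ j i, 0 ≤ L j i} := by
  have : {L : Mt k d | ∀ j i, 0 ≤ L j i} = ⋂ j, ⋂ i, {L | 0 ≤ L j i} := by
    ext L; simp
  rw [this]
  refine MeasurableSet.iInter fun j => MeasurableSet.iInter fun i => ?_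
  exact measurableSet_le measurable_const ((measurable_pi_apply i).comp (measurable_pi_apply j))

lemma PP_eq (d k : ℕ) : PP d k =
    (∫⁻ L : Mt k d, Wt L)⁻¹ * ∫⁻ L in {L : Mt k d | ∀ j i, 0 ≤ L j i}, Wt L := by
  have h1 := law_sol (k := k) (d := d) _ (measurableSet_nn k d)
  have h2 := law_sol (k := k) (d := d) Set.univ MeasurableSet.univ
  have h3 : ∫⁻ G, gm k d {X | sol G X ∈ Set.univ} ∂(gm d d) = 1 := by
    simp
  rw [h3, Measure.restrict_univ] at h2
  unfold PP
  rw [show (∫⁻ G, gm k d {X | ∀ j i, 0 ≤ sol G X j i} ∂(gm d d)) = _ from h1]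
  congr 1
  have h4 := h2.symm
  exact (ENNReal.eq_inv_of_mul_eq_one_left h4)

/-- Symmetry of the moments. -/
theorem PP_symm (d k : ℕ) : PP d k = PP k d := by
  rw [PP_eq, PP_eq]
  have hW : ∀ L : Mt k d, Wt (fun i j => L j i : Mt d k) = Wt L := by
    intro L
    unfold Wt
    rw [gram_transpose, add_comm]
  have h1 : ∫⁻ L : Mt k d, Wt L = ∫⁻ L : Mt d k, Wt L := by
    rw [← (vol_transpose k d).lintegral_comp measurable_Wt]
    simp_rw [hW]
  have h2 : ∫⁻ L in {L : Mt k d | ∀ j i, 0 ≤ L j i}, Wt L =
      ∫⁻ L in {L : Mt d k | ∀ j i, 0 ≤ L j i}, Wt L := by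
    rw [← lintegral_indicator (measurableSet_nn k d), ← lintegral_indicator (measurableSet_nn d k)]
    rw [← (vol_transpose k d).lintegral_comp (measurable_Wt.indicator (measurableSet_nn d k))]
    refine lintegral_congr fun L => ?_
    by_cases h : ∀ j i, 0 ≤ L j i
    · rw [Set.indicator_of_mem (by exact h), Set.indicator_of_mem (by exact fun j i => h i j), hW]
    · rw [Set.indicator_of_notMem (by exact h),
        Set.indicator_of_notMem (by exact fun hh => h fun j i => hh i j)]
  rw [h1, h2]

end Pool.Agent.Q215.Cone
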