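import Pool.Agent.Q215.Cone.GTwo

open MeasureTheory Filter Topology Finset
open scoped ENNReal

namespace Pool.Agent.Q215.Cone

variable {m : ℕ} {B : Matrix (Fin m) (Fin m) ℝ}

lemma integrable_abs_coord (j : Fin m) : Integrable (fun x : Fin m → ℝ => |x j|) (ga m) := by
  have h1 : Integrable (fun x : ℝ => |x|) g1 := by
    have := ProbabilityTheory.memLp_id_gaussianReal' (μ := 0) (v := 1) 1 (by simp)
    exact (memLp_one_iff_integrable.1 this).norm
  have h2 : MeasurePreserving (fun x : Fin m → ℝ => x j) (ga m) g1 :=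
    measurePreserving_eval (fun _ : Fin m => g1) j
  exact h2.integrable_comp_of_integrable h1

lemma integrable_sq_coord (j : Fin m) : Integrable (fun x : Fin m → ℝ => x j ^ 2) (ga m) := by
  have h1 : Integrable (fun x : ℝ => x ^ 2) g1 := by
    have := ProbabilityTheory.memLp_id_gaussianReal' (μ := 0) (v := 1) 2 (by simp)
    exact this.integrable_sq
  have h2 : MeasurePreserving (fun x : Fin m → ℝ => x j) (ga m) g1 :=
    measurePreserving_eval (fun _ : Fin m => g1) j
  exact h2.integrable_comp_of_integrable h1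

lemma integrable_nrm_sq : Integrable (fun x : Fin m → ℝ => nrm x ^ 2) (ga m) := by
  have h1 : ∀ x : Fin m → ℝ, nrm x ^ 2 = ∑ i, x i ^ 2 := fun x =>
    Real.sq_sqrt (Finset.sum_nonneg fun i _ => sq_nonneg _)
  simp_rw [h1]
  exact integrable_finsetSum _ fun i _ => integrable_sq_coord i

lemma phi_le (y x : Fin m → ℝ) : phi B y x ≤ ∑ i, ∑ j, |x j| * (|B⁻¹ j i| / |cc B y i|) := by
  have hnn : ∀ i, 0 ≤ ∑ j, |x j| * (|B⁻¹ j i| / |cc B y i|) := fun i =>
    Finset.sum_nonneg fun j _ => by positivity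
  unfold phi
  rw [pi_norm_le_iff_of_nonneg (Finset.sum_nonneg fun i _ => hnn i)]
  intro i
  rw [Real.norm_eq_abs, abs_of_nonneg (le_max_right _ _)]
  have h1 : ∑ j, |x j| * (|B⁻¹ j i| / |cc B y i|) ≤
      ∑ i, ∑ j, |x j| * (|B⁻¹ j i| / |cc B y i|) :=
    Finset.single_le_sum (f := fun i => ∑ j, |x j| * (|B⁻¹ j i| / |cc B y i|))
      (fun i _ => hnn i) (Finset.mem_univ i)
  refine le_trans (max_le ?_ (hnn i)) h1
  refine (le_abs_self _).trans ?_
  rw [abs_div]
  have h2 : |cc B x i| ≤ ∑ j, |x j| * |B⁻¹ j i| := by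
    unfold cc
    refine (Finset.abs_sum_le_sum_abs _ _).trans (le_of_eq ?_)
    exact Finset.sum_congr rfl fun j _ => abs_mul _ _
  refine (div_le_div_of_nonneg_right h2 (abs_nonneg _)).trans (le_of_eq ?_)
  rw [Finset.sum_div]
  exact Finset.sum_congr rfl fun j _ => mul_div_assoc _ _ _

lemma integrable_phi (y : Fin m → ℝ) : Integrable (fun x => phi B y x) (ga m) := by
  have h1 : Integrable (fun x : Fin m → ℝ => ∑ i, ∑ j, |x j| * (|B⁻¹ j i| / |cc B y i|))
      (ga m) := by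
    refine integrable_finsetSum _ fun i _ => integrable_finsetSum _ fun j _ => ?_
    exact (integrable_abs_coord j).mul_const _
  refine h1.mono' (continuous_phi y).aestronglyMeasurable
    (Filter.Eventually.of_forall fun x => ?_)
  rw [Real.norm_eq_abs, abs_of_nonneg (phi_nonneg y x)]
  exact phi_le y x

/-- The rate `κ(y)`. -/
noncomputable def kap (B : Matrix (Fin m) (Fin m) ℝ) (y : Fin m → ℝ) : ℝ :=
  2 * (gd 0 * ∫ x, phi B y x ∂(ga m))

/-- `n (1 - 2 A(r/n)) → κ r`. -/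
theorem tendsto_AA {r : ℝ} (hr : 0 < r) {y : Fin m → ℝ} (hy : ∀ i, cc B y i < 0) :
    Tendsto (fun n : ℕ => (n : ℝ) * (1 - 2 * (AA B (r / n) y).toReal)) atTop
      (𝓝 (r * kap B y)) := by
  have h1 : Tendsto (fun n : ℕ => ∫ x, (n : ℝ) * Ph (r * phi B y x / n) ∂(ga m)) atTop
      (𝓝 (∫ x, r * phi B y x * gd 0 ∂(ga m))) := by
    refine tendsto_integral_of_dominated_convergence (fun x => r * phi B y x * gd 0) ?_ ?_ ?_ ?_
    · intro n
      refine Measurable.aestronglyMeasurable ?_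
      exact (Ph_mono.measurable.comp
        (((continuous_phi y).measurable.const_mul r).div_const _)).const_mul _
    · exact ((integrable_phi y).const_mul r).mul_const _
    · intro n
      refine Filter.Eventually.of_forall fun x => ?_
      rw [Real.norm_eq_abs, abs_of_nonneg (mul_nonneg (Nat.cast_nonneg n) (Ph_nonneg _))]
      exact Ph_scale_le (mul_nonneg hr.le (phi_nonneg y x)) n
    · refine Filter.Eventually.of_forall fun x => ?_
      exact tendsto_Ph (mul_nonneg hr.le (phi_nonneg y x))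
  have h2 : ∫ x, r * phi B y x * gd 0 ∂(ga m) = r * (gd 0 * ∫ x, phi B y x ∂(ga m)) := by
    rw [← integral_const_mul, ← integral_const_mul]
    refine integral_congr_ae (Filter.Eventually.of_forall fun x => ?_)
    ring
  have h3 := h1.const_mul 2
  rw [h2] at h3
  have h4 : 2 * (r * (gd 0 * ∫ x, phi B y x ∂(ga m))) = r * kap B y := by
    unfold kap
    ring
  rw [h4] at h3
  refine h3.congr' ?_
  filter_upwards [eventually_gt_atTop 0] with n hn
  have hn' : (0 : ℝ) < n := by exact_mod_cast hn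
  rw [AA_formula (div_pos hr hn') hy, integral_const_mul]
  have h5 : ∀ x : Fin m → ℝ, r / n * phi B y x = r * phi B y x / n := fun x => by ring
  simp_rw [h5]
  ring

/-- The pointwise limit of `(2 A(r/n))^n`. -/
noncomputable def lim0 (B : Matrix (Fin m) (Fin m) ℝ) (y : Fin m → ℝ) (r : ℝ) : ℝ :=
  open Classical in
  if ∀ i, cc B y i < 0 then Real.exp (-(|r| * kap B y)) else 0

theorem tendsto_pow (hB : B.det ≠ 0) {r : ℝ} (hr : r ≠ 0) (y : Fin m → ℝ) :
    Tendsto (fun n : ℕ => (2 * (AA B (r / n) y).toReal) ^ n) atTop (𝓝 (lim0 B y r)) := by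
  have habs : ∀ n : ℕ, AA B (r / n) y = AA B (|r| / n) y := by
    intro n
    rw [AA_abs, abs_div, Nat.abs_cast]
  simp_rw [habs]
  have hr' : 0 < |r| := abs_pos.2 hr
  unfold lim0
  split_ifs with hy
  · have h1 := tendsto_AA (B := B) hr' hy
    have h2 : Tendsto (fun n : ℕ => (n : ℝ) * (-(1 - 2 * (AA B (|r| / n) y).toReal))) atTop
        (𝓝 (-(|r| * kap B y))) := by
      refine h1.neg.congr fun n => ?_
      ring
    have h3 := Real.tendsto_one_add_pow_exp_of_tendsto h2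
    refine h3.congr fun n => ?_
    congr 1
    ring
  · push Not at hy
    obtain ⟨i, hi⟩ := hy
    have h1 : Tendsto (fun n : ℕ => ((1 : ℝ) / 2) ^ n) atTop (𝓝 0) :=
      tendsto_pow_atTop_nhds_zero_of_lt_one (by norm_num) (by norm_num)
    refine squeeze_zero' ?_ ?_ h1
    · exact Filter.Eventually.of_forall fun n => by positivity
    · filter_upwards [eventually_gt_atTop 0] with n hn
      have hn' : (0 : ℝ) < n := by exact_mod_cast hn
      exact pow_le_pow_left₀ (by positivity) (AA_quarter hB (div_pos hr' hn') i hi) n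

/-- The constant in the domination. -/
noncomputable def c0 : ℝ := 2 * (p1 * gd 1)

lemma c0_pos : 0 < c0 := by
  unfold c0
  have := p1_pos
  have := gd_pos 1
  positivity

lemma exp_neg_le (x : ℝ) (hx : 0 ≤ x) : Real.exp (-x) ≤ 2 / (1 + x ^ 2) := by
  rw [le_div_iff₀ (by positivity)]
  have h1 : 1 + x + x ^ 2 / 2 ≤ Real.exp x := Real.quadratic_le_exp_of_nonneg hx
  have h2 : Real.exp (-x) * Real.exp x = 1 := by
    rw [← Real.exp_add]
    simp
  have h3 : 0 < Real.exp (-x) := Real.exp_pos _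
  nlinarith

lemma exp_neg_le2 (x : ℝ) (hx : 0 < x) : Real.exp (-x) ≤ 2 / x ^ 2 := by
  rw [le_div_iff₀ (by positivity)]
  have h1 : 1 + x + x ^ 2 / 2 ≤ Real.exp x := Real.quadratic_le_exp_of_nonneg hx.le
  have h2 : Real.exp (-x) * Real.exp x = 1 := by
    rw [← Real.exp_add]
    simp
  have h3 : 0 < Real.exp (-x) := Real.exp_pos _
  nlinarith

/-- The absolute constant of the domination. -/
noncomputable def K0 : ℝ := 2 + 6 / c0 ^ 2

lemma K0_pos : 0 < K0 := by
  unfold K0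
  have := c0_pos
  positivity

/-- Domination. -/
theorem dom (hB : B.det ≠ 0) (i0 : Fin m) {r : ℝ} (hr : r ≠ 0) {y : Fin m → ℝ} (hy : y ≠ 0)
    {n : ℕ} (hn : 0 < n) :
    (2 * (AA B (r / n) y).toReal) ^ n * gd (r / n) ≤
      gd 0 * (K0 * ((1 + nrm y ^ 2) * (1 + r ^ 2)⁻¹)) := by
  have hn' : (0 : ℝ) < n := by exact_mod_cast hn
  have hn1 : (1 : ℝ) ≤ n := by exact_mod_cast hn
  have hc := c0_pos
  have hr' : 0 < |r| := abs_pos.2 hr
  have hny := nrm_pos hy
  have habs : AA B (r / n) y = AA B (|r| / n) y := by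
    rw [AA_abs, abs_div, Nat.abs_cast]
  have h1 := AA_bound hB i0 (div_pos hr' hn') hy
  have h2 : c0 * min (|r| / n / nrm y) 1 ≤ 2 * (p1 * Ph (|r| / n / nrm y)) := by
    have h3 := Ph_lower (u := |r| / n / nrm y) (by positivity)
    have h4 := mul_le_mul_of_nonneg_left h3 p1_pos.le
    unfold c0
    nlinarith
  have h5 : 2 * (AA B (r / n) y).toReal ≤ Real.exp (-(c0 * min (|r| / n / nrm y) 1)) := by
    rw [habs]
    have := Real.add_one_le_exp (-(c0 * min (|r| / n / nrm y) 1))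
    linarith
  have h6 : (2 * (AA B (r / n) y).toReal) ^ n ≤
      Real.exp (-(n * (c0 * min (|r| / n / nrm y) 1))) := by
    refine (pow_le_pow_left₀ (by positivity) h5 n).trans (le_of_eq ?_)
    rw [← Real.exp_nat_mul]
    congr 1
    ring
  have h7 : Real.exp (-(n * (c0 * min (|r| / n / nrm y) 1))) ≤
      Real.exp (-(c0 * |r| / nrm y)) + Real.exp (-(c0 * n)) := by
    rcases le_total (|r| / n / nrm y) 1 with h | h
    · rw [min_eq_left h]
      have : (n : ℝ) * (c0 * (|r| / n / nrm y)) = c0 * |r| / nrm y := by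
        field_simp
      rw [this]
      have := Real.exp_pos (-(c0 * n))
      linarith
    · rw [min_eq_right h]
      have : (n : ℝ) * (c0 * 1) = c0 * n := by ring
      rw [this]
      have := Real.exp_pos (-(c0 * |r| / nrm y))
      linarith
  have h8 : gd (r / n) = gd 0 * Real.exp (-((r / n) ^ 2 / 2)) := by
    unfold gd
    rw [mul_assoc, ← Real.exp_add]
    congr 2
    ring
  have he1 : Real.exp (-((r / n) ^ 2 / 2)) ≤ 1 := by
    rw [Real.exp_le_one_iff]
    have : 0 ≤ (r / n) ^ 2 / 2 := by positivity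
    linarith
  have he2 : Real.exp (-((r / n) ^ 2 / 2)) ≤ 2 * n ^ 2 / (1 + r ^ 2) := by
    have h9 := Real.add_one_le_exp ((r / n) ^ 2 / 2)
    have h10 : Real.exp (-((r / n) ^ 2 / 2)) = (Real.exp ((r / n) ^ 2 / 2))⁻¹ := Real.exp_neg _
    rw [h10]
    have h11 : (1 + r ^ 2) / (2 * n ^ 2) ≤ Real.exp ((r / n) ^ 2 / 2) := by
      refine le_trans ?_ h9
      rw [div_pow, div_div, div_add_one (by positivity)]
      rw [div_le_div_iff₀ (by positivity) (by positivity)]
      have : (1 : ℝ) ≤ (n : ℝ) ^ 2 := one_le_pow₀ hn1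
      nlinarith [sq_nonneg r, sq_nonneg (n : ℝ)]
    refine (inv_anti₀ (by positivity) h11).trans (le_of_eq ?_)
    rw [inv_div]
  have hA : Real.exp (-(c0 * |r| / nrm y)) ≤ 2 * (1 + nrm y ^ 2 / c0 ^ 2) * (1 + r ^ 2)⁻¹ := by
    refine (exp_neg_le _ (by positivity)).trans ?_
    rw [← div_eq_mul_inv, div_le_div_iff₀ (by positivity) (by positivity)]
    have h12 : (c0 * |r| / nrm y) ^ 2 = c0 ^ 2 * r ^ 2 / nrm y ^ 2 := by
      rw [div_pow, mul_pow, sq_abs]
    rw [h12]
    have h13 : (1 + nrm y ^ 2 / c0 ^ 2) * (1 + c0 ^ 2 * r ^ 2 / nrm y ^ 2) =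
        1 + r ^ 2 + nrm y ^ 2 / c0 ^ 2 + c0 ^ 2 * r ^ 2 / nrm y ^ 2 := by
      field_simp
      ring
    have h14 : 0 ≤ nrm y ^ 2 / c0 ^ 2 := by positivity
    have h15 : 0 ≤ c0 ^ 2 * r ^ 2 / nrm y ^ 2 := by positivity
    nlinarith
  have hBd : Real.exp (-(c0 * n)) * Real.exp (-((r / n) ^ 2 / 2)) ≤
      4 / c0 ^ 2 * (1 + r ^ 2)⁻¹ := by
    have h16 := exp_neg_le2 (c0 * n) (by positivity)
    calc Real.exp (-(c0 * n)) * Real.exp (-((r / n) ^ 2 / 2)) ≤
        2 / (c0 * n) ^ 2 * (2 * n ^ 2 / (1 + r ^ 2)) :=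
          mul_le_mul h16 he2 (Real.exp_pos _).le (by positivity)
      _ = 4 / c0 ^ 2 * (1 + r ^ 2)⁻¹ := by
          field_simp
          ring
  rw [h8]
  have hfin : (2 * (AA B (r / n) y).toReal) ^ n * Real.exp (-((r / n) ^ 2 / 2)) ≤
      K0 * ((1 + nrm y ^ 2) * (1 + r ^ 2)⁻¹) := by
    calc (2 * (AA B (r / n) y).toReal) ^ n * Real.exp (-((r / n) ^ 2 / 2)) ≤
        (Real.exp (-(c0 * |r| / nrm y)) + Real.exp (-(c0 * n))) *
          Real.exp (-((r / n) ^ 2 / 2)) :=
          mul_le_mul_of_nonneg_right (h6.trans h7) (Real.exp_pos _).le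
      _ = Real.exp (-(c0 * |r| / nrm y)) * Real.exp (-((r / n) ^ 2 / 2)) +
          Real.exp (-(c0 * n)) * Real.exp (-((r / n) ^ 2 / 2)) := by ring
      _ ≤ 2 * (1 + nrm y ^ 2 / c0 ^ 2) * (1 + r ^ 2)⁻¹ * 1 + 4 / c0 ^ 2 * (1 + r ^ 2)⁻¹ := by
          refine add_le_add (mul_le_mul hA he1 (Real.exp_pos _).le (by positivity)) hBd
      _ = (2 + 4 / c0 ^ 2 + 2 / c0 ^ 2 * nrm y ^ 2) * (1 + r ^ 2)⁻¹ := by ring
      _ ≤ (K0 * (1 + nrm y ^ 2)) * (1 + r ^ 2)⁻¹ := by
          refine mul_le_mul_of_nonneg_right ?_ (by positivity)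
          unfold K0
          have h17 : 0 < 1 / c0 ^ 2 := by positivity
          have h18 : 0 ≤ nrm y ^ 2 := by positivity
          have e1 : 4 / c0 ^ 2 = 4 * (1 / c0 ^ 2) := by ring
          have e2 : 2 / c0 ^ 2 = 2 * (1 / c0 ^ 2) := by ring
          have e3 : 6 / c0 ^ 2 = 6 * (1 / c0 ^ 2) := by ring
          rw [e1, e2, e3]
          nlinarith [mul_nonneg h17.le h18]
      _ = _ := by ring
  calc (2 * (AA B (r / n) y).toReal) ^ n * (gd 0 * Real.exp (-((r / n) ^ 2 / 2))) =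
      gd 0 * ((2 * (AA B (r / n) y).toReal) ^ n * Real.exp (-((r / n) ^ 2 / 2))) := by ring
    _ ≤ _ := mul_le_mul_of_nonneg_left hfin (gd_pos 0).le

end Pool.Agent.Q215.Cone
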