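import Pool.Agent.Q215.Cone.GOne

open MeasureTheory Filter Topology Finset
open scoped ENNReal

namespace Pool.Agent.Q215.Cone

/-- The Euclidean norm of a tuple. -/
noncomputable def nrm {m : ℕ} (x : Fin m → ℝ) : ℝ := √(∑ i, x i ^ 2)

lemma nrm_nonneg {m : ℕ} (x : Fin m → ℝ) : 0 ≤ nrm x := Real.sqrt_nonneg _

lemma nrm_pos {m : ℕ} {x : Fin m → ℝ} (hx : x ≠ 0) : 0 < nrm x := by
  refine Real.sqrt_pos.2 ?_
  obtain ⟨i, hi⟩ := Function.ne_iff.1 hx
  refine Finset.sum_pos' (fun j _ => sq_nonneg _) ⟨i, Finset.mem_univ i, ?_⟩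
  have : x i ≠ 0 := hi
  positivity

lemma measurable_nrm {m : ℕ} : Measurable (nrm : (Fin m → ℝ) → ℝ) := by
  unfold nrm
  fun_prop

/-- Cauchy-Schwarz. -/
lemma neg_le_dot {m : ℕ} (x a : Fin m → ℝ) : -(nrm x * nrm a) ≤ ∑ i, x i * a i := by
  have h := Real.sum_mul_le_sqrt_mul_sqrt Finset.univ (fun i => -x i) a
  have e1 : ∑ i, (-x i) * a i = -∑ i, x i * a i := by
    rw [← Finset.sum_neg_distrib]
    exact Finset.sum_congr rfl fun i _ => by ring
  have e2 : ∑ i, (-x i) ^ 2 = ∑ i, x i ^ 2 := Finset.sum_congr rfl fun i _ => by ring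
  rw [e1, e2] at h
  unfold nrm
  linarith

/-- An orthogonal matrix with a given first column. -/
lemma exists_orth_col {m : ℕ} (a : Fin (m + 1) → ℝ) (ha : ∑ i, a i ^ 2 = 1) :
    ∃ O : Matrix (Fin (m + 1)) (Fin (m + 1)) ℝ, O.transpose * O = 1 ∧ ∀ i, O i 0 = a i := by
  let v : E (m + 1) := WithLp.toLp 2 a
  have hv1 : ‖v‖ = 1 := by
    rw [EuclideanSpace.norm_eq]
    have : ∑ i, ‖v i‖ ^ 2 = 1 := by
      rw [← ha]
      refine Finset.sum_congr rfl fun i _ => ?_
      rw [Real.norm_eq_abs, sq_abs]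
    rw [this, Real.sqrt_one]
  have hon : Orthonormal ℝ (({0} : Set (Fin (m + 1))).restrict fun _ => v) := by
    constructor
    · intro i
      exact hv1
    · intro i j hij
      exact absurd (Subsingleton.elim i j) hij
  obtain ⟨b, hb⟩ := hon.exists_orthonormalBasis_extension_of_card_eq (by simp)
  have hb0 : b 0 = v := hb 0 rfl
  refine ⟨Matrix.of fun i j => (b j) i, ?_, ?_⟩
  · ext i j
    have h2 := (orthonormal_iff_ite.1 b.orthonormal) i j
    rw [Matrix.mul_apply, Matrix.one_apply]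
    simp only [Matrix.transpose_apply, Matrix.of_apply]
    rw [← h2, EuclideanSpace.inner_eq_star_dotProduct]
    simp only [star_trivial]
    unfold dotProduct
    refine Finset.sum_congr rfl fun l _ => ?_
    ring
  · intro i
    change (b 0) i = a i
    rw [hb0]

/-- Linear functionals of a standard Gaussian vector. -/
lemma ga_lin {m : ℕ} (a : Fin m → ℝ) (ha : a ≠ 0) :
    MeasurePreserving (fun x : Fin m → ℝ => (∑ i, x i * a i) / nrm a) (ga m) g1 := by
  cases m with
  | zero => exact absurd (Subsingleton.elim a 0) ha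
  | succ m =>
    have hn := nrm_pos ha
    have h1 : ∑ i, (a i / nrm a) ^ 2 = 1 := by
      simp_rw [div_pow]
      rw [← Finset.sum_div]
      have : nrm a ^ 2 = ∑ i, a i ^ 2 :=
        Real.sq_sqrt (Finset.sum_nonneg fun i _ => sq_nonneg _)
      rw [← this]
      exact div_self (by positivity)
    obtain ⟨O, hO, hO1⟩ := exists_orth_col (fun i => a i / nrm a) h1
    have h2 := ga_orth O hO
    have h3 : MeasurePreserving (fun x : Fin (m + 1) → ℝ => x 0) (ga (m + 1)) g1 :=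
      measurePreserving_eval (fun _ : Fin (m + 1) => g1) 0
    have h4 := h3.comp h2
    have h5 : (fun x : Fin (m + 1) → ℝ => (∑ i, x i * a i) / nrm a) =
        (fun x : Fin (m + 1) → ℝ => x 0) ∘ fun x => Matrix.vecMul x O := by
      funext x
      simp only [Function.comp_apply]
      unfold Matrix.vecMul dotProduct
      rw [Finset.sum_div]
      refine Finset.sum_congr rfl fun i _ => ?_
      change x i * a i / nrm a = x i * O i 0
      rw [hO1 i]
      ring
    rw [h5]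
    exact h4

variable {m : ℕ} {B : Matrix (Fin m) (Fin m) ℝ}

/-- Coordinates with respect to the rows of `B`. -/
noncomputable def cc (B : Matrix (Fin m) (Fin m) ℝ) (x : Fin m → ℝ) (i : Fin m) : ℝ :=
  ∑ j, x j * B⁻¹ j i

lemma vecMul_eq_cc (x : Fin m → ℝ) (i : Fin m) : Matrix.vecMul x B⁻¹ i = cc B x i := rfl

lemma cc_sub_smul (x y : Fin m → ℝ) (t : ℝ) (i : Fin m) :
    cc B (x - t • y) i = cc B x i - t * cc B y i := by
  unfold cc
  rw [Finset.mul_sum, ← Finset.sum_sub_distrib]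
  refine Finset.sum_congr rfl fun j _ => ?_
  simp only [Pi.sub_apply, Pi.smul_apply, smul_eq_mul]
  ring

lemma continuous_cc (i : Fin m) : Continuous (fun x => cc B x i) := by
  unfold cc
  fun_prop

lemma AA_def (s : ℝ) (y : Fin m → ℝ) : AA B s y =
    (g1.prod (ga m)) {z | 0 ≤ z.1 / s ∧ ∀ i, (z.1 / s) * cc B y i ≤ cc B z.2 i} := by
  unfold AA
  congr 1
  ext z
  simp only [Set.mem_setOf_eq, vecMul_eq_cc, cc_sub_smul, sub_nonneg]

lemma AA_neg (s : ℝ) (y : Fin m → ℝ) : AA B (-s) y = AA B s y := by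
  rw [AA_def, AA_def]
  have h1 : MeasurePreserving (fun z : ℝ × (Fin m → ℝ) => (-z.1, z.2)) (g1.prod (ga m))
      (g1.prod (ga m)) := g1_neg.prod (MeasurePreserving.id (ga m))
  have hset : MeasurableSet {z : ℝ × (Fin m → ℝ) | 0 ≤ z.1 / s ∧
      ∀ i, (z.1 / s) * cc B y i ≤ cc B z.2 i} := by
    have h2 : {z : ℝ × (Fin m → ℝ) | 0 ≤ z.1 / s ∧
      ∀ i, (z.1 / s) * cc B y i ≤ cc B z.2 i} = {z : ℝ × (Fin m → ℝ) | 0 ≤ z.1 / s} ∩
      ⋂ i, {z : ℝ × (Fin m → ℝ) | (z.1 / s) * cc B y i ≤ cc B z.2 i} := by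
      ext z; simp
    rw [h2]
    refine (measurableSet_le measurable_const (by fun_prop)).inter
      (MeasurableSet.iInter fun i => measurableSet_le (by fun_prop) ?_)
    exact (continuous_cc i).measurable.comp measurable_snd
  rw [← h1.measure_preimage hset.nullMeasurableSet]
  congr 1
  ext z
  simp only [Set.mem_preimage, Set.mem_setOf_eq, div_neg, neg_div]

lemma AA_abs (s : ℝ) (y : Fin m → ℝ) : AA B s y = AA B |s| y := by
  rcases abs_choice s with h | h
  · rw [h]
  · rw [h, AA_neg]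

lemma AA_le_one (s : ℝ) (y : Fin m → ℝ) : AA B s y ≤ 1 := prob_le_one

lemma measurableSet_E (s : ℝ) (y : Fin m → ℝ) : MeasurableSet {z : ℝ × (Fin m → ℝ) |
    0 ≤ z.1 / s ∧ ∀ i, (z.1 / s) * cc B y i ≤ cc B z.2 i} := by
  have h2 : {z : ℝ × (Fin m → ℝ) | 0 ≤ z.1 / s ∧
    ∀ i, (z.1 / s) * cc B y i ≤ cc B z.2 i} = {z : ℝ × (Fin m → ℝ) | 0 ≤ z.1 / s} ∩
    ⋂ i, {z : ℝ × (Fin m → ℝ) | (z.1 / s) * cc B y i ≤ cc B z.2 i} := by
    ext z; simp
  rw [h2]
  refine (measurableSet_le measurable_const (by fun_prop)).inter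
    (MeasurableSet.iInter fun i => measurableSet_le (by fun_prop) ?_)
  exact (continuous_cc i).measurable.comp measurable_snd

lemma col_ne_zero (hB : B.det ≠ 0) (i : Fin m) : (fun j => B⁻¹ j i) ≠ 0 := by
  intro h
  have h1 : (B⁻¹).det = 0 := Matrix.det_eq_zero_of_column_eq_zero i fun j => congrFun h j
  have h2 : (B⁻¹).det * B.det = 1 := by
    rw [← Matrix.det_mul, Matrix.nonsing_inv_mul _ (isUnit_iff_ne_zero.2 hB), Matrix.det_one]
  rw [h1, zero_mul] at h2
  exact zero_ne_one h2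

/-- The main upper bound on the reduced angle. -/
theorem AA_bound (hB : B.det ≠ 0) (i0 : Fin m) {s : ℝ} (hs : 0 < s) {y : Fin m → ℝ}
    (hy : y ≠ 0) : 2 * (AA B s y).toReal ≤ 1 - 2 * (p1 * Ph (s / nrm y)) := by
  set a : Fin m → ℝ := fun j => B⁻¹ j i0 with ha
  have ha0 : a ≠ 0 := col_ne_zero hB i0
  have hna := nrm_pos ha0
  have hny := nrm_pos hy
  set Es : Set (ℝ × (Fin m → ℝ)) := {z | 0 ≤ z.1 / s ∧
    ∀ i, (z.1 / s) * cc B y i ≤ cc B z.2 i} with hEs
  set R : Set (ℝ × (Fin m → ℝ)) := (Set.Ico 0 (s / nrm y)) ×ˢ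
    {x : Fin m → ℝ | (∑ i, x i * a i) / nrm a ∈ Set.Iic (-1 : ℝ)} with hR
  have hml : Measurable (fun x : Fin m → ℝ => (∑ i, x i * a i) / nrm a) :=
    (ga_lin a ha0).measurable
  have hRm : MeasurableSet R := measurableSet_Ico.prod (hml measurableSet_Iic)
  have hRmeas : (g1.prod (ga m)).real R = Ph (s / nrm y) * p1 := by
    rw [hR, measureReal_prod_prod]
    unfold Ph p1
    congr 1
    unfold Measure.real
    rw [← (ga_lin a ha0).measure_preimage measurableSet_Iic.nullMeasurableSet]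
    rfl
  have hdisj : Disjoint Es R := by
    rw [Set.disjoint_left]
    rintro z ⟨hz1, hz2⟩ ⟨hz3, hz4⟩
    have h1 := hz2 i0
    have h2 : cc B z.2 i0 ≤ -nrm a := by
      have h3 : (∑ i, z.2 i * a i) / nrm a ≤ -1 := hz4
      rw [div_le_iff₀ hna] at h3
      have h4 : cc B z.2 i0 = ∑ i, z.2 i * a i := rfl
      rw [h4]
      linarith
    have h5 : -(nrm y * nrm a) ≤ cc B y i0 := neg_le_dot y a
    have h6 : z.1 / s * nrm y < 1 := by
      rw [div_mul_eq_mul_div, div_lt_one hs]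
      have := hz3.2
      rwa [lt_div_iff₀ hny] at this
    have h7 : (z.1 / s) * (-(nrm y * nrm a)) ≤ (z.1 / s) * cc B y i0 :=
      mul_le_mul_of_nonneg_left h5 hz1
    nlinarith
  have hsub : Es ∪ R ⊆ (Set.Ici (0 : ℝ)) ×ˢ (Set.univ : Set (Fin m → ℝ)) := by
    rintro z (hz | hz)
    · refine ⟨?_, Set.mem_univ _⟩
      have := mul_nonneg hz.1 hs.le
      rwa [div_mul_cancel₀ _ hs.ne'] at this
    · exact ⟨hz.1.1, Set.mem_univ _⟩
  have h1 : (g1.prod (ga m)).real Es + (g1.prod (ga m)).real R ≤ 1 / 2 := by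
    rw [← measureReal_union hdisj hRm]
    refine (measureReal_mono hsub).trans (le_of_eq ?_)
    rw [measureReal_prod_prod]
    unfold Measure.real
    rw [g1_half, measure_univ]
    simp
  have h2 : (AA B s y).toReal = (g1.prod (ga m)).real Es := by
    rw [AA_def]
    rfl
  rw [h2]
  rw [hRmeas] at h1
  linarith

/-- If some coordinate of `y` is nonnegative, the reduced angle is at most `1/4`. -/
theorem AA_quarter (hB : B.det ≠ 0) {s : ℝ} (hs : 0 < s) {y : Fin m → ℝ} (i0 : Fin m)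
    (hy : 0 ≤ cc B y i0) : 2 * (AA B s y).toReal ≤ 1 / 2 := by
  set a : Fin m → ℝ := fun j => B⁻¹ j i0 with ha
  have ha0 : a ≠ 0 := col_ne_zero hB i0
  have hna := nrm_pos ha0
  have hsub : {z : ℝ × (Fin m → ℝ) | 0 ≤ z.1 / s ∧
      ∀ i, (z.1 / s) * cc B y i ≤ cc B z.2 i} ⊆ (Set.Ici (0 : ℝ)) ×ˢ
      {x : Fin m → ℝ | (∑ i, x i * a i) / nrm a ∈ Set.Ici (0 : ℝ)} := by
    rintro z ⟨hz1, hz2⟩
    refine ⟨?_, ?_⟩
    · have := mul_nonneg hz1 hs.le
      rwa [div_mul_cancel₀ _ hs.ne'] at this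
    · have h1 : 0 ≤ cc B z.2 i0 := le_trans (mul_nonneg hz1 hy) (hz2 i0)
      exact div_nonneg h1 hna.le
  have h2 : (AA B s y).toReal = (g1.prod (ga m)).real {z : ℝ × (Fin m → ℝ) | 0 ≤ z.1 / s ∧
      ∀ i, (z.1 / s) * cc B y i ≤ cc B z.2 i} := by
    rw [AA_def]
    rfl
  have h3 : (g1.prod (ga m)).real ((Set.Ici (0 : ℝ)) ×ˢ
      {x : Fin m → ℝ | (∑ i, x i * a i) / nrm a ∈ Set.Ici (0 : ℝ)}) = 1 / 4 := by
    rw [measureReal_prod_prod]
    unfold Measure.real
    rw [show ga m {x : Fin m → ℝ | (∑ i, x i * a i) / nrm a ∈ Set.Ici (0 : ℝ)} =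
      g1 (Set.Ici 0) from (ga_lin a ha0).measure_preimage measurableSet_Ici.nullMeasurableSet,
      g1_half]
    norm_num
  have h4 := measureReal_mono hsub (μ := g1.prod (ga m))
  rw [h3, ← h2] at h4
  linarith

/-- The gauge describing the reduced angle. -/
noncomputable def phi (B : Matrix (Fin m) (Fin m) ℝ) (y x : Fin m → ℝ) : ℝ :=
  ‖(fun i => max (cc B x i / cc B y i) 0 : Fin m → ℝ)‖

lemma phi_nonneg (y x : Fin m → ℝ) : 0 ≤ phi B y x := norm_nonneg _

lemma continuous_phi (y : Fin m → ℝ) : Continuous (fun x => phi B y x) := by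
  unfold phi
  refine Continuous.norm (continuous_pi fun i => ?_)
  exact (((continuous_cc i).div_const _).max continuous_const)

lemma measurable_phi2 : Measurable (fun z : (Fin m → ℝ) × (Fin m → ℝ) => phi B z.1 z.2) := by
  unfold phi
  refine Measurable.norm (measurable_pi_iff.2 fun i => ?_)
  have h1 : Measurable (fun z : (Fin m → ℝ) × (Fin m → ℝ) => cc B z.2 i) :=
    (continuous_cc i).measurable.comp measurable_snd
  have h2 : Measurable (fun z : (Fin m → ℝ) × (Fin m → ℝ) => cc B z.1 i) :=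
    (continuous_cc i).measurable.comp measurable_fst
  exact (h1.div h2).max measurable_const

lemma phi_le_iff {y x : Fin m → ℝ} {t : ℝ} (ht : 0 ≤ t) (hy : ∀ i, cc B y i < 0) :
    phi B y x ≤ t ↔ ∀ i, t * cc B y i ≤ cc B x i := by
  unfold phi
  rw [pi_norm_le_iff_of_nonneg ht]
  refine forall_congr' fun i => ?_
  rw [Real.norm_eq_abs, abs_of_nonneg (le_max_right _ _), max_le_iff, div_le_iff_of_neg (hy i)]
  exact ⟨fun h => h.1, fun h => ⟨h, ht⟩⟩

/-- The exact formula for the reduced angle when all coordinates of `y` are negative. -/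
theorem AA_formula {s : ℝ} (hs : 0 < s) {y : Fin m → ℝ} (hy : ∀ i, cc B y i < 0) :
    1 - 2 * (AA B s y).toReal = 2 * ∫ x, Ph (s * phi B y x) ∂(ga m) := by
  have hset : {z : ℝ × (Fin m → ℝ) | 0 ≤ z.1 / s ∧
      ∀ i, (z.1 / s) * cc B y i ≤ cc B z.2 i} = {z | s * phi B y z.2 ≤ z.1} := by
    ext z
    simp only [Set.mem_setOf_eq]
    constructor
    · rintro ⟨h1, h2⟩
      have := (phi_le_iff h1 hy).2 h2
      rw [le_div_iff₀ hs] at this
      linarith
    · intro h
      have h0 : phi B y z.2 ≤ z.1 / s := by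
        rw [le_div_iff₀ hs]
        linarith
      have h1 : 0 ≤ z.1 / s := (phi_nonneg y z.2).trans h0
      exact ⟨h1, (phi_le_iff h1 hy).1 h0⟩
  have hms : MeasurableSet {z : ℝ × (Fin m → ℝ) | s * phi B y z.2 ≤ z.1} :=
    measurableSet_le (((continuous_phi y).measurable.comp measurable_snd).const_mul s)
      measurable_fst
  have h1 : (AA B s y).toReal = ∫ x, g1.real (Set.Ici (s * phi B y x)) ∂(ga m) := by
    rw [AA_def, hset, Measure.prod_apply_symm hms]
    have h2 : ∀ x : Fin m → ℝ, (fun t => (t, x)) ⁻¹' {z : ℝ × (Fin m → ℝ) | s * phi B y z.2 ≤ z.1} =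
        Set.Ici (s * phi B y x) := by
      intro x
      ext t
      simp
    simp_rw [h2]
    rw [← integral_toReal]
    · rfl
    · have := measurable_measure_prodMk_right (μ := g1) hms
      simp_rw [h2] at this
      exact this.aemeasurable
    · exact Filter.Eventually.of_forall fun x => measure_lt_top _ _
  have h3 : ∀ x : Fin m → ℝ, g1.real (Set.Ici (s * phi B y x)) = 1 / 2 - Ph (s * phi B y x) :=
    fun x => g1_Ici (mul_nonneg hs.le (phi_nonneg y x))
  have hint : Integrable (fun x => Ph (s * phi B y x)) (ga m) := by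
    refine Integrable.of_bound ?_ 1 ?_
    · exact (Ph_mono.measurable.comp
        ((continuous_phi y).measurable.const_mul s)).aestronglyMeasurable
    · refine Filter.Eventually.of_forall fun x => ?_
      rw [Real.norm_eq_abs, abs_of_nonneg (Ph_nonneg _)]
      exact measureReal_le_one
  rw [h1]
  simp_rw [h3]
  rw [integral_sub (integrable_const _) hint]
  simp
  ring

end Pool.Agent.Q215.Cone
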