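import Pool.Agent.Q215.Cone.Sph

open MeasureTheory Filter Topology
open scoped ENNReal

namespace Pool.Agent.Q215.Cone

/-- The moments `m(d,k) = E[α_d^k]`. -/
noncomputable def moment (d k : ℕ) : ℝ := ∫ U, angle (pos U) ^ k ∂(law d)

variable {n : ℕ}

lemma norm_smul_dir (x : Fin n → ℝ) :
    ‖(WithLp.toLp 2 x : E n)‖ • dir x = (WithLp.toLp 2 x : E n) := by
  unfold dir
  by_cases hx : ‖(WithLp.toLp 2 x : E n)‖ = 0
  · rw [hx, zero_smul]
    exact (norm_eq_zero.1 hx).symm
  · rw [smul_smul, mul_inv_cancel₀ hx, one_smul]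

lemma toLp_sum (a : Fin n → ℝ) (G : Mt n n) :
    (WithLp.toLp 2 (Matrix.vecMul a (mat G)) : E n) =
      ∑ i, a i • (WithLp.toLp 2 (G i) : E n) := by
  ext j
  simp only [WithLp.ofLp_sum, WithLp.ofLp_smul, Finset.sum_apply, Pi.smul_apply, smul_eq_mul]
  rfl

lemma mem_pos_iff (G : Mt n n) (hG : (mat G).det ≠ 0) (x : Fin n → ℝ) :
    dir x ∈ pos (fun i => dir (G i)) ↔ ∀ i, 0 ≤ Matrix.vecMul x (mat G)⁻¹ i := by
  have hne : ∀ i, 0 < ‖(WithLp.toLp 2 (G i) : E n)‖ := by
    intro i
    rw [norm_pos_iff]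
    intro h
    refine hG (Matrix.det_eq_zero_of_row_eq_zero i fun j => ?_)
    have h2 := congrFun (congrArg WithLp.ofLp h) j
    exact h2
  constructor
  · rintro ⟨c, hc, hx⟩
    set a : Fin n → ℝ := fun i => ‖(WithLp.toLp 2 x : E n)‖ * (c i / ‖(WithLp.toLp 2 (G i) : E n)‖)
      with ha
    have h1 : (WithLp.toLp 2 x : E n) = (WithLp.toLp 2 (Matrix.vecMul a (mat G)) : E n) := by
      rw [toLp_sum, ← norm_smul_dir x, hx, Finset.smul_sum]
      refine Finset.sum_congr rfl fun i _ => ?_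
      rw [← norm_smul_dir (G i), smul_smul, smul_smul]
      congr 1
      rw [ha]
      simp only
      have h9 := (hne i).ne'
      rw [mul_assoc, div_mul_cancel₀ _ h9]
    have h2 : x = Matrix.vecMul a (mat G) := (WithLp.toLp_injective 2) h1
    intro i
    have h3 : Matrix.vecMul x (mat G)⁻¹ = a := by
      rw [h2, Matrix.vecMul_vecMul, Matrix.mul_nonsing_inv _ (isUnit_iff_ne_zero.2 hG),
        Matrix.vecMul_one]
    rw [h3]
    have := hne i
    have := hc i
    positivity
  · intro h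
    set a := Matrix.vecMul x (mat G)⁻¹ with ha
    have h2 : Matrix.vecMul a (mat G) = x := by
      rw [ha, Matrix.vecMul_vecMul, Matrix.nonsing_inv_mul _ (isUnit_iff_ne_zero.2 hG),
        Matrix.vecMul_one]
    refine ⟨fun i => ‖(WithLp.toLp 2 x : E n)‖⁻¹ * (a i * ‖(WithLp.toLp 2 (G i) : E n)‖),
      fun i => ?_, ?_⟩
    · have := hne i
      have := h i
      positivity
    · have h3 : dir x = ‖(WithLp.toLp 2 x : E n)‖⁻¹ • (WithLp.toLp 2 x : E n) := rfl
      have h4 : (WithLp.toLp 2 x : E n) = ∑ i, a i • (WithLp.toLp 2 (G i) : E n) := by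
        rw [← toLp_sum, h2]
      rw [h3]
      conv_lhs => rw [show ‖(WithLp.toLp 2 x : E n)‖⁻¹ • (WithLp.toLp 2 x : E n) =
        ‖(WithLp.toLp 2 x : E n)‖⁻¹ • ∑ i, a i • (WithLp.toLp 2 (G i) : E n) from
          congrArg _ h4]
      rw [Finset.smul_sum]
      refine Finset.sum_congr rfl fun i _ => ?_
      rw [mul_smul, mul_smul, norm_smul_dir]

lemma li_dir (G : Mt n n) (hG : (mat G).det ≠ 0) : LinearIndependent ℝ fun i => dir (G i) := by
  have h1 : LinearIndependent ℝ (mat G).row := by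
    rw [Matrix.linearIndependent_rows_iff_isUnit, Matrix.isUnit_iff_isUnit_det]
    exact isUnit_iff_ne_zero.2 hG
  rw [Fintype.linearIndependent_iff]
  intro c hc
  have hne : ∀ i, 0 < ‖(WithLp.toLp 2 (G i) : E n)‖ := by
    intro i
    rw [norm_pos_iff]
    intro h
    refine hG (Matrix.det_eq_zero_of_row_eq_zero i fun j => ?_)
    have h2 := congrFun (congrArg WithLp.ofLp h) j
    exact h2
  have h2 : (WithLp.toLp 2 (Matrix.vecMul
      (fun i => c i * ‖(WithLp.toLp 2 (G i) : E n)‖⁻¹) (mat G)) : E n) = 0 := by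
    rw [toLp_sum, ← hc]
    refine Finset.sum_congr rfl fun i _ => ?_
    rw [mul_smul]
    rfl
  have h3 : Matrix.vecMul (fun i => c i * ‖(WithLp.toLp 2 (G i) : E n)‖⁻¹) (mat G) = 0 :=
    (WithLp.toLp_injective 2) h2
  have h4 : (fun i => c i * ‖(WithLp.toLp 2 (G i) : E n)‖⁻¹) = 0 := by
    have := congrArg (fun v => Matrix.vecMul v (mat G)⁻¹) h3
    simp only [Matrix.vecMul_vecMul, Matrix.mul_nonsing_inv _ (isUnit_iff_ne_zero.2 hG),
      Matrix.vecMul_one, Matrix.zero_vecMul] at this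
    exact this
  intro i
  have h5 := congrFun h4 i
  simp only [Pi.zero_apply, mul_eq_zero, inv_eq_zero] at h5
  rcases h5 with h | h
  · exact h
  · exact absurd h (hne i).ne'

lemma gm_det (n : ℕ) : ∀ᵐ G ∂(gm n n), (mat G).det ≠ 0 := by
  have h := ae_li_gen (ga n) (fun K hK => ga_sub n K hK) n (by simp)
  filter_upwards [h] with G hG
  have := (Matrix.linearIndependent_rows_iff_isUnit (A := mat G)).1 hG
  rw [Matrix.isUnit_iff_isUnit_det] at this
  exact this.ne_zero

lemma al_dir (hn : 0 < n) (G : Mt n n) (hG : (mat G).det ≠ 0) :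
    al (sigma n) (fun i => dir (G i)) = (ang G).toReal := by
  unfold al ang
  have hmeas : MeasurableSet {ξ : E n | ((fun i => dir (G i)), ξ) ∈ MM n} :=
    (measurable_const.prodMk measurable_id) measurableSet_MM
  rw [← (map_dir hn).measure_preimage hmeas.nullMeasurableSet]
  congr 2
  ext x
  have h1 : dir x ∈ posHull (fun i => dir (G i)) ↔ ∀ i, 0 ≤ co (fun i => dir (G i)) (dir x) i :=
    mem_posHull_iff (li_dir G hG) (dir x)
  have h2 : dir x ∈ pos (fun i => dir (G i)) ↔ dir x ∈ posHull (fun i => dir (G i)) := Iff.rfl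
  rw [Set.mem_preimage, Set.mem_setOf_eq, Set.mem_setOf_eq, ← mem_pos_iff G hG x, h2, h1]
  rfl

/-- The law of the directions. -/
lemma mp_law (hn : 0 < n) : MeasurePreserving (fun (G : Mt n n) (i : Fin n) => dir (G i))
    (gm n n) (law n) := by
  have := (unif hn).prob
  exact measurePreserving_pi (fun _ : Fin n => ga n) (fun _ => sigma n) fun _ => map_dir hn

/-- Transfer to Gaussian matrices. -/
theorem int_law (hn : 0 < n) (f : ℝ → ℝ) (hf : Measurable f) :
    ∫ U, f (angle (pos U)) ∂(law n) = ∫ G, f (ang G).toReal ∂(gm n n) := by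
  have := (unif hn).prob
  have h1 : ∫ U, f (angle (pos U)) ∂(law n) = ∫ U, f (al (sigma n) U) ∂(law n) := by
    refine integral_congr_ae ?_
    filter_upwards [angle_eq hn] with U hU
    rw [hU]
  have hmp := mp_law hn
  have hm : Measurable (fun U : Fin n → E n => f (al (sigma n) U)) := hf.comp measurable_al
  have h2 := integral_map (μ := gm n n) hmp.measurable.aemeasurable
    (f := fun U : Fin n → E n => f (al (sigma n) U)) hm.aestronglyMeasurable
  rw [hmp.map_eq] at h2
  rw [h1, h2]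
  refine integral_congr_ae ?_
  filter_upwards [gm_det n] with G hG
  rw [al_dir hn G hG]

theorem PP_toReal (d k : ℕ) : (PP d k).toReal = ∫ G, (ang G).toReal ^ k ∂(gm d d) := by
  rw [PP_ang]
  have h1 : ∀ G : Mt d d, ang G ^ k < ⊤ := fun G =>
    ENNReal.pow_lt_top (lt_of_le_of_lt prob_le_one ENNReal.one_lt_top)
  rw [← integral_toReal (measurable_ang.pow_const k).aemeasurable
    (Filter.Eventually.of_forall h1)]
  refine integral_congr_ae (Filter.Eventually.of_forall fun G => ?_)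
  exact ENNReal.toReal_pow _ _

theorem moment_eq (d k : ℕ) (hd : 0 < d) : moment d k = (PP d k).toReal := by
  unfold moment
  rw [PP_toReal]
  exact int_law hd (fun x => x ^ k) (measurable_id.pow_const k)

/-- Symmetry of the moments. -/
theorem moment_symm (d k : ℕ) (hd : 0 < d) (hk : 0 < k) : moment d k = moment k d := by
  rw [moment_eq d k hd, moment_eq k d hk, PP_symm]

theorem moment_Tn (d k : ℕ) (hd : 0 < d) : 2 ^ d * d * moment d k = Tn k d := by
  rw [moment_eq d k hd, PP_symm, PP_toReal]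
  unfold Tn
  simp_rw [mul_pow]
  rw [integral_const_mul]
  ring

/-- **Asymptotics of the moments.** -/
theorem tendsto_moment (k : ℕ) (hk : 2 ≤ k) :
    ∃ c : ℝ, 0 < c ∧ Tendsto (fun d : ℕ => 2 ^ d * d * moment d k) atTop (𝓝 c) := by
  obtain ⟨m, rfl⟩ : ∃ m, k = m + 1 := ⟨k - 1, by omega⟩
  obtain ⟨c, hc, hlim⟩ := tendsto_Tn m ⟨0, by omega⟩
  refine ⟨c, hc, hlim.congr' ?_⟩
  filter_upwards [eventually_gt_atTop 0] with d hd
  rw [moment_Tn d _ hd]

end Pool.Agent.Q215.Cone
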