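import Pool.Agent.Q215.Cone.Basic

open MeasureTheory Filter Topology Finset

namespace Pool.Agent.Q215.Cone

/-- The sign. -/
noncomputable def sg (x : ℝ) : ℝ := if 0 ≤ x then 1 else -1

lemma sg_mul_self (x : ℝ) : sg x * x = |x| := by
  unfold sg
  split_ifs with h
  · rw [one_mul, abs_of_nonneg h]
  · rw [abs_of_neg (not_le.1 h)]; ring

lemma sg_sq (x : ℝ) : sg x * sg x = 1 := by unfold sg; split_ifs <;> norm_num

lemma abs_sg (x : ℝ) : |sg x| = 1 := by unfold sg; split_ifs <;> simp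

lemma sg_neg {x : ℝ} (hx : x ≠ 0) : sg (-x) = -sg x := by
  unfold sg
  rcases lt_or_gt_of_ne hx with h | h
  · rw [if_pos (by linarith), if_neg (by linarith)]; norm_num
  · rw [if_neg (by linarith), if_pos h.le]

lemma sg_mul {x y : ℝ} (hx : x ≠ 0) (hy : y ≠ 0) : sg (x * y) = sg x * sg y := by
  unfold sg
  rcases lt_or_gt_of_ne hx with h | h <;> rcases lt_or_gt_of_ne hy with h' | h'
  · rw [if_pos (mul_pos_of_neg_of_neg h h').le, if_neg (not_le.2 h), if_neg (not_le.2 h')]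
    norm_num
  · rw [if_neg (not_le.2 (mul_neg_of_neg_of_pos h h')), if_neg (not_le.2 h), if_pos h'.le]
    norm_num
  · rw [if_neg (not_le.2 (mul_neg_of_pos_of_neg h h')), if_pos h.le, if_neg (not_le.2 h')]
    norm_num
  · rw [if_pos (mul_pos h h').le, if_pos h.le, if_pos h'.le]; norm_num

lemma sg_pos_mul {c x : ℝ} (hc : 0 < c) : sg (c * x) = sg x := by
  unfold sg
  simp only [mul_nonneg_iff_of_pos_left hc]

lemma measurable_sg : Measurable sg := by
  unfold sg
  exact Measurable.ite measurableSet_Ici measurable_const measurable_const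

variable {n : ℕ} {τ : Measure (E n)}

lemma Unif.integral_isom (h : Unif n τ) (O : E n ≃ₗᵢ[ℝ] E n) {F : Type*} [NormedAddCommGroup F]
    [NormedSpace ℝ F] (g : E n → F) : ∫ x, g (O x) ∂τ = ∫ x, g x ∂τ :=
  (h.inv O).integral_comp O.toHomeomorph.measurableEmbedding g

lemma Unif.mom_inv (h : Unif n τ) (φ : ℝ → ℝ) {v w : E n} (hv : ‖v‖ = 1) (hw : ‖w‖ = 1) :
    ∫ x, φ (inner ℝ v x) ∂τ = ∫ x, φ (inner ℝ w x) ∂τ := by
  set O := Submodule.reflection (ℝ ∙ (v - w))ᗮ with hO
  have h1 : O v = w := Submodule.reflection_sub (hv.trans hw.symm)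
  rw [← h.integral_isom O (fun x => φ (inner ℝ w x))]
  congr 1
  funext x
  rw [← h1, O.inner_map_map]

lemma Unif.int_of_bound (h : Unif n τ) {F : Type*} [NormedAddCommGroup F]
    {g : E n → F} (hg : AEStronglyMeasurable g τ) (C : ℝ) (hC : ∀ x, ‖x‖ = 1 → ‖g x‖ ≤ C) :
    Integrable g τ := by
  have := h.prob
  refine Integrable.of_bound hg C ?_
  filter_upwards [h.sph] with x hx using hC x hx

lemma Unif.int_coord (h : Unif n τ) (v : E n) :
    Integrable (fun x : E n => inner ℝ v x) τ := by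
  refine h.int_of_bound (by fun_prop) ‖v‖ fun x hx => ?_
  have := abs_real_inner_le_norm v x
  rwa [hx, mul_one] at this

lemma abs_coord_le {x : E n} (hx : ‖x‖ = 1) (i : Fin n) : |x i| ≤ 1 := by
  have := PiLp.norm_apply_le x i
  rwa [hx] at this

lemma inner_single (i : Fin n) (x : E n) : inner ℝ (EuclideanSpace.single i (1 : ℝ)) x = x i := by
  simp [EuclideanSpace.inner_single_left]

lemma norm_single (i : Fin n) : ‖(EuclideanSpace.single i (1 : ℝ) : E n)‖ = 1 := by simp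

lemma sum_sq_eq (x : E n) : ∑ i, (x i) ^ 2 = ‖x‖ ^ 2 := by
  rw [EuclideanSpace.norm_sq_eq]
  simp

lemma Unif.mom2 (h : Unif n τ) (hn : 0 < n) {w : E n} (hw : ‖w‖ = 1) :
    ∫ x, (inner ℝ w x) ^ 2 ∂τ = 1 / n := by
  have := h.prob
  have h1 : ∀ i : Fin n, ∫ x : E n, (x i) ^ 2 ∂τ = ∫ x, (inner ℝ w x) ^ 2 ∂τ := by
    intro i
    rw [h.mom_inv (fun t => t ^ 2) hw (norm_single i)]
    simp only [inner_single]
  have h2 : ∑ i : Fin n, ∫ x : E n, (x i) ^ 2 ∂τ = 1 := by
    rw [← integral_finsetSum]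
    · have : ∫ x : E n, ∑ i, (x i) ^ 2 ∂τ = ∫ x : E n, (1 : ℝ) ∂τ := by
        refine integral_congr_ae ?_
        filter_upwards [h.sph] with x hx
        rw [sum_sq_eq, hx, one_pow]
      rw [this]; simp
    · intro i _
      refine h.int_of_bound (by fun_prop) 1 fun x hx => ?_
      rw [Real.norm_eq_abs, abs_pow]
      exact pow_le_one₀ (abs_nonneg _) (abs_coord_le hx i)
  simp only [h1, Finset.sum_const, Finset.card_univ, Fintype.card_fin, nsmul_eq_mul] at h2
  field_simp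
  linarith

lemma Unif.mom4 (h : Unif n τ) (hn : 0 < n) {w : E n} (hw : ‖w‖ = 1) :
    ∫ x, (inner ℝ w x) ^ 4 ∂τ ≤ 3 / (n : ℝ) ^ 2 := by
  have := h.prob
  set q := ∫ x, (inner ℝ w x) ^ 4 ∂τ with hq
  have hq0 : 0 ≤ q := integral_nonneg fun x => by positivity
  have hint : ∀ i j : Fin n, Integrable (fun x : E n => (x i) ^ 2 * (x j) ^ 2) τ := by
    intro i j
    refine h.int_of_bound (by fun_prop) 1 fun x hx => ?_
    rw [Real.norm_eq_abs, abs_mul, abs_pow, abs_pow]
    exact mul_le_one₀ (pow_le_one₀ (abs_nonneg _) (abs_coord_le hx i)) (by positivity)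
      (pow_le_one₀ (abs_nonneg _) (abs_coord_le hx j))
  have hii : ∀ i : Fin n, ∫ x : E n, (x i) ^ 2 * (x i) ^ 2 ∂τ = q := by
    intro i
    rw [hq, h.mom_inv (fun t => t ^ 4) hw (norm_single i)]
    simp only [inner_single]
    congr 1
    funext x; ring
  have hij : ∀ i j : Fin n, i ≠ j → ∫ x : E n, (x i) ^ 2 * (x j) ^ 2 ∂τ = q / 3 := by
    intro i j hne
    set s : ℝ := (Real.sqrt 2)⁻¹ with hs
    have hs2 : s ^ 2 = 1 / 2 := by rw [hs, inv_pow, Real.sq_sqrt (by norm_num)]; norm_num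
    set ei : E n := EuclideanSpace.single i (1 : ℝ) with hei
    set ej : E n := EuclideanSpace.single j (1 : ℝ) with hej
    have hort : inner ℝ ei ej = (0 : ℝ) := by
      rw [hei, inner_single, hej]
      simp [hne]
    have hnp : ‖s • (ei + ej)‖ = 1 := by
      have h1 : ‖s • (ei + ej)‖ ^ 2 = 1 := by
        rw [norm_smul, mul_pow, norm_add_sq_real, hort, Real.norm_eq_abs, sq_abs, hs2, hei, hej,
          norm_single, norm_single]
        norm_num
      have h2 : 0 ≤ ‖s • (ei + ej)‖ := norm_nonneg _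
      nlinarith
    have hnm : ‖s • (ei - ej)‖ = 1 := by
      have h1 : ‖s • (ei - ej)‖ ^ 2 = 1 := by
        rw [norm_smul, mul_pow, norm_sub_sq_real, hort, Real.norm_eq_abs, sq_abs, hs2, hei, hej,
          norm_single, norm_single]
        norm_num
      have h2 : 0 ≤ ‖s • (ei - ej)‖ := norm_nonneg _
      nlinarith
    have e1 : ∫ x, (inner ℝ (s • (ei + ej)) x) ^ 4 ∂τ = q :=
      (h.mom_inv (fun t => t ^ 4) hnp hw)
    have e2 : ∫ x, (inner ℝ (s • (ei - ej)) x) ^ 4 ∂τ = q :=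
      (h.mom_inv (fun t => t ^ 4) hnm hw)
    have c1 : ∀ x : E n, (inner ℝ (s • (ei + ej)) x) ^ 4 = 1 / 4 * (x i + x j) ^ 4 := by
      intro x
      rw [real_inner_smul_left, inner_add_left, hei, hej, inner_single, inner_single, mul_pow,
        show s ^ 4 = (s ^ 2) ^ 2 by ring, hs2]
      norm_num
    have c2 : ∀ x : E n, (inner ℝ (s • (ei - ej)) x) ^ 4 = 1 / 4 * (x i - x j) ^ 4 := by
      intro x
      rw [real_inner_smul_left, inner_sub_left, hei, hej, inner_single, inner_single, mul_pow,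
        show s ^ 4 = (s ^ 2) ^ 2 by ring, hs2]
      norm_num
    simp only [c1] at e1
    simp only [c2] at e2
    have i1 : Integrable (fun x : E n => 1 / 4 * (x i + x j) ^ 4) τ := by
      refine h.int_of_bound (by fun_prop) 4 fun x hx => ?_
      have := abs_coord_le hx i
      have := abs_coord_le hx j
      rw [Real.norm_eq_abs, abs_mul, abs_pow]
      have h2 : |x i + x j| ≤ 2 := (abs_add_le _ _).trans (by linarith)
      have h3 : |x i + x j| ^ 4 ≤ 2 ^ 4 := pow_le_pow_left₀ (abs_nonneg _) h2 4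
      rw [abs_of_pos (by norm_num : (0 : ℝ) < 1 / 4)]
      linarith
    have i2 : Integrable (fun x : E n => 1 / 4 * (x i - x j) ^ 4) τ := by
      refine h.int_of_bound (by fun_prop) 4 fun x hx => ?_
      have := abs_coord_le hx i
      have := abs_coord_le hx j
      rw [Real.norm_eq_abs, abs_mul, abs_pow]
      have h2 : |x i - x j| ≤ 2 := (abs_sub _ _).trans (by linarith)
      have h3 : |x i - x j| ^ 4 ≤ 2 ^ 4 := pow_le_pow_left₀ (abs_nonneg _) h2 4
      rw [abs_of_pos (by norm_num : (0 : ℝ) < 1 / 4)]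
      linarith
    have e3 : ∫ x : E n, (1 / 2 * ((x i) ^ 2 * (x i) ^ 2) + 1 / 2 * ((x j) ^ 2 * (x j) ^ 2) +
        3 * ((x i) ^ 2 * (x j) ^ 2)) ∂τ = 2 * q := by
      rw [two_mul, ← e1]
      nth_rewrite 2 [e1]
      rw [← e2, ← integral_add i1 i2]
      congr 1
      funext x
      ring
    have j1 := (hint i i).const_mul (1 / 2)
    have j2 := (hint j j).const_mul (1 / 2)
    have j3 := (hint i j).const_mul 3
    have e4 : ∫ x : E n, (1 / 2 * ((x i) ^ 2 * (x i) ^ 2) + 1 / 2 * ((x j) ^ 2 * (x j) ^ 2) +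
        3 * ((x i) ^ 2 * (x j) ^ 2)) ∂τ = 1 / 2 * q + 1 / 2 * q +
        3 * ∫ x : E n, (x i) ^ 2 * (x j) ^ 2 ∂τ := by
      have j12 : Integrable (fun x : E n => 1 / 2 * ((x i) ^ 2 * (x i) ^ 2) +
        1 / 2 * ((x j) ^ 2 * (x j) ^ 2)) τ := j1.add j2
      rw [integral_add j12 j3, integral_add j1 j2, integral_const_mul, integral_const_mul,
        integral_const_mul, hii, hii]
    rw [e4] at e3
    linarith
  have htot : ∑ i : Fin n, ∑ j : Fin n, ∫ x : E n, (x i) ^ 2 * (x j) ^ 2 ∂τ = 1 := by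
    have h1 : ∀ i : Fin n, ∑ j : Fin n, ∫ x : E n, (x i) ^ 2 * (x j) ^ 2 ∂τ =
        ∫ x : E n, ∑ j, (x i) ^ 2 * (x j) ^ 2 ∂τ := fun i =>
      (integral_finsetSum _ fun j _ => hint i j).symm
    rw [Finset.sum_congr rfl fun i _ => h1 i, ← integral_finsetSum]
    · have : ∫ x : E n, ∑ i, ∑ j, (x i) ^ 2 * (x j) ^ 2 ∂τ = ∫ x : E n, (1 : ℝ) ∂τ := by
        refine integral_congr_ae ?_
        filter_upwards [h.sph] with x hx
        rw [← Finset.sum_mul_sum, sum_sq_eq, hx]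
        norm_num
      rw [this]; simp
    · intro i _
      exact integrable_finsetSum _ fun j _ => hint i j
  have hcalc : ∀ i : Fin n, ∑ j : Fin n, ∫ x : E n, (x i) ^ 2 * (x j) ^ 2 ∂τ =
      q + (n - 1) * (q / 3) := by
    intro i
    rw [← Finset.add_sum_erase _ _ (Finset.mem_univ i), hii,
      Finset.sum_congr rfl fun j hj => hij i j (Finset.ne_of_mem_erase hj).symm,
      Finset.sum_const, Finset.card_erase_of_mem (Finset.mem_univ i), Finset.card_univ,
      Fintype.card_fin, nsmul_eq_mul, Nat.cast_sub hn]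
    simp
  rw [Finset.sum_congr rfl fun i _ => hcalc i, Finset.sum_const, Finset.card_univ,
    Fintype.card_fin, nsmul_eq_mul] at htot
  have hn' : (0 : ℝ) < n := by exact_mod_cast hn
  rw [le_div_iff₀ (by positivity)]
  nlinarith [mul_nonneg hn'.le hq0]

lemma poly_ineq {a t : ℝ} (ha : 0 ≤ a) : 5 / 2 * (a * t ^ 2 - a ^ 3 * t ^ 4) ≤ |t| := by
  set s := a * |t| with hs
  have hs0 : 0 ≤ s := mul_nonneg ha (abs_nonneg t)
  have h1 : s - s ^ 3 ≤ 2 / 5 := by
    nlinarith [mul_nonneg (by linarith : (0 : ℝ) ≤ s + 29 / 25) (sq_nonneg (s - 29 / 50))]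
  have h2 : a * t ^ 2 - a ^ 3 * t ^ 4 = |t| * (s - s ^ 3) := by
    have : t ^ 2 = |t| ^ 2 := (sq_abs t).symm
    have h4 : t ^ 4 = |t| ^ 4 := by rw [show t ^ 4 = (t ^ 2) ^ 2 by ring, this]; ring
    rw [this, h4, hs]; ring
  rw [h2]
  nlinarith [mul_le_mul_of_nonneg_left h1 (abs_nonneg t)]

/-- Lower bound for the first absolute moment. -/
lemma Unif.mom1 (h : Unif n τ) (hn : 0 < n) {w : E n} (hw : ‖w‖ = 1) :
    5 / 9 / Real.sqrt n ≤ ∫ x, |inner ℝ w x| ∂τ := by
  have := h.prob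
  have hn' : (0 : ℝ) < n := by exact_mod_cast hn
  set a : ℝ := Real.sqrt n / 3 with ha
  have ha0 : 0 ≤ a := by positivity
  have hb : ∀ x : E n, ‖x‖ = 1 → |inner ℝ w x| ≤ 1 := by
    intro x hx
    have := abs_real_inner_le_norm w x
    rwa [hx, hw, one_mul] at this
  have i2 : Integrable (fun x : E n => (inner ℝ w x) ^ 2) τ := by
    refine h.int_of_bound (by fun_prop) 1 fun x hx => ?_
    rw [Real.norm_eq_abs, abs_pow]
    exact pow_le_one₀ (abs_nonneg _) (hb x hx)
  have i4 : Integrable (fun x : E n => (inner ℝ w x) ^ 4) τ := by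
    refine h.int_of_bound (by fun_prop) 1 fun x hx => ?_
    rw [Real.norm_eq_abs, abs_pow]
    exact pow_le_one₀ (abs_nonneg _) (hb x hx)
  have i1 : Integrable (fun x : E n => |inner ℝ w x|) τ := by
    refine h.int_of_bound (by fun_prop) 1 fun x hx => ?_
    rw [Real.norm_eq_abs, abs_abs]
    exact hb x hx
  have h1 : ∫ x : E n, 5 / 2 * (a * (inner ℝ w x) ^ 2 - a ^ 3 * (inner ℝ w x) ^ 4) ∂τ ≤
      ∫ x, |inner ℝ w x| ∂τ :=
    integral_mono (((i2.const_mul _).sub (i4.const_mul _)).const_mul _) i1 fun x => poly_ineq ha0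
  rw [integral_const_mul, integral_sub (i2.const_mul _) (i4.const_mul _), integral_const_mul,
    integral_const_mul, h.mom2 hn hw] at h1
  refine le_trans ?_ h1
  have h4 := mul_le_mul_of_nonneg_left (h.mom4 hn hw) (pow_nonneg ha0 3)
  have hs : Real.sqrt n * Real.sqrt n = n := Real.mul_self_sqrt hn'.le
  have hs0 : 0 < Real.sqrt n := Real.sqrt_pos.2 hn'
  have e1 : a * (1 / n) = 1 / 3 / Real.sqrt n := by
    rw [ha]
    field_simp
    rw [sq, hs]
  have e2 : a ^ 3 * (3 / (n : ℝ) ^ 2) = 1 / 9 / Real.sqrt n := by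
    rw [ha]
    field_simp
    have : Real.sqrt n ^ 4 = (n : ℝ) ^ 2 := by
      rw [show Real.sqrt n ^ 4 = (Real.sqrt n * Real.sqrt n) ^ 2 by ring, hs]
    rw [this]
    norm_num
    ring
  rw [e2] at h4
  rw [e1]
  have : 5 / 9 / Real.sqrt n = 5 / 2 * (1 / 3 / Real.sqrt n - 1 / 9 / Real.sqrt n) := by
    field_simp; norm_num
  rw [this]
  linarith

/-- Lower bound for the norm of the mean of a signed vector. -/
lemma Unif.signed_mean (h : Unif n τ) (hn : 0 < n) {w : E n} (hw : w ≠ 0) :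
    25 / 81 / (n : ℝ) ≤ ‖∫ x, sg (inner ℝ w x) • x ∂τ‖ ^ 2 := by
  have := h.prob
  have hn' : (0 : ℝ) < n := by exact_mod_cast hn
  have hwn : 0 < ‖w‖ := norm_pos_iff.2 hw
  set v : E n := ‖w‖⁻¹ • w with hv
  have hv1 : ‖v‖ = 1 := by rw [hv, norm_smul, norm_inv, norm_norm, inv_mul_cancel₀ hwn.ne']
  have hsg : ∀ x : E n, sg (inner ℝ w x) = sg (inner ℝ v x) := by
    intro x
    rw [hv, real_inner_smul_left, sg_pos_mul (inv_pos.2 hwn)]
  have hint : Integrable (fun x : E n => sg (inner ℝ w x) • x) τ := by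
    refine h.int_of_bound ?_ 1 fun x hx => ?_
    · refine ((measurable_sg.comp (by fun_prop)).smul measurable_id).aestronglyMeasurable
    · rw [norm_smul, Real.norm_eq_abs, abs_sg, hx, one_mul]
  have h1 : inner ℝ v (∫ x, sg (inner ℝ w x) • x ∂τ) = ∫ x, |inner ℝ v x| ∂τ := by
    rw [← integral_inner hint]
    congr 1
    funext x
    rw [real_inner_smul_right, hsg, sg_mul_self]
  have h2 : 5 / 9 / Real.sqrt n ≤ ‖∫ x, sg (inner ℝ w x) • x ∂τ‖ := by
    refine (h.mom1 hn hv1).trans ?_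
    rw [← h1]
    have := real_inner_le_norm v (∫ x, sg (inner ℝ w x) • x ∂τ)
    rwa [hv1, one_mul] at this
  have h3 : (5 / 9 / Real.sqrt n) ^ 2 = 25 / 81 / (n : ℝ) := by
    rw [div_pow, Real.sq_sqrt hn'.le]; norm_num
  rw [← h3]
  exact pow_le_pow_left₀ (by positivity) h2 2

end Pool.Agent.Q215.Cone
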