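import Pool.Agent.Q215.Cone.Bias

open MeasureTheory Filter Topology Finset

namespace Pool.Agent.Q215.Cone

variable {n : ℕ} {τ : Measure (E n)}

lemma continuous_D_update (i : Fin n) (ξ : E n) :
    Continuous (fun U : Fin n → E n => D n (Function.update U i ξ)) :=
  continuous_D.comp (continuous_id.update i continuous_const)

lemma upd1 {i j : Fin n} (hij : i ≠ j) (U : Fin n → E n) (x y ξ : E n) :
    Function.update (Function.update (Function.update U i x) j y) i ξ =
      Function.update (Function.update U i ξ) j y := by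
  rw [Function.update_comm hij, Function.update_idem, Function.update_comm hij.symm]

lemma upd2 (i j : Fin n) (U : Fin n → E n) (x y ξ : E n) :
    Function.update (Function.update (Function.update U i x) j y) j ξ =
      Function.update (Function.update U i x) j ξ := by
  rw [Function.update_idem]

lemma upd3 {i j : Fin n} (hij : i ≠ j) (U : Fin n → E n) (x ξ : E n) :
    D n (Function.update (Function.update U i x) j ξ) =
      - D n (Function.update (Function.update U i ξ) j x) := by
  rw [← AlternatingMap.map_swap _ _ hij]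
  congr 1
  funext k
  rw [Function.comp_apply]
  by_cases hki : k = i
  · subst hki
    rw [Equiv.swap_apply_left, Function.update_self, Function.update_of_ne hij,
      Function.update_self]
  · by_cases hkj : k = j
    · subst hkj
      rw [Equiv.swap_apply_right, Function.update_self, Function.update_of_ne hij,
        Function.update_self]
    · rw [Equiv.swap_apply_of_ne_of_ne hki hkj, Function.update_of_ne hkj,
        Function.update_of_ne hki, Function.update_of_ne hkj, Function.update_of_ne hki]

/-- The linear functional `y ↦ D(U with i-th entry ξ and j-th entry y)` as an inner product. -/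
lemma exists_functional (U : Fin n → E n) (i j : Fin n) (ξ : E n) :
    ∃ w : E n, ∀ y, D n (Function.update (Function.update U i ξ) j y) = inner ℝ w y := by
  set f : E n →ₗ[ℝ] ℝ := (D n).toMultilinearMap.toLinearMap (Function.update U i ξ) j with hf
  refine ⟨(InnerProductSpace.toDual ℝ (E n)).symm (LinearMap.toContinuousLinearMap f), fun y => ?_⟩
  rw [InnerProductSpace.toDual_symm_apply]
  rfl

/-- The double integral over two fresh vectors. -/
lemma Unif.double (h : Unif n τ) (hn : 0 < n) {w : E n} (hw : w ≠ 0) :
    ∫ x, ∫ y, sg (inner ℝ w y) * sg (-(inner ℝ w x)) * inner ℝ x y ∂τ ∂τ ≤ -(25 / 81 / (n : ℝ)) := by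
  have := h.prob
  have hint : Integrable (fun x : E n => sg (inner ℝ w x) • x) τ := by
    refine h.int_of_bound ?_ 1 fun x hx => ?_
    · refine ((measurable_sg.comp (by fun_prop)).smul measurable_id).aestronglyMeasurable
    · rw [norm_smul, Real.norm_eq_abs, abs_sg, hx, one_mul]
  set v := ∫ x, sg (inner ℝ w x) • x ∂τ with hv
  have h1 : ∀ x : E n, ∫ y, sg (inner ℝ w y) * sg (-(inner ℝ w x)) * inner ℝ x y ∂τ =
      sg (-(inner ℝ w x)) * inner ℝ x v := by
    intro x
    rw [hv, ← integral_inner hint, ← integral_const_mul]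
    congr 1
    funext y
    rw [real_inner_smul_right]; ring
  simp only [h1]
  have h2 : ∀ᵐ x ∂τ, sg (-(inner ℝ w x)) * inner ℝ x v = -(inner ℝ v (sg (inner ℝ w x) • x)) := by
    have h3 : ∀ᵐ x ∂τ, inner ℝ w x ≠ (0 : ℝ) := by
      rw [ae_iff]
      simpa using h.null w hw
    filter_upwards [h3] with x hx
    rw [sg_neg hx, real_inner_smul_right, real_inner_comm v x]; ring
  rw [integral_congr_ae h2, integral_neg, integral_inner hint, ← hv, real_inner_self_eq_norm_sq]
  exact neg_le_neg (h.signed_mean hn hw)

/-- Resampling two coordinates. -/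
lemma int_update2 [IsProbabilityMeasure τ] (i j : Fin n) {g : (Fin n → E n) → ℝ}
    (hgm : Measurable g) (hg : Integrable g (Pn n τ)) :
    ∫ U, g U ∂(Pn n τ) =
      ∫ U, ∫ x, ∫ y, g (Function.update (Function.update U i x) j y) ∂τ ∂τ ∂(Pn n τ) := by
  have key : ∀ (k : Fin n) {f : (Fin n → E n) → ℝ}, AEStronglyMeasurable f (Pn n τ) →
      Integrable f (Pn n τ) →
      ∫ U, f U ∂(Pn n τ) = ∫ U, ∫ x, f (Function.update U k x) ∂τ ∂(Pn n τ) := by
    intro k f hfm hf
    have hmp := mp_update τ k
    have h1 := integral_map (μ := (Pn n τ).prod τ) hmp.measurable.aemeasurable (f := f)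
      (by rw [hmp.map_eq]; exact hfm)
    rw [hmp.map_eq] at h1
    rw [h1, integral_prod]
    exact hmp.integrable_comp_of_integrable hf
  rw [key j hgm.aestronglyMeasurable hg]
  have hmp := mp_update τ j
  have hi : Integrable (fun U => ∫ y, g (Function.update U j y) ∂τ) (Pn n τ) :=
    (hmp.integrable_comp_of_integrable hg).integral_prod_left
  rw [key i hi.aestronglyMeasurable hi]

/-- The pair correlation. -/
lemma Unif.pair (h : Unif n τ) (hn : 0 < n) {i j : Fin n} (hij : i ≠ j) {ξ : E n}
    (hξ : ∀ i, ∀ᵐ U ∂(Pn n τ), D n (Function.update U i ξ) ≠ 0) :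
    ∫ U, sg (co U ξ i) * sg (co U ξ j) * inner ℝ (U i) (U j) ∂(Pn n τ) ≤
      -(25 / 81 / (n : ℝ)) := by
  have := h.prob
  set g : (Fin n → E n) → ℝ := fun U => sg (D n (Function.update U i ξ)) *
    sg (D n (Function.update U j ξ)) * inner ℝ (U i) (U j) with hg
  have h1 : ∀ᵐ U ∂(Pn n τ), sg (co U ξ i) * sg (co U ξ j) * inner ℝ (U i) (U j) = g U := by
    filter_upwards [hξ i, hξ j, h.ae_D] with U hi hj hD
    simp only [hg, co]
    rw [sg_mul hi hD, sg_mul hj hD]
    have := sg_sq (D n U)
    calc sg (D n (Function.update U i ξ)) * sg (D n U) *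
        (sg (D n (Function.update U j ξ)) * sg (D n U)) * inner ℝ (U i) (U j) =
        (sg (D n U) * sg (D n U)) * (sg (D n (Function.update U i ξ)) *
          sg (D n (Function.update U j ξ)) * inner ℝ (U i) (U j)) := by ring
      _ = _ := by rw [this, one_mul]
  rw [integral_congr_ae h1]
  have hgm : Measurable g := by
    have m1 : Measurable (fun U : Fin n → E n => D n (Function.update U i ξ)) :=
      (continuous_D_update i ξ).measurable
    have m2 : Measurable (fun U : Fin n → E n => D n (Function.update U j ξ)) :=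
      (continuous_D_update j ξ).measurable
    exact ((measurable_sg.comp m1).mul (measurable_sg.comp m2)).mul (by fun_prop)
  have hgi : Integrable g (Pn n τ) := by
    refine Integrable.of_bound hgm.aestronglyMeasurable 1 ?_
    filter_upwards [h.ae_sph n] with U hU
    rw [Real.norm_eq_abs]
    simp only [hg]
    rw [abs_mul, abs_mul, abs_sg, abs_sg, one_mul, one_mul]
    have := abs_real_inner_le_norm (U i) (U j)
    rwa [hU, hU, one_mul] at this
  rw [int_update2 i j hgm hgi]
  have hae : ∀ᵐ U ∂(Pn n τ), ∫ x, ∫ y, g (Function.update (Function.update U i x) j y) ∂τ ∂τ ≤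
      -(25 / 81 / (n : ℝ)) := by
    filter_upwards [hξ i] with U hU
    obtain ⟨w, hw⟩ := exists_functional U i j ξ
    have hw0 : w ≠ 0 := by
      rintro rfl
      have h2 := hw (U j)
      rw [inner_zero_left] at h2
      have h3 : Function.update (Function.update U i ξ) j (U j) = Function.update U i ξ := by
        have : U j = (Function.update U i ξ) j := by rw [Function.update_of_ne hij.symm]
        rw [this, Function.update_eq_self]
      rw [h3] at h2
      exact hU h2
    have h4 : ∀ x y : E n, g (Function.update (Function.update U i x) j y) =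
        sg (inner ℝ w y) * sg (-(inner ℝ w x)) * inner ℝ x y := by
      intro x y
      simp only [hg]
      rw [upd1 hij, upd2, upd3 hij U x ξ, hw, hw, Function.update_self,
        Function.update_of_ne hij, Function.update_self]
    simp only [h4]
    exact h.double hn hw0
  have hi : Integrable (fun U => ∫ x, ∫ y, g (Function.update (Function.update U i x) j y) ∂τ ∂τ)
      (Pn n τ) := by
    have hmp := mp_update τ j
    have hi1 : Integrable (fun U => ∫ y, g (Function.update U j y) ∂τ) (Pn n τ) :=
      (hmp.integrable_comp_of_integrable hgi).integral_prod_left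
    exact ((mp_update τ i).integrable_comp_of_integrable hi1).integral_prod_left
  have := integral_mono_ae hi (integrable_const (-(25 / 81 / (n : ℝ)))) hae
  simpa using this

/-- Upper bound for the biased second moment. -/
theorem Unif.bias_le (h : Unif n τ) (hn : 0 < n) :
    ∫ U, (2 : ℝ) ^ n * al τ U * ‖∑ i, U i‖ ^ 2 ∂(Pn n τ) ≤ n - (n - 1) * (25 / 81) := by
  have := h.prob
  have hn' : (0 : ℝ) < n := by exact_mod_cast hn
  rw [h.bias]
  have hξ : ∀ᵐ ξ ∂τ, ∀ i, ∀ᵐ U ∂(Pn n τ), D n (Function.update U i ξ) ≠ 0 := by
    rw [ae_all_iff]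
    intro i
    have h1 := h.ae_D_update i
    have hmeas : MeasurableSet {z : (Fin n → E n) × E n | D n (Function.update z.1 i z.2) ≠ 0} := by
      have : Continuous (fun z : (Fin n → E n) × E n => D n (Function.update z.1 i z.2)) :=
        continuous_D.comp (continuous_fst.update i continuous_snd)
      exact (isOpen_ne_fun this continuous_const).measurableSet
    rw [Measure.ae_prod_iff_ae_ae hmeas, Measure.ae_ae_comm hmeas] at h1
    exact h1
  have hb : ∀ᵐ ξ ∂τ, ∫ U, ‖∑ i, sg (co U ξ i) • U i‖ ^ 2 ∂(Pn n τ) ≤ n - (n - 1) * (25 / 81) := by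
    filter_upwards [hξ] with ξ hξ
    have hco : ∀ i, Measurable (fun U : Fin n → E n => co U ξ i) := fun i =>
      ((continuous_co i).comp (continuous_id.prodMk continuous_const)).measurable
    have hint : ∀ i j : Fin n, Integrable (fun U : Fin n → E n =>
        sg (co U ξ i) * sg (co U ξ j) * inner ℝ (U i) (U j)) (Pn n τ) := by
      intro i j
      refine Integrable.of_bound (C := 1) ?_ ?_
      · exact (((measurable_sg.comp (hco i)).mul (measurable_sg.comp (hco j))).mul
          (by fun_prop)).aestronglyMeasurable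
      · filter_upwards [h.ae_sph n] with U hU
        rw [Real.norm_eq_abs, abs_mul, abs_mul, abs_sg, abs_sg, one_mul, one_mul]
        have := abs_real_inner_le_norm (U i) (U j)
        rwa [hU, hU, one_mul] at this
    have hexp : ∀ U : Fin n → E n, ‖∑ i, sg (co U ξ i) • U i‖ ^ 2 =
        ∑ i, ∑ j, sg (co U ξ i) * sg (co U ξ j) * inner ℝ (U i) (U j) := by
      intro U
      rw [← real_inner_self_eq_norm_sq, sum_inner]
      refine Finset.sum_congr rfl fun i _ => ?_
      rw [inner_sum]
      refine Finset.sum_congr rfl fun j _ => ?_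
      rw [real_inner_smul_left, real_inner_smul_right]; ring
    simp only [hexp]
    rw [integral_finsetSum _ fun i _ => integrable_finsetSum _ fun j _ => hint i j]
    have hrow : ∀ i : Fin n, ∫ U, ∑ j, sg (co U ξ i) * sg (co U ξ j) * inner ℝ (U i) (U j)
        ∂(Pn n τ) ≤ 1 - (n - 1) * (25 / 81 / (n : ℝ)) := by
      intro i
      rw [integral_finsetSum _ fun j _ => hint i j, ← Finset.add_sum_erase _ _ (Finset.mem_univ i)]
      have hd : ∫ U, sg (co U ξ i) * sg (co U ξ i) * inner ℝ (U i) (U i) ∂(Pn n τ) = 1 := by
        have : ∀ᵐ U ∂(Pn n τ), sg (co U ξ i) * sg (co U ξ i) * inner ℝ (U i) (U i) = 1 := by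
          filter_upwards [h.ae_sph n] with U hU
          rw [sg_sq, one_mul, real_inner_self_eq_norm_sq, hU, one_pow]
        rw [integral_congr_ae this]
        simp
      rw [hd]
      have hs : ∑ j ∈ Finset.univ.erase i, ∫ U, sg (co U ξ i) * sg (co U ξ j) *
          inner ℝ (U i) (U j) ∂(Pn n τ) ≤ ∑ j ∈ Finset.univ.erase i, -(25 / 81 / (n : ℝ)) :=
        Finset.sum_le_sum fun j hj => h.pair hn (Finset.ne_of_mem_erase hj).symm hξ
      rw [Finset.sum_const, Finset.card_erase_of_mem (Finset.mem_univ i), Finset.card_univ,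
        Fintype.card_fin, nsmul_eq_mul, Nat.cast_sub hn] at hs
      push_cast at hs
      linarith
    refine (Finset.sum_le_sum fun i _ => hrow i).trans (le_of_eq ?_)
    rw [Finset.sum_const, Finset.card_univ, Fintype.card_fin, nsmul_eq_mul]
    field_simp
  have hnn : ∀ ξ : E n, 0 ≤ ∫ U, ‖∑ i, sg (co U ξ i) • U i‖ ^ 2 ∂(Pn n τ) := fun ξ =>
    integral_nonneg fun U => by positivity
  have hc : (0 : ℝ) ≤ n - (n - 1) * (25 / 81) := by
    have : (1 : ℝ) ≤ n := by exact_mod_cast hn
    nlinarith
  have := integral_mono_of_nonneg (μ := τ) (Filter.Eventually.of_forall hnn)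
    (integrable_const ((n : ℝ) - (n - 1) * (25 / 81))) hb
  simpa using this

end Pool.Agent.Q215.Cone
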