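import Pool.Agent.Q215.Cone.Bias
import Pool.Agent.Q215.Cone.GFiv

open MeasureTheory Filter Topology
open scoped ENNReal Pointwise

namespace Pool.Agent.Q215.Cone

/-- The uniform distribution on the unit sphere of `ℝ^d` (the normalised surface measure),
regarded as a measure on `ℝ^d`. -/
noncomputable def sigma (d : ℕ) : Measure (EuclideanSpace ℝ (Fin d)) :=
  (((volume : Measure (EuclideanSpace ℝ (Fin d))).toSphere Set.univ)⁻¹ •
    (volume : Measure (EuclideanSpace ℝ (Fin d))).toSphere).map Subtype.val

/-- The positive hull of `x_1, ..., x_d`. -/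
def pos {d : ℕ} (x : Fin d → EuclideanSpace ℝ (Fin d)) : Set (EuclideanSpace ℝ (Fin d)) :=
  {y | ∃ c : Fin d → ℝ, (∀ i, 0 ≤ c i) ∧ y = ∑ i, c i • x i}

/-- The normalised solid angle `α(C) = σ(C ∩ S^{d-1})`. -/
noncomputable def angle {d : ℕ} (C : Set (EuclideanSpace ℝ (Fin d))) : ℝ :=
  (sigma d (C ∩ Metric.sphere 0 1)).toReal

/-- The law of `(U_1, ..., U_d)`, independent and uniform on the sphere. -/
noncomputable def law (d : ℕ) : Measure (Fin d → EuclideanSpace ℝ (Fin d)) :=
  Measure.pi fun _ => sigma d

variable {n : ℕ}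

lemma map_apply_sphere {A : Set (E n)} (hA : MeasurableSet A) :
    ((volume : Measure (E n)).toSphere.map Subtype.val) A =
      Module.finrank ℝ (E n) * volume (Set.Ioo (0 : ℝ) 1 • (A ∩ Metric.sphere 0 1)) := by
  rw [Measure.map_apply measurable_subtype_coe hA,
    Measure.toSphere_apply' _ (measurable_subtype_coe hA), Subtype.image_preimage_coe,
    Set.inter_comm]

lemma sigma_eq : sigma n = ((volume : Measure (E n)).toSphere Set.univ)⁻¹ •
    ((volume : Measure (E n)).toSphere.map Subtype.val) := by
  unfold sigma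
  rw [Measure.map_smul]

theorem unif (hn : 0 < n) : Unif n (sigma n) := by
  have : Nonempty (Fin n) := ⟨⟨0, hn⟩⟩
  have hfin : (volume : Measure (E n)).toSphere Set.univ ≠ 0 := by
    rw [Ne, Measure.measure_univ_eq_zero]
    exact Measure.toSphere_ne_zero _
  have hfin2 : (volume : Measure (E n)).toSphere Set.univ ≠ ⊤ := measure_ne_top _ _
  refine ⟨?_, ?_, ?_, ?_⟩
  · have h1 : IsProbabilityMeasure (((volume : Measure (E n)).toSphere Set.univ)⁻¹ •
        (volume : Measure (E n)).toSphere) := by
      refine ⟨?_⟩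
      rw [Measure.smul_apply, smul_eq_mul, ENNReal.inv_mul_cancel hfin hfin2]
    exact Measure.isProbabilityMeasure_map measurable_subtype_coe.aemeasurable
  · unfold sigma
    rw [ae_map_iff measurable_subtype_coe.aemeasurable]
    · exact Filter.Eventually.of_forall fun x => mem_sphere_zero_iff_norm.1 x.2
    · exact (isClosed_eq continuous_norm continuous_const).measurableSet
  · intro O
    refine ⟨O.continuous.measurable, ?_⟩
    rw [sigma_eq, Measure.map_smul]
    congr 1
    ext A hA
    rw [Measure.map_apply O.continuous.measurable hA,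
      map_apply_sphere (O.continuous.measurable hA), map_apply_sphere hA]
    congr 1
    have h1 : Set.Ioo (0 : ℝ) 1 • (O ⁻¹' A ∩ Metric.sphere 0 1) =
        O ⁻¹' (Set.Ioo (0 : ℝ) 1 • (A ∩ Metric.sphere 0 1)) := by
      ext x
      simp only [Set.mem_smul, Set.mem_inter_iff, Set.mem_preimage, mem_sphere_zero_iff_norm]
      constructor
      · rintro ⟨r, hr, y, ⟨hy, hy1⟩, rfl⟩
        exact ⟨r, hr, O y, ⟨hy, by rw [O.norm_map]; exact hy1⟩, by rw [map_smul]⟩
      · rintro ⟨r, hr, y, ⟨hy, hy1⟩, hxy⟩
        refine ⟨r, hr, O.symm y, ⟨?_, ?_⟩, ?_⟩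
        · rw [O.apply_symm_apply]; exact hy
        · rw [O.symm.norm_map]; exact hy1
        · rw [← map_smul, hxy, O.symm_apply_apply]
    rw [h1]
    exact O.measurePreserving.measure_preimage_emb O.toHomeomorph.measurableEmbedding _
  · intro w hw
    have hA : MeasurableSet {x : E n | inner ℝ w x = (0 : ℝ)} :=
      (isClosed_eq (by fun_prop) continuous_const).measurableSet
    rw [sigma_eq, Measure.smul_apply, map_apply_sphere hA]
    have h0 : (volume : Measure (E n)) (Set.Ioo (0 : ℝ) 1 •
        ({x : E n | inner ℝ w x = (0 : ℝ)} ∩ Metric.sphere 0 1)) = 0 := by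
      have hK : (ℝ ∙ w)ᗮ ≠ ⊤ := by
        intro htop
        have : w ∈ (ℝ ∙ w)ᗮ := htop ▸ Submodule.mem_top
        rw [Submodule.mem_orthogonal_singleton_iff_inner_right] at this
        exact hw (inner_self_eq_zero.1 this)
      refine measure_mono_null ?_ (Measure.addHaar_submodule volume _ hK)
      rintro _ ⟨r, _, y, ⟨hy, _⟩, rfl⟩
      rw [SetLike.mem_coe, Submodule.mem_orthogonal_singleton_iff_inner_right]
      simp only [inner_smul_right]
      rw [show inner ℝ w y = (0 : ℝ) from hy, mul_zero]
    rw [h0, mul_zero, smul_zero]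

/-- Almost surely the solid angle is the one expressed through determinants. -/
theorem angle_eq (hn : 0 < n) : ∀ᵐ U ∂(law n), angle (pos U) = al (sigma n) U := by
  have h := unif hn
  filter_upwards [h.ae_li n le_rfl] with U hU
  unfold angle al
  congr 1
  have h1 : {ξ | (U, ξ) ∈ MM n} = pos U := by
    ext ξ
    exact (mem_posHull_iff hU ξ).symm
  rw [h1]
  refine measure_congr ?_
  filter_upwards [h.sph] with x hx
  refine propext ⟨fun hh => hh.1, fun hh => ⟨hh, mem_sphere_zero_iff_norm.2 hx⟩⟩

/-- The direction of a vector. -/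
noncomputable def dir (x : Fin n → ℝ) : E n :=
  ‖(WithLp.toLp 2 x : E n)‖⁻¹ • (WithLp.toLp 2 x : E n)

lemma measurable_dir : Measurable (dir : (Fin n → ℝ) → E n) := by
  have h1 : Continuous (fun x : Fin n → ℝ => (WithLp.toLp 2 x : E n)) := by fun_prop
  have h2 : Measurable (fun x : Fin n → ℝ => (WithLp.toLp 2 x : E n)) := h1.measurable
  have h3 : Measurable (fun x : Fin n → ℝ => ‖(WithLp.toLp 2 x : E n)‖⁻¹) := h2.norm.inv
  exact h3.smul h2

/-- The direction of a Gaussian vector is uniform on the sphere. -/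
theorem map_dir (hn : 0 < n) : MeasurePreserving dir (ga n) (sigma n) := by
  refine ⟨measurable_dir, ?_⟩
  have : Nonempty (Fin n) := ⟨⟨0, hn⟩⟩
  set h : ℝ → ℝ≥0∞ := fun r => ENNReal.ofReal ((√(2 * Real.pi))⁻¹ ^ n * Real.exp (-(r ^ 2) / 2))
    with hh
  have hhm : Measurable h := by
    rw [hh]
    fun_prop
  set J : ℝ≥0∞ := ∫⁻ r : Set.Ioi (0 : ℝ), h r ∂(Measure.volumeIoiPow (Module.finrank ℝ (E n) - 1))
    with hJ
  have key : ∀ A : Set (E n), MeasurableSet A →
      Measure.map dir (ga n) A = ((volume : Measure (E n)).toSphere.map Subtype.val) A * J := by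
    intro A hA
    set F : E n → ℝ≥0∞ := fun x => A.indicator (fun _ => (1 : ℝ≥0∞)) (‖x‖⁻¹ • x) * h ‖x‖ with hF
    have hmA : Measurable (A.indicator (fun _ : E n => (1 : ℝ≥0∞))) :=
      measurable_const.indicator hA
    have hFm : Measurable F := by
      have h1 : Measurable (fun x : E n => ‖x‖⁻¹ • x) := measurable_norm.inv.smul measurable_id
      exact (hmA.comp h1).mul (hhm.comp measurable_norm)
    have e1 : Measure.map dir (ga n) A = ∫⁻ x : E n, F x := by
      rw [Measure.map_apply measurable_dir hA, ga_dn, withDensity_apply _ (measurable_dir hA),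
        ← lintegral_indicator (measurable_dir hA),
        ← (PiLp.volume_preserving_toLp (Fin n)).lintegral_comp hFm]
      refine lintegral_congr fun x => ?_
      have h2 : ∑ i, x i ^ 2 = ‖(WithLp.toLp 2 x : E n)‖ ^ 2 := by
        rw [EuclideanSpace.norm_sq_eq]
        refine Finset.sum_congr rfl fun i _ => ?_
        rw [Real.norm_eq_abs, sq_abs]
      have h3 : dn n x = h ‖(WithLp.toLp 2 x : E n)‖ := by
        rw [hh]
        unfold dn
        rw [h2]
      rw [hF]
      by_cases hx : dir x ∈ A
      · rw [Set.indicator_of_mem (by exact hx)]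
        simp only
        rw [Set.indicator_of_mem (by exact hx), one_mul, h3]
      · rw [Set.indicator_of_notMem (by exact hx)]
        simp only
        rw [Set.indicator_of_notMem (by exact hx), zero_mul]
    have e2 : ∫⁻ x : E n, F x = ∫⁻ x : ({0}ᶜ : Set (E n)), F (x : E n)
        ∂((volume : Measure (E n)).comap Subtype.val) := by
      rw [lintegral_subtype_comap (measurableSet_singleton _).compl, restrict_compl_singleton]
    have hmp := (volume : Measure (E n)).measurePreserving_homeomorphUnitSphereProd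
    set f : Metric.sphere (0 : E n) 1 × Set.Ioi (0 : ℝ) → ℝ≥0∞ :=
      fun z => A.indicator (fun _ => (1 : ℝ≥0∞)) (z.1 : E n) * h z.2 with hf
    have hfm : Measurable f :=
      (hmA.comp (measurable_subtype_coe.comp measurable_fst)).mul
        (hhm.comp (measurable_subtype_coe.comp measurable_snd))
    have e3 : ∫⁻ x : ({0}ᶜ : Set (E n)), F (x : E n)
        ∂((volume : Measure (E n)).comap Subtype.val) =
        ∫⁻ z, f z ∂((volume : Measure (E n)).toSphere.prod
          (Measure.volumeIoiPow (Module.finrank ℝ (E n) - 1))) := by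
      rw [← hmp.lintegral_comp hfm]
      refine lintegral_congr fun x => ?_
      rw [hf, hF]
      simp only [homeomorphUnitSphereProd_apply_snd_coe, homeomorphUnitSphereProd_apply_fst_coe]
    rw [e1, e2, e3, hf]
    rw [lintegral_prod_mul (f := fun z : Metric.sphere (0 : E n) 1 =>
      A.indicator (fun _ => (1 : ℝ≥0∞)) (z : E n)) (g := fun r : Set.Ioi (0 : ℝ) => h r)
      (hmA.comp measurable_subtype_coe).aemeasurable (hhm.comp measurable_subtype_coe).aemeasurable]
    congr 1
    rw [Measure.map_apply measurable_subtype_coe hA,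
      ← lintegral_indicator_one (measurable_subtype_coe hA)]
    rfl
  have hprob : IsProbabilityMeasure (Measure.map dir (ga n)) :=
    Measure.isProbabilityMeasure_map measurable_dir.aemeasurable
  have h1 := key Set.univ MeasurableSet.univ
  rw [measure_univ, Measure.map_apply measurable_subtype_coe MeasurableSet.univ,
    Set.preimage_univ] at h1
  have hJ2 : J = ((volume : Measure (E n)).toSphere Set.univ)⁻¹ :=
    ENNReal.eq_inv_of_mul_eq_one_left (by rw [mul_comm]; exact h1.symm)
  ext A hA
  rw [key A hA, sigma_eq, Measure.smul_apply, smul_eq_mul, hJ2, mul_comm]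

end Pool.Agent.Q215.Cone
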