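import Pool.Agent.Q215.Cone.Mom

open MeasureTheory Filter Topology
open scoped ENNReal CompactlySupported

namespace Pool.Agent.Q215.Cone

/-- The measure `μ_d(A) = 2^d d P[α_d ∈ A]`, `A ⊆ (0,∞)` Borel. -/
noncomputable def mu (d : ℕ) : Measure (Set.Ioi (0 : ℝ)) :=
  ENNReal.ofReal (2 ^ d * d) •
    ((law d).map (fun U : Fin d → EuclideanSpace ℝ (Fin d) => angle (pos U))).comap Subtype.val

/-- The angle as a real number. -/
noncomputable def ar {n : ℕ} (G : Mt n n) : ℝ := (ang G).toReal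

lemma measurable_ar {n : ℕ} : Measurable (ar : Mt n n → ℝ) := measurable_ang.ennreal_toReal

lemma ar_nonneg {n : ℕ} (G : Mt n n) : 0 ≤ ar G := ENNReal.toReal_nonneg

lemma ar_le {n : ℕ} (G : Mt n n) : ar G ≤ 1 := ang_le_one G

/-- The weighted integral. -/
noncomputable def Rd (d : ℕ) (h : ℝ → ℝ) : ℝ :=
  2 ^ d * d * ∫ G, ar G ^ 2 * h (ar G) ∂(gm d d)

lemma integrable_cont {d : ℕ} {h : ℝ → ℝ} (hc : Continuous h) :
    Integrable (fun G : Mt d d => ar G ^ 2 * h (ar G)) (gm d d) := by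
  obtain ⟨C, hC⟩ := (isCompact_Icc (a := (0 : ℝ)) (b := 1)).exists_bound_of_continuousOn
    hc.continuousOn
  refine Integrable.of_bound
    ((measurable_ar.pow_const 2).mul (hc.measurable.comp measurable_ar)).aestronglyMeasurable C
    (Filter.Eventually.of_forall fun G => ?_)
  rw [norm_mul]
  have h1 : ‖ar G ^ 2‖ ≤ 1 := by
    rw [norm_pow, Real.norm_eq_abs, abs_of_nonneg (ar_nonneg G)]
    exact pow_le_one₀ (ar_nonneg G) (ar_le G)
  have h2 := hC (ar G) ⟨ar_nonneg G, ar_le G⟩
  calc ‖ar G ^ 2‖ * ‖h (ar G)‖ ≤ 1 * C := mul_le_mul h1 h2 (norm_nonneg _) zero_le_one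
    _ = C := one_mul C

lemma Rd_pow (d j : ℕ) (hd : 0 < d) : Rd d (fun x => x ^ j) = 2 ^ d * d * moment d (j + 2) := by
  unfold Rd
  rw [moment_eq d _ hd, PP_toReal]
  congr 1
  refine integral_congr_ae (Filter.Eventually.of_forall fun G => ?_)
  unfold ar
  simp only
  ring

lemma Rd_one_le (d : ℕ) {h : ℝ → ℝ} (hc : Continuous h) {ε : ℝ}
    (hb : ∀ x ∈ Set.Icc (0 : ℝ) 1, |h x| ≤ ε) : |Rd d h| ≤ ε * Rd d (fun _ => 1) := by
  unfold Rd
  rw [abs_mul, abs_of_nonneg (by positivity : (0 : ℝ) ≤ 2 ^ d * d)]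
  have h1 : |∫ G, ar G ^ 2 * h (ar G) ∂(gm d d)| ≤ ∫ G, ε * (ar G ^ 2 * 1) ∂(gm d d) := by
    refine (abs_integral_le_integral_abs).trans (integral_mono (integrable_cont hc).abs ?_ ?_)
    · exact (integrable_cont continuous_const).const_mul ε
    · intro G
      simp only
      rw [abs_mul, abs_of_nonneg (by positivity : (0 : ℝ) ≤ ar G ^ 2), mul_one, mul_comm]
      exact mul_le_mul_of_nonneg_right (hb _ ⟨ar_nonneg G, ar_le G⟩) (by positivity)
  calc 2 ^ d * (d : ℝ) * |∫ G, ar G ^ 2 * h (ar G) ∂(gm d d)| ≤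
      2 ^ d * (d : ℝ) * ∫ G, ε * (ar G ^ 2 * 1) ∂(gm d d) :=
        mul_le_mul_of_nonneg_left h1 (by positivity)
    _ = ε * (2 ^ d * d * ∫ G, ar G ^ 2 * 1 ∂(gm d d)) := by
        rw [integral_const_mul]; ring

lemma Rd_sub (d : ℕ) {h g : ℝ → ℝ} (hc : Continuous h) (hg : Continuous g) :
    Rd d (fun x => h x - g x) = Rd d h - Rd d g := by
  unfold Rd
  have : ∀ G : Mt d d, ar G ^ 2 * (h (ar G) - g (ar G)) =
      ar G ^ 2 * h (ar G) - ar G ^ 2 * g (ar G) := fun G => by ring
  simp_rw [this]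
  rw [integral_sub (integrable_cont hc) (integrable_cont hg)]
  ring

/-- Convergence for monomials. -/
lemma conv_pow (j : ℕ) : ∃ L, Tendsto (fun d => Rd d (fun x => x ^ j)) atTop (𝓝 L) := by
  obtain ⟨c, _, hlim⟩ := tendsto_moment (j + 2) (by omega)
  refine ⟨c, hlim.congr' ?_⟩
  filter_upwards [eventually_gt_atTop 0] with d hd
  rw [Rd_pow d j hd]

/-- Convergence for polynomials. -/
lemma conv_poly (p : Polynomial ℝ) :
    ∃ L, Tendsto (fun d => Rd d (fun x => p.eval x)) atTop (𝓝 L) := by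
  have h1 : ∀ d, Rd d (fun x => p.eval x) =
      ∑ j ∈ Finset.range (p.natDegree + 1), p.coeff j * Rd d (fun x => x ^ j) := by
    intro d
    unfold Rd
    have h2 : ∀ G : Mt d d, ar G ^ 2 * p.eval (ar G) =
        ∑ j ∈ Finset.range (p.natDegree + 1), p.coeff j * (ar G ^ 2 * ar G ^ j) := by
      intro G
      rw [Polynomial.eval_eq_sum_range, Finset.mul_sum]
      exact Finset.sum_congr rfl fun j _ => by ring
    simp_rw [h2]
    rw [integral_finsetSum]
    · rw [Finset.mul_sum]
      refine Finset.sum_congr rfl fun j _ => ?_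
      rw [integral_const_mul]
      ring
    · intro j _
      exact (integrable_cont (by fun_prop : Continuous fun x : ℝ => x ^ j)).const_mul _
  choose L hL using conv_pow
  refine ⟨∑ j ∈ Finset.range (p.natDegree + 1), p.coeff j * L j, ?_⟩
  simp_rw [h1]
  exact tendsto_finset_sum _ fun j _ => (hL j).const_mul _

/-- Convergence for continuous functions. -/
theorem conv_cont {h : ℝ → ℝ} (hc : Continuous h) :
    ∃ L, Tendsto (fun d => Rd d h) atTop (𝓝 L) := by
  obtain ⟨L0, hL0⟩ := conv_pow 0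
  simp only [pow_zero] at hL0
  have hbd : ∀ᶠ d in atTop, Rd d (fun _ => 1) ≤ |L0| + 1 := by
    filter_upwards [hL0.eventually (gt_mem_nhds (lt_add_one L0))] with d hd
    have := le_abs_self L0
    have hd' : Rd d (fun _ => 1) < L0 + 1 := hd
    linarith
  refine cauchySeq_tendsto_of_complete ?_
  rw [Metric.cauchySeq_iff]
  intro ε hε
  set M := |L0| + 1 with hM
  have hM0 : 0 < M := by positivity
  have hδ : 0 < ε / (4 * M) := by positivity
  obtain ⟨p, hp⟩ := exists_polynomial_near_of_continuousOn 0 1 h hc.continuousOn _ hδ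
  obtain ⟨Lp, hLp⟩ := conv_poly p
  obtain ⟨N1, hN1⟩ := eventually_atTop.1 hbd
  obtain ⟨N2, hN2⟩ := Metric.cauchySeq_iff.1 hLp.cauchySeq (ε / 4) (by positivity)
  refine ⟨max N1 N2, fun a ha b hb => ?_⟩
  have key : ∀ d, N1 ≤ d → |Rd d h - Rd d (fun x => p.eval x)| ≤ ε / 4 := by
    intro d hd
    rw [← Rd_sub d hc p.continuous]
    have h1 := Rd_one_le d (h := fun x => h x - p.eval x) (hc.sub p.continuous)
      (ε := ε / (4 * M)) (fun x hx => by
        rw [abs_sub_comm]
        exact (hp x hx).le)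
    refine h1.trans ?_
    have h2 := hN1 d hd
    calc ε / (4 * M) * Rd d (fun _ => 1) ≤ ε / (4 * M) * M :=
          mul_le_mul_of_nonneg_left h2 hδ.le
      _ = ε / 4 := by field_simp
  have h1 := key a ((le_max_left _ _).trans ha)
  have h2 := key b ((le_max_left _ _).trans hb)
  have h3 := hN2 a ((le_max_right _ _).trans ha) b ((le_max_right _ _).trans hb)
  rw [Real.dist_eq] at h3 ⊢
  rw [abs_le] at h1 h2
  rw [abs_lt] at h3 ⊢
  constructor <;> linarith [h1.1, h1.2, h2.1, h2.2, h3.1, h3.2]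

/-- Extension by zero. -/
noncomputable def ext0 (f : Set.Ioi (0 : ℝ) → ℝ) (x : ℝ) : ℝ :=
  if h : 0 < x then f ⟨x, h⟩ else 0

lemma ext0_val (f : Set.Ioi (0 : ℝ) → ℝ) (x : Set.Ioi (0 : ℝ)) : ext0 f x = f x := by
  unfold ext0
  have h : (0 : ℝ) < x := x.2
  rw [dif_pos h]

lemma ext0_of_nonpos (f : Set.Ioi (0 : ℝ) → ℝ) {x : ℝ} (hx : x ≤ 0) : ext0 f x = 0 := by
  unfold ext0
  rw [dif_neg (not_lt.2 hx)]

lemma continuous_ext0_div {f : Set.Ioi (0 : ℝ) → ℝ} (hf : Continuous f)
    (hs : HasCompactSupport f) : Continuous (fun x => ext0 f x / x ^ 2) := by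
  set K : Set ℝ := Subtype.val '' (tsupport f) with hK
  have hKc : IsCompact K := IsCompact.image hs continuous_subtype_val
  have hKcl : IsClosed K := hKc.isClosed
  have hzero : ∀ x ∉ K, ext0 f x = 0 := by
    intro x hx
    by_cases h : 0 < x
    · have h1 : ext0 f x = f ⟨x, h⟩ := ext0_val f ⟨x, h⟩
      rw [h1]
      by_contra hne
      exact hx ⟨⟨x, h⟩, subset_tsupport f hne, rfl⟩
    · exact ext0_of_nonpos f (not_lt.1 h)
  rw [continuous_iff_continuousAt]
  intro x
  by_cases hx : x ∈ K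
  · obtain ⟨y, _, rfl⟩ := hx
    have hy : (0 : ℝ) < y := y.2
    have h1 : ContinuousAt (ext0 f) y := by
      rw [← (isOpen_Ioi.isOpenEmbedding_subtypeVal).continuousAt_iff (f := Subtype.val)
        (g := ext0 f)]
      have : ext0 f ∘ Subtype.val = f := by
        funext z
        exact ext0_val f z
      rw [this]
      exact hf.continuousAt
    exact h1.div (continuousAt_id.pow 2) (by positivity)
  · have h1 : (fun x => ext0 f x / x ^ 2) =ᶠ[𝓝 x] fun _ => 0 := by
      filter_upwards [hKcl.isOpen_compl.mem_nhds hx] with z hz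
      rw [hzero z hz, zero_div]
    exact (continuousAt_const (y := (0 : ℝ))).congr h1.symm

lemma continuous_ext0 {f : Set.Ioi (0 : ℝ) → ℝ} (hf : Continuous f)
    (hs : HasCompactSupport f) : Continuous (ext0 f) := by
  have h1 := (continuous_ext0_div hf hs).mul (continuous_pow 2)
  refine h1.congr fun x => ?_
  change ext0 f x / x ^ 2 * x ^ 2 = ext0 f x
  by_cases hx : x = 0
  · rw [hx, ext0_of_nonpos f le_rfl]
    simp
  · field_simp

lemma int_mu {d : ℕ} (hd : 0 < d) {f : Set.Ioi (0 : ℝ) → ℝ} (hf : Continuous f)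
    (hs : HasCompactSupport f) : ∫ x, f x ∂(mu d) = Rd d (fun x => ext0 f x / x ^ 2) := by
  have := (unif hd).prob
  have hcont := continuous_ext0 hf hs
  have hae : AEMeasurable (fun U : Fin d → EuclideanSpace ℝ (Fin d) => angle (pos U)) (law d) :=
    ⟨al (sigma d), measurable_al, angle_eq hd⟩
  unfold mu
  rw [integral_smul_measure, ENNReal.toReal_ofReal (by positivity), smul_eq_mul]
  unfold Rd
  congr 1
  have h1 : ∀ x : Set.Ioi (0 : ℝ), f x = ext0 f x := fun x => (ext0_val f x).symm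
  simp_rw [h1]
  rw [integral_subtype_comap measurableSet_Ioi (fun x => ext0 f x)]
  have h2 : ∫ x in Set.Ioi 0, ext0 f x
      ∂((law d).map (fun U : Fin d → EuclideanSpace ℝ (Fin d) => angle (pos U))) =
      ∫ x, ext0 f x ∂((law d).map (fun U : Fin d → EuclideanSpace ℝ (Fin d) => angle (pos U))) := by
    refine setIntegral_eq_integral_of_forall_compl_eq_zero fun x hx => ?_
    exact ext0_of_nonpos f (not_lt.1 hx)
  rw [h2, integral_map hae hcont.aestronglyMeasurable, int_law hd _ hcont.measurable]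
  refine integral_congr_ae (Filter.Eventually.of_forall fun G => ?_)
  change ext0 f (ar G) = ar G ^ 2 * (ext0 f (ar G) / ar G ^ 2)
  by_cases hx : ar G = 0
  · rw [hx, ext0_of_nonpos f le_rfl]
    simp
  · field_simp

/-- Convergence of the integrals of compactly supported continuous functions. -/
lemma conv_mu (f : C_c(Set.Ioi (0 : ℝ), ℝ)) :
    ∃ L, Tendsto (fun d => ∫ x, f x ∂(mu d)) atTop (𝓝 L) := by
  obtain ⟨L, hL⟩ := conv_cont (continuous_ext0_div f.continuous f.hasCompactSupport)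
  refine ⟨L, hL.congr' ?_⟩
  filter_upwards [eventually_gt_atTop 0] with d hd
  exact (int_mu hd f.continuous f.hasCompactSupport).symm

lemma mu_finite (d : ℕ) (hd : 0 < d) : IsFiniteMeasure (mu d) := by
  have := (unif hd).prob
  have h1 : IsFiniteMeasure ((law d).map
      (fun U : Fin d → EuclideanSpace ℝ (Fin d) => angle (pos U))) := by
    have : IsProbabilityMeasure (law d) := by unfold law; infer_instance
    infer_instance
  refine ⟨?_⟩
  unfold mu
  rw [Measure.smul_apply, smul_eq_mul]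
  refine ENNReal.mul_lt_top ENNReal.ofReal_lt_top ?_
  rw [MeasurableEmbedding.comap_apply (MeasurableEmbedding.subtype_coe measurableSet_Ioi)]
  exact measure_lt_top _ _

/-- The limit functional. -/
noncomputable def Lam (f : C_c(Set.Ioi (0 : ℝ), ℝ)) : ℝ := (conv_mu f).choose

lemma Lam_spec (f : C_c(Set.Ioi (0 : ℝ), ℝ)) :
    Tendsto (fun d => ∫ x, f x ∂(mu d)) atTop (𝓝 (Lam f)) := (conv_mu f).choose_spec

/-- The limit functional as a positive linear map. -/
noncomputable def LamP : C_c(Set.Ioi (0 : ℝ), ℝ) →ₚ[ℝ] ℝ :=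
  PositiveLinearMap.mk₀
    { toFun := Lam
      map_add' := by
        intro f g
        refine tendsto_nhds_unique (Lam_spec (f + g)) ?_
        refine ((Lam_spec f).add (Lam_spec g)).congr' ?_
        filter_upwards [eventually_gt_atTop 0] with d hd
        have := mu_finite d hd
        have hi : ∀ f : C_c(Set.Ioi (0 : ℝ), ℝ), Integrable (fun x => f x) (mu d) := fun f =>
          f.continuous.integrable_of_hasCompactSupport f.hasCompactSupport
        rw [← integral_add (hi f) (hi g)]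
        rfl
      map_smul' := by
        intro c f
        refine tendsto_nhds_unique (Lam_spec (c • f)) ?_
        refine ((Lam_spec f).const_mul c).congr' ?_
        filter_upwards with d
        rw [← integral_const_mul]
        rfl }
    (by
      intro f hf
      refine ge_of_tendsto (Lam_spec f) ?_
      filter_upwards with d
      exact integral_nonneg fun x => hf x)

instance instLC : LocallyCompactSpace (Set.Ioi (0 : ℝ)) :=
  (isOpen_Ioi.isOpenEmbedding_subtypeVal).locallyCompactSpace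

/-- The limit measure. -/
noncomputable def muLim : Measure (Set.Ioi (0 : ℝ)) := RealRMK.rieszMeasure LamP

theorem muLim_spec {f : Set.Ioi (0 : ℝ) → ℝ} (hf : Continuous f) (hs : HasCompactSupport f) :
    Tendsto (fun d => ∫ x, f x ∂(mu d)) atTop (𝓝 (∫ x, f x ∂muLim)) := by
  have h1 := RealRMK.integral_rieszMeasure LamP ⟨⟨f, hf⟩, hs⟩
  have h2 := Lam_spec ⟨⟨f, hf⟩, hs⟩
  have h3 : ∫ x, f x ∂muLim = Lam ⟨⟨f, hf⟩, hs⟩ := h1
  rw [h3]
  exact h2

lemma muLim_locallyFinite : IsLocallyFiniteMeasure muLim := by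
  unfold muLim
  infer_instance

lemma Rd_mono (d : ℕ) {h g : ℝ → ℝ} (hc : Continuous h) (hg : Continuous g)
    (hb : ∀ x ∈ Set.Icc (0 : ℝ) 1, h x ≤ g x) : Rd d h ≤ Rd d g := by
  unfold Rd
  refine mul_le_mul_of_nonneg_left ?_ (by positivity)
  refine integral_mono (integrable_cont hc) (integrable_cont hg) fun G => ?_
  exact mul_le_mul_of_nonneg_left (hb _ ⟨ar_nonneg G, ar_le G⟩) (by positivity)

/-- A test function. -/
noncomputable def tf (ε : ℝ) (x : ℝ) : ℝ := x * (min 1 (max 0 (x / ε - 1)) * max 0 (min 1 (2 - x)))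

lemma continuous_tf (ε : ℝ) : Continuous (tf ε) := by
  unfold tf
  fun_prop

lemma tf_zero {ε : ℝ} (hε : 0 < ε) {x : ℝ} (hx : x ≤ ε) : tf ε x = 0 := by
  unfold tf
  have h1 : x / ε - 1 ≤ 0 := by
    rw [sub_nonpos, div_le_one hε]
    exact hx
  rw [max_eq_left h1, min_eq_right zero_le_one]
  ring

lemma tf_zero' {ε : ℝ} {x : ℝ} (hx : 2 ≤ x) : tf ε x = 0 := by
  unfold tf
  have h1 : min 1 (2 - x) ≤ 0 := (min_le_right _ _).trans (by linarith)
  rw [max_eq_left h1]
  ring

lemma tf_lower {ε : ℝ} (hε : 0 < ε) {x : ℝ} (h0 : 0 ≤ x) (h1 : x ≤ 1) :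
    x - 2 * ε * 1 ≤ tf ε x := by
  unfold tf
  have h2 : min 1 (2 - x) = 1 := min_eq_left (by linarith)
  rw [h2, max_eq_right zero_le_one, mul_one]
  by_cases hx : x ≤ 2 * ε
  · have h3 : 0 ≤ x * min 1 (max 0 (x / ε - 1)) :=
      mul_nonneg h0 (le_min zero_le_one (le_max_left _ _))
    linarith
  · push Not at hx
    have h3 : 1 ≤ x / ε - 1 := by
      rw [le_sub_iff_add_le, le_div_iff₀ hε]
      linarith
    rw [max_eq_right (by linarith), min_eq_left h3]
    linarith

theorem muLim_ne_zero : muLim ≠ 0 := by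
  intro h0
  obtain ⟨c3, hc3, hlim3⟩ := tendsto_moment 3 (by norm_num)
  obtain ⟨c2, hc2, hlim2⟩ := tendsto_moment 2 le_rfl
  set ε : ℝ := c3 / (4 * c2) with hε
  have hεp : 0 < ε := by positivity
  set f : Set.Ioi (0 : ℝ) → ℝ := fun x => (x : ℝ) ^ 2 * tf ε x with hf
  have hfc : Continuous f :=
    (continuous_subtype_val.pow 2).mul ((continuous_tf ε).comp continuous_subtype_val)
  have hfs : HasCompactSupport f := by
    have hK : IsCompact ((Subtype.val : Set.Ioi (0 : ℝ) → ℝ) ⁻¹' (Set.Icc ε 2)) := by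
      rw [Subtype.isCompact_iff, Subtype.image_preimage_coe]
      have : Set.Ioi (0 : ℝ) ∩ Set.Icc ε 2 = Set.Icc ε 2 :=
        Set.inter_eq_right.2 fun x hx => lt_of_lt_of_le hεp hx.1
      rw [this]
      exact isCompact_Icc
    refine HasCompactSupport.intro hK fun x hx => ?_
    rw [hf]
    simp only
    have : (x : ℝ) < ε ∨ 2 < (x : ℝ) := by
      by_contra hcon
      push Not at hcon
      exact hx ⟨hcon.1, hcon.2⟩
    rcases this with h | h
    · rw [tf_zero hεp h.le, mul_zero]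
    · rw [tf_zero' h.le, mul_zero]
  have hlim := muLim_spec hfc hfs
  rw [h0, integral_zero_measure] at hlim
  have hR : ∀ d : ℕ, 0 < d → ∫ x, f x ∂(mu d) = Rd d (tf ε) := by
    intro d hd
    rw [int_mu hd hfc hfs]
    congr 1
    funext x
    by_cases hx : 0 < x
    · have h1 : ext0 f x = x ^ 2 * tf ε x := ext0_val f ⟨x, hx⟩
      rw [h1]
      field_simp
    · have hx' := not_lt.1 hx
      rw [ext0_of_nonpos f hx', tf_zero hεp (hx'.trans hεp.le), zero_div]
  have hlow : ∀ᶠ d : ℕ in atTop, 2 ^ d * d * moment d 3 - 2 * ε * (2 ^ d * d * moment d 2) ≤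
      ∫ x, f x ∂(mu d) := by
    filter_upwards [eventually_gt_atTop 0] with d hd
    rw [hR d hd]
    have h1 := Rd_mono d (h := fun x => x - 2 * ε * 1) (g := tf ε) (by fun_prop)
      (continuous_tf ε) fun x hx => tf_lower hεp hx.1 hx.2
    have h2 : Rd d (fun x => x - 2 * ε * 1) =
        2 ^ d * d * moment d 3 - 2 * ε * (2 ^ d * d * moment d 2) := by
      have h3 := Rd_sub d (h := fun x => x) (g := fun _ => 2 * ε * 1) (by fun_prop) (by fun_prop)
      rw [h3]
      have h4 := Rd_pow d 1 hd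
      have h5 := Rd_pow d 0 hd
      simp only [pow_one] at h4
      simp only [pow_zero] at h5
      have h6 : Rd d (fun _ => 2 * ε * 1) = 2 * ε * Rd d (fun _ => 1) := by
        unfold Rd
        have : ∀ G : Mt d d, ar G ^ 2 * (2 * ε * 1) = (2 * ε) * (ar G ^ 2 * 1) := fun G => by ring
        simp_rw [this]
        rw [integral_const_mul]
        ring
      rw [h6, h4, h5]
    rw [← h2]
    exact h1
  have hlim' := hlim3.sub (hlim2.const_mul (2 * ε))
  have hfin := le_of_tendsto_of_tendsto hlim' hlim hlow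
  have : 2 * ε * c2 = c3 / 2 := by
    rw [hε]
    field_simp
    ring
  rw [this] at hfin
  linarith

end Pool.Agent.Q215.Cone
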